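import Mathlib
import Pool.Agent.Helper34.FHS.DomDefs

/-!
# DM1: elementary properties of `W V j n` (see DomDefs)
-/

namespace Pool.Agent.Helper34.FHS.Dom

variable {G : Type*} [Monoid G] {K : Type*} [Field K] {V : ℕ → Submodule K (G → K)}

/-- By induction on `j` (for `j = 0` this is `hV.mono`; the generators of `W (j+1) m` are
generators of `W (j+1) n`). -/
theorem W_mono (hV : IsFilt V) (j : ℕ) : Monotone (W V j) := by
  intro m n hmn
  cases j with
  | zero => exact hV.mono hmn
  | succ j =>
    refine Submodule.span_mono ?_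
    rintro β ⟨d, e, hde, γ, hγ, hγ1, δ, hδ, rfl⟩
    exact ⟨d, e, hde.trans hmn, γ, hγ, hγ1, δ, hδ, rfl⟩

/-- Multiplying by a function of `V e`: induction on `j`; for `j + 1` use
`β * (γ * δ) = γ * (β * δ)` and the induction hypothesis `β * δ ∈ W j (e + e')`. -/
theorem mul_mem_W (hV : IsFilt V) {e : ℕ} {β : G → K} (hβ : β ∈ V e) (j n : ℕ) {δ : G → K}
    (hδ : δ ∈ W V j n) : (fun g => β g * δ g) ∈ W V j (e + n) := by
  induction j generalizing n δ with
  | zero => exact hV.mul e n β δ hβ hδ
  | succ j ih =>
    have hδ' : δ ∈ Submodule.span K {β : G → K | ∃ d e, d + e ≤ n ∧ ∃ γ ∈ V d, γ 1 = 0 ∧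
      ∃ δ ∈ W V j e, β = fun g => γ g * δ g} := hδ
    induction hδ' using Submodule.span_induction with
    | mem x hx =>
      obtain ⟨d, e', hde, γ, hγ, hγ1, δ', hδ', rfl⟩ := hx
      refine Submodule.subset_span ⟨d, e + e', by omega, γ, hγ, hγ1, fun g => β g * δ' g,
        ih e' hδ', ?_⟩
      funext g
      ring
    | zero =>
      have h0 : (fun g => β g * (0 : G → K) g) = 0 := by
        funext g
        simp
      rw [h0]
      exact Submodule.zero_mem _
    | add x y hx hy hx' hy' =>
      have h0 : (fun g => β g * (x + y) g) = (fun g => β g * x g) + fun g => β g * y g := by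
        funext g
        simp [mul_add]
      rw [h0]
      exact Submodule.add_mem _ (hx' hx) (hy' hy)
    | smul c x hx hx' =>
      have h0 : (fun g => β g * (c • x) g) = c • fun g => β g * x g := by
        funext g
        simp [mul_left_comm]
      rw [h0]
      exact Submodule.smul_mem _ _ (hx' hx)

/-- `W (j+1) n ≤ W j n`: a generator is `γ * δ` with `γ ∈ V d`, `δ ∈ W j e`: use `mul_mem_W` and
`W_mono`. -/
theorem W_succ_le (hV : IsFilt V) (j n : ℕ) : W V (j + 1) n ≤ W V j n := by
  refine Submodule.span_le.2 ?_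
  rintro β ⟨d, e, hde, γ, hγ, hγ1, δ, hδ, rfl⟩
  exact W_mono hV j hde (mul_mem_W hV hγ j e hδ)

/-- `W` is antitone in `j` (from `W_succ_le`). -/
theorem W_anti (hV : IsFilt V) {i j : ℕ} (h : i ≤ j) (n : ℕ) : W V j n ≤ W V i n := by
  induction h with
  | refl => exact le_refl _
  | step _ ih => exact (W_succ_le hV _ n).trans ih

/-- Products. Induction on `j`: `j = 0` is `mul_mem_W`. -/
theorem W_mul (hV : IsFilt V) (j j' n n' : ℕ) {p q : G → K} (hp : p ∈ W V j n)
    (hq : q ∈ W V j' n') : (fun g => p g * q g) ∈ W V (j + j') (n + n') := by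
  induction j generalizing n p with
  | zero =>
    rw [Nat.zero_add]
    exact mul_mem_W hV hp j' n' hq
  | succ j ih =>
    have hp' : p ∈ Submodule.span K {β : G → K | ∃ d e, d + e ≤ n ∧ ∃ γ ∈ V d, γ 1 = 0 ∧
      ∃ δ ∈ W V j e, β = fun g => γ g * δ g} := hp
    have hj : j + 1 + j' = j + j' + 1 := by omega
    rw [hj]
    induction hp' using Submodule.span_induction with
    | mem x hx =>
      obtain ⟨d, e', hde, γ, hγ, hγ1, δ', hδ', rfl⟩ := hx
      refine Submodule.subset_span ⟨d, e' + n', by omega, γ, hγ, hγ1, fun g => δ' g * q g,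
        ih e' hδ', ?_⟩
      funext g
      ring
    | zero =>
      have h0 : (fun g => (0 : G → K) g * q g) = 0 := by
        funext g
        simp
      rw [h0]
      exact Submodule.zero_mem _
    | add x y hx hy hx' hy' =>
      have h0 : (fun g => (x + y) g * q g) = (fun g => x g * q g) + fun g => y g * q g := by
        funext g
        simp [add_mul]
      rw [h0]
      exact Submodule.add_mem _ (hx' hx) (hy' hy)
    | smul c x hx hx' =>
      have h0 : (fun g => (c • x) g * q g) = c • fun g => x g * q g := by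
        funext g
        simp [mul_assoc]
      rw [h0]
      exact Submodule.smul_mem _ _ (hx' hx)

/-- `W j n = 0` for `j > n`: by induction on `j` (for all `n`): a generator of `W (j+1) n` is
`γ * δ`, `γ ∈ V d`, `γ 1 = 0`, `δ ∈ W j e`, `d + e ≤ n ≤ j`. If `d = 0` then `γ` is a constant,
hence `0`. If `d ≥ 1` then `e < j`, so `δ = 0` by the induction hypothesis. -/
theorem W_eq_bot (hV : IsFilt V) (j n : ℕ) (h : n < j) : W V j n = ⊥ := by
  induction j generalizing n with
  | zero => omega
  | succ j ih =>
    refine (Submodule.eq_bot_iff _).2 fun x hx => ?_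
    have hle : W V (j + 1) n ≤ ⊥ := by
      refine Submodule.span_le.2 ?_
      rintro β ⟨d, e, hde, γ, hγ, hγ1, δ, hδ, rfl⟩
      show (fun g => γ g * δ g) ∈ (⊥ : Submodule K (G → K))
      rw [Submodule.mem_bot]
      rcases Nat.eq_zero_or_pos d with hd | hd
      · subst hd
        obtain ⟨c, rfl⟩ := hV.const γ hγ
        have hc : c = 0 := hγ1
        funext g
        simp [hc]
      · rw [ih e (by omega), Submodule.mem_bot] at hδ
        funext g
        simp [hδ]
    exact (Submodule.mem_bot K).1 (hle hx)

end Pool.Agent.Helper34.FHS.Dom
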