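import Mathlib
import Pool.Agent.Helper34.FHS.DomDefs
import Pool.Agent.Helper34.FHS.St.DM1

/-!
# DM2: the bifiltration `P V N D` of functions of two variables
-/

namespace Pool.Agent.Helper34.FHS.Dom

variable {G : Type*} [Monoid G] {K : Type*} [Field K] {V : ℕ → Submodule K (G → K)}

/-- Products: `(p q)(p' q') = (p p')(q q')` and `W_mul` (two `Submodule.span_induction`s, or
`Submodule.mul`-like bilinearity). -/
theorem P_mul (hV : IsFilt V) (N N' D D' : ℕ) {Ψ Φ : G × G → K} (hΨ : Ψ ∈ P V N D)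
    (hΦ : Φ ∈ P V N' D') : (fun x => Ψ x * Φ x) ∈ P V (N + N') (D + D') := by
  unfold P at hΨ hΦ
  induction hΨ using Submodule.span_induction with
  | mem Ψ h =>
    obtain ⟨j, j', d, d', hj, hd, p, hp, q, hq, rfl⟩ := h
    induction hΦ using Submodule.span_induction with
    | mem Φ h =>
      obtain ⟨i, i', e, e', hi, he, r, hr, s, hs, rfl⟩ := h
      refine Submodule.subset_span ⟨j + i, j' + i', d + e, d' + e', by omega, by omega,
        fun g => p g * r g, W_mul hV j i d e hp hr, fun g => q g * s g,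
        W_mul hV j' i' d' e' hq hs, ?_⟩
      funext x
      ring
    | zero =>
      have h : (fun x : G × G => p x.1 * q x.2 * (0 : G × G → K) x) = 0 := by
        funext x
        simp
      rw [h]
      exact Submodule.zero_mem _
    | add Φ1 Φ2 _ _ h1 h2 =>
      have h : (fun x : G × G => p x.1 * q x.2 * (Φ1 + Φ2) x) =
          (fun x => p x.1 * q x.2 * Φ1 x) + (fun x => p x.1 * q x.2 * Φ2 x) := by
        funext x
        simp [mul_add]
      rw [h]
      exact Submodule.add_mem _ h1 h2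
    | smul c Φ1 _ h1 =>
      have h : (fun x : G × G => p x.1 * q x.2 * (c • Φ1) x) =
          c • (fun x => p x.1 * q x.2 * Φ1 x) := by
        funext x
        simp only [Pi.smul_apply, smul_eq_mul]
        ring
      rw [h]
      exact Submodule.smul_mem _ _ h1
  | zero =>
    have h : (fun x : G × G => (0 : G × G → K) x * Φ x) = 0 := by
      funext x
      simp
    rw [h]
    exact Submodule.zero_mem _
  | add Ψ1 Ψ2 _ _ h1 h2 =>
    have h : (fun x : G × G => (Ψ1 + Ψ2) x * Φ x) =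
        (fun x => Ψ1 x * Φ x) + (fun x => Ψ2 x * Φ x) := by
      funext x
      simp [add_mul]
    rw [h]
    exact Submodule.add_mem _ h1 h2
  | smul c Ψ1 _ h1 =>
    have h : (fun x : G × G => (c • Ψ1) x * Φ x) = c • (fun x => Ψ1 x * Φ x) := by
      funext x
      simp only [Pi.smul_apply, smul_eq_mul]
      ring
    rw [h]
    exact Submodule.smul_mem _ _ h1

/-- generators of the smaller space are generators of the larger one -/
theorem P_le (hV : IsFilt V) {N N' D D' : ℕ} (hN : N' ≤ N) (hD : D ≤ D') :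
    P V N D ≤ P V N' D' := by
  unfold P
  refine Submodule.span_mono ?_
  rintro Ψ ⟨j, j', d, d', hj, hd, p, hp, q, hq, rfl⟩
  exact ⟨j, j', d, d', by omega, by omega, p, hp, q, hq, rfl⟩

private theorem one_mem_W (hV : IsFilt V) : (fun _ => 1 : G → K) ∈ W V 0 0 := hV.one

private theorem mem_W_one (hV : IsFilt V) {d : ℕ} {γ : G → K} (hγ : γ ∈ V d) (h1 : γ 1 = 0) :
    γ ∈ W V 1 d := by
  refine Submodule.subset_span ⟨d, 0, by omega, γ, hγ, h1, fun _ => 1, hV.one, ?_⟩
  funext g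
  rw [mul_one]

/-- `1 ∈ P 0 0` -/
theorem one_mem_P (hV : IsFilt V) : (fun _ => 1 : G × G → K) ∈ P V 0 0 := by
  refine Submodule.subset_span ⟨0, 0, 0, 0, le_refl _, le_refl _, fun _ => 1, one_mem_W hV,
    fun _ => 1, one_mem_W hV, ?_⟩
  funext x
  rw [mul_one]

/-- `γ(g) + γ(h) ∈ P 1 d` for `γ ∈ V d`, `γ 1 = 0` (`γ = γ * 1 ∈ W 1 d`, `1 ∈ W 0 0 = V 0`). -/
theorem add_mem_P (hV : IsFilt V) {d : ℕ} {γ : G → K} (hγ : γ ∈ V d) (h1 : γ 1 = 0) :
    (fun x : G × G => γ x.1 + γ x.2) ∈ P V 1 d := by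
  have h : (fun x : G × G => γ x.1 + γ x.2) =
      (fun x : G × G => γ x.1) + (fun x : G × G => γ x.2) := rfl
  rw [h]
  refine Submodule.add_mem _ ?_ ?_
  · refine Submodule.subset_span ⟨1, 0, d, 0, le_refl _, le_refl _, γ, mem_W_one hV hγ h1,
      fun _ => 1, one_mem_W hV, ?_⟩
    funext x
    rw [mul_one]
  · refine Submodule.subset_span ⟨0, 1, 0, d, le_refl _, by omega, fun _ => 1, one_mem_W hV,
      γ, mem_W_one hV hγ h1, ?_⟩
    funext x
    rw [one_mul]

private theorem sub_const_mem (hV : IsFilt V) {i : ℕ} {p : G → K} (hp : p ∈ V i) (c : K) :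
    (fun g => p g - c) ∈ V i := by
  have h : (fun g => p g - c) = p - c • (fun _ => 1 : G → K) := by
    funext g
    simp
  rw [h]
  exact Submodule.sub_mem _ hp (Submodule.smul_mem _ _ (hV.mono (Nat.zero_le i) hV.one))

/-- Write `γ(gh) = ∑ p_k(g) q_k(h)` with `p_k ∈ V i`, `q_k ∈ V j`, `i + j ≤ d` (`hV.comul`; a finite
sum of generators, e.g. by `Submodule.mem_span_iff_exists_finset_subset` or, better, prove by
`Submodule.span_induction` that every `Ψ` in the span of `hV.comul` satisfies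
`Ψ(g,h) - Ψ(g,1) - Ψ(1,h) + Ψ(1,1) ∈ P 2 d`: for a generator `p(g) q(h)` this is
`(p(g) - p(1)) (q(h) - q(1))` with `p - p(1) ∈ V i` vanishing at `1`, so in `W 1 i`; likewise `q`).
For `Ψ(g,h) = γ(gh)` the expression is `γ(gh) - γ(g) - γ(h) + 0`. -/
theorem comul_mem_P (hV : IsFilt V) {d : ℕ} {γ : G → K} (hγ : γ ∈ V d) (h1 : γ 1 = 0) :
    (fun x : G × G => γ (x.1 * x.2) - (γ x.1 + γ x.2)) ∈ P V 2 d := by
  have key : ∀ Ψ ∈ Submodule.span K {Ψ : G × G → K | ∃ i j, i + j ≤ d ∧ ∃ p ∈ V i, ∃ q ∈ V j,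
      Ψ = fun x => p x.1 * q x.2},
      (fun x : G × G => Ψ (x.1, x.2) - Ψ (x.1, 1) - Ψ (1, x.2) + Ψ (1, 1)) ∈ P V 2 d := by
    intro Ψ hΨ
    induction hΨ using Submodule.span_induction with
    | mem Ψ h =>
      obtain ⟨i, j, hij, p, hp, q, hq, rfl⟩ := h
      refine Submodule.subset_span ⟨1, 1, i, j, le_refl _, hij, fun g => p g - p 1,
        mem_W_one hV (sub_const_mem hV hp (p 1)) (sub_self _), fun g => q g - q 1,
        mem_W_one hV (sub_const_mem hV hq (q 1)) (sub_self _), ?_⟩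
      funext x
      simp only
      ring
    | zero =>
      have h : (fun x : G × G => (0 : G × G → K) (x.1, x.2) - (0 : G × G → K) (x.1, 1) -
          (0 : G × G → K) (1, x.2) + (0 : G × G → K) (1, 1)) = 0 := by
        funext x
        simp
      rw [h]
      exact Submodule.zero_mem _
    | add Ψ1 Ψ2 _ _ h1 h2 =>
      have h : (fun x : G × G => (Ψ1 + Ψ2) (x.1, x.2) - (Ψ1 + Ψ2) (x.1, 1) -
          (Ψ1 + Ψ2) (1, x.2) + (Ψ1 + Ψ2) (1, 1)) =
          (fun x : G × G => Ψ1 (x.1, x.2) - Ψ1 (x.1, 1) - Ψ1 (1, x.2) + Ψ1 (1, 1)) +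
          (fun x : G × G => Ψ2 (x.1, x.2) - Ψ2 (x.1, 1) - Ψ2 (1, x.2) + Ψ2 (1, 1)) := by
        funext x
        simp only [Pi.add_apply]
        ring
      rw [h]
      exact Submodule.add_mem _ h1 h2
    | smul c Ψ1 _ h1 =>
      have h : (fun x : G × G => (c • Ψ1) (x.1, x.2) - (c • Ψ1) (x.1, 1) -
          (c • Ψ1) (1, x.2) + (c • Ψ1) (1, 1)) =
          c • (fun x : G × G => Ψ1 (x.1, x.2) - Ψ1 (x.1, 1) - Ψ1 (1, x.2) + Ψ1 (1, 1)) := by
        funext x
        simp only [Pi.smul_apply, smul_eq_mul]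
        ring
      rw [h]
      exact Submodule.smul_mem _ _ h1
  have h2 := key _ (hV.comul d γ hγ)
  have h3 : (fun x : G × G => γ (x.1 * x.2) - (γ x.1 + γ x.2)) =
      (fun x : G × G => (fun x : G × G => γ (x.1 * x.2)) (x.1, x.2) -
        (fun x : G × G => γ (x.1 * x.2)) (x.1, 1) - (fun x : G × G => γ (x.1 * x.2)) (1, x.2) +
        (fun x : G × G => γ (x.1 * x.2)) (1, 1)) := by
    funext x
    simp only [mul_one, one_mul, h1]
    ring
  rw [h3]
  exact h2

end Pool.Agent.Helper34.FHS.Dom
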