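import Mathlib
import Pool.Agent.Helper34.FHS.DomDefs
import Pool.Agent.Helper34.FHS.St.DM2

/-!
# DM3: products of functions vanishing at 1
-/

namespace Pool.Agent.Helper34.FHS.Dom

variable {G : Type*} [Monoid G] {K : Type*} [Field K] {V : ℕ → Submodule K (G → K)}
  {E : Type*} (γ : E → G → K) (d : E → ℕ)

/-- The product of the functions `γ e`, `e ∈ u`, lies in `W (card u) (∑ d)`, hence in `V (∑ d)`.
Induction on the multiset. -/
theorem prod_mem_W (hV : IsFilt V) (hγ : ∀ e, γ e ∈ V (d e)) (h1 : ∀ e, γ e 1 = 0)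
    (u : Multiset E) :
    (fun g => (u.map fun e => γ e g).prod) ∈ W V (Multiset.card u) (u.map d).sum := by
  induction u using Multiset.induction_on with
  | empty =>
    simp only [Multiset.map_zero, Multiset.prod_zero, Multiset.card_zero, Multiset.sum_zero]
    exact hV.one
  | cons e u ih =>
    simp only [Multiset.map_cons, Multiset.prod_cons, Multiset.card_cons, Multiset.sum_cons]
    exact Submodule.subset_span ⟨d e, (u.map d).sum, le_rfl, γ e, hγ e, h1 e, _, ih, rfl⟩

/-- Modulo `P (card u + 1) (∑ d)` the product of the `γ e (g h)` is the product of the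
`γ e g + γ e h`. Induction on the multiset, carrying along that
`∏ (γ e g + γ e h) ∈ P (card u) (∑ d)`: with `A = γ(gh)`, `A₀ = γ(g) + γ(h) ∈ P 1 d`,
`A - A₀ ∈ P 2 d`, `B`, `B₀` the products over the rest:
`A B - A₀ B₀ = (A - A₀)(B - B₀) + (A - A₀) B₀ + A₀ (B - B₀)`. -/
theorem prod_sub_mem_P (hV : IsFilt V) (hγ : ∀ e, γ e ∈ V (d e)) (h1 : ∀ e, γ e 1 = 0)
    (u : Multiset E) :
    (fun x : G × G => (u.map fun e => γ e (x.1 * x.2)).prod -
      (u.map fun e => γ e x.1 + γ e x.2).prod) ∈ P V (Multiset.card u + 1) (u.map d).sum ∧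
    (fun x : G × G => (u.map fun e => γ e x.1 + γ e x.2).prod) ∈
      P V (Multiset.card u) (u.map d).sum := by
  induction u using Multiset.induction_on with
  | empty =>
    constructor
    · simp only [Multiset.map_zero, Multiset.prod_zero, sub_self]
      exact Submodule.zero_mem _
    · simp only [Multiset.map_zero, Multiset.prod_zero, Multiset.card_zero, Multiset.sum_zero]
      exact one_mem_P hV
  | cons e u ih =>
    obtain ⟨ih1, ih2⟩ := ih
    simp only [Multiset.map_cons, Multiset.prod_cons, Multiset.card_cons, Multiset.sum_cons]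
    have hA := comul_mem_P hV (hγ e) (h1 e)
    have hA0 := add_mem_P hV (hγ e) (h1 e)
    constructor
    · have t1 := P_le hV (N' := Multiset.card u + 1 + 1) (by omega) le_rfl
        (P_mul hV _ _ _ _ hA ih1)
      have t2 := P_le hV (N' := Multiset.card u + 1 + 1) (by omega) le_rfl
        (P_mul hV _ _ _ _ hA ih2)
      have t3 := P_le hV (N' := Multiset.card u + 1 + 1) (by omega) le_rfl
        (P_mul hV _ _ _ _ hA0 ih1)
      have key := Submodule.add_mem _ (Submodule.add_mem _ t1 t2) t3
      convert key using 1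
      funext x
      simp only [Pi.add_apply]
      ring
    · exact P_le hV (by omega) le_rfl (P_mul hV _ _ _ _ hA0 ih2)

/-- `a ⊗ b` kills `P (ma + mb + 1) (na + nb)`: for a generator `p(g) q(h)`, `p ∈ W j d`,
`q ∈ W j' d'`: if `d < na` then `a p = 0` (`W j d ≤ V d`); if `d' < nb` then `b q = 0`; otherwise
`d = na`, `d' = nb` and `j > ma` or `j' > mb`. -/
theorem tens_eq_zero (hV : IsFilt V) (a b : (G → K) →ₗ[K] K) (na nb ma mb : ℕ)
    (ha : ∀ n < na, ∀ β ∈ V n, a β = 0) (hb : ∀ n < nb, ∀ β ∈ V n, b β = 0)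
    (ha' : ∀ β ∈ W V (ma + 1) na, a β = 0) (hb' : ∀ β ∈ W V (mb + 1) nb, b β = 0)
    {Ψ : G × G → K} (hΨ : Ψ ∈ P V (ma + mb + 1) (na + nb)) : tens a b Ψ = 0 := by
  have key : P V (ma + mb + 1) (na + nb) ≤ LinearMap.ker (tens a b) := by
    refine Submodule.span_le.2 ?_
    rintro Φ ⟨j, j', e, e', hj, he, p, hp, q, hq, rfl⟩
    rw [SetLike.mem_coe, LinearMap.mem_ker, tens_mul]
    by_cases h1 : e < na
    · have : a p = 0 := ha e h1 p (W_anti hV (Nat.zero_le j) e hp)
      rw [this, zero_mul]
    · by_cases h2 : e' < nb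
      · have : b q = 0 := hb e' h2 q (W_anti hV (Nat.zero_le j') e' hq)
        rw [this, mul_zero]
      · have h3 : e = na := by omega
        have h4 : e' = nb := by omega
        subst h3 h4
        by_cases h5 : ma + 1 ≤ j
        · rw [ha' p (W_anti hV h5 e hp), zero_mul]
        · rw [hb' q (W_anti hV (by omega) e' hq), mul_zero]
  exact key hΨ

end Pool.Agent.Helper34.FHS.Dom
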