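import Mathlib
import Pool.Agent.Helper34.FHS.DomDefs
import Pool.Agent.Helper34.FHS.St.DM3

/-!
# DM4: the Leibniz formula for `a * b` on long products
-/

namespace Pool.Agent.Helper34.FHS.Dom

variable {G : Type*} [Monoid G] {K : Type*} [Field K] {V : ℕ → Submodule K (G → K)}
  {E : Type*} (γ : E → G → K) (d : E → ℕ)

omit [Monoid G] in
private theorem tens_multiset_sum {I : Type*} (a b : (G → K) →ₗ[K] K) (m : Multiset I)
    (F : I → G × G → K) :
    tens a b (fun x => (m.map fun p => F p x).sum) = (m.map fun p => tens a b (F p)).sum := by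
  induction m using Multiset.induction_on with
  | empty =>
    simp only [Multiset.map_zero, Multiset.sum_zero]
    exact map_zero (tens a b)
  | cons i m ih =>
    simp only [Multiset.map_cons, Multiset.sum_cons]
    rw [← ih]
    exact map_add (tens a b) (F i) (fun x => (m.map fun p => F p x).sum)

/-- `tens a b` of the product of the `γ e g + γ e h` is the sum over `Multiset.antidiagonal`
(`Multiset.prod_map_add`, linearity of `tens` and `tens_mul`). -/
theorem tens_prod_add (a b : (G → K) →ₗ[K] K) (u : Multiset E) :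
    tens a b (fun x : G × G => (u.map fun e => γ e x.1 + γ e x.2).prod) =
      (u.antidiagonal.map fun p => a (fun g => (p.1.map fun e => γ e g).prod) *
        b (fun g => (p.2.map fun e => γ e g).prod)).sum := by
  have h1 : (fun x : G × G => (u.map fun e => γ e x.1 + γ e x.2).prod) =
      fun x => (u.antidiagonal.map fun p => (p.1.map fun e => γ e x.1).prod *
        (p.2.map fun e => γ e x.2).prod).sum := by
    funext x
    exact Multiset.prod_map_add
  rw [h1, tens_multiset_sum]
  congr 1
  apply Multiset.map_congr rfl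
  intro p _
  exact tens_mul a b (fun g => (p.1.map fun e => γ e g).prod)
    (fun g => (p.2.map fun e => γ e g).prod)

/-- From `prod_sub_mem_P`, `tens_eq_zero`, `P_le` and `tens_prod_add`. -/
theorem conv_prod (hV : IsFilt V) (hγ : ∀ e, γ e ∈ V (d e)) (h1 : ∀ e, γ e 1 = 0)
    (a b : (G → K) →ₗ[K] K) (na nb ma mb : ℕ)
    (ha : ∀ n < na, ∀ β ∈ V n, a β = 0) (hb : ∀ n < nb, ∀ β ∈ V n, b β = 0)
    (ha' : ∀ β ∈ W V (ma + 1) na, a β = 0) (hb' : ∀ β ∈ W V (mb + 1) nb, b β = 0)
    (u : Multiset E) (hu : Multiset.card u = ma + mb) (hd : (u.map d).sum ≤ na + nb) :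
    a (fun g => b fun h => (u.map fun e => γ e (g * h)).prod) =
      (u.antidiagonal.map fun p => a (fun g => (p.1.map fun e => γ e g).prod) *
        b (fun g => (p.2.map fun e => γ e g).prod)).sum := by
  rw [← tens_prod_add]
  have h2 := (prod_sub_mem_P γ d hV hγ h1 u).1
  have h3 := P_le hV (N := Multiset.card u + 1) (N' := ma + mb + 1) (D := (u.map d).sum)
    (D' := na + nb) (by omega) hd h2
  have h4 := tens_eq_zero hV a b na nb ma mb ha hb ha' hb' h3
  have h5 : tens a b ((fun x : G × G => (u.map fun e => γ e (x.1 * x.2)).prod) -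
      (fun x : G × G => (u.map fun e => γ e x.1 + γ e x.2).prod)) = 0 := h4
  rw [map_sub, sub_eq_zero] at h5
  exact h5

end Pool.Agent.Helper34.FHS.Dom
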