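import Mathlib
import Pool.Agent.Helper34.FHS.DomDefs
import Pool.Agent.Helper34.FHS.St.DM1

/-!
# DM5: a top symbol is detected by a product of functions vanishing at 1
-/

set_option autoImplicit false

namespace Pool.Agent.Helper34.FHS.Dom

variable {G : Type*} [Monoid G] {K : Type*} [Field K] {V : ℕ → Submodule K (G → K)}

/-- Every element of `W j n` is modulo `W (j+1) n` a linear combination of pure products
`∏_{i < j} γ_i`, `γ_i ∈ V (d_i)`, `γ_i 1 = 0`, `∑ d_i ≤ n`. Induction on `j`:
`j = 0`: `β = β(1) + (β - β(1))`, the empty product is `1`, and `β - β(1) ∈ W 1 n`. Step: a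
generator `γ * δ` of `W (j+1) n`, `δ ∈ W j e`: apply the induction hypothesis to `δ` and multiply
by `γ` (`γ * W (j+1) e ≤ W (j+2) (d+e)`). `Fin.cons` for the families. -/
theorem W_decomp (hV : IsFilt V) (j n : ℕ) :
    W V j n ≤ W V (j + 1) n ⊔ Submodule.span K {β : G → K | ∃ (d : Fin j → ℕ) (γ : Fin j → G → K),
      (∀ i, γ i ∈ V (d i)) ∧ (∀ i, γ i 1 = 0) ∧ ∑ i, d i ≤ n ∧ β = fun g => ∏ i, γ i g} := by
  induction j generalizing n with
  | zero =>
    intro β hβ
    have hβ' : β ∈ V n := hβ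
    have h1 : (fun g => β g - β 1) ∈ V n := by
      have h2 : (β 1) • (fun _ => 1 : G → K) ∈ V n :=
        (V n).smul_mem _ (hV.mono (Nat.zero_le n) hV.one)
      have h3 := (V n).sub_mem hβ' h2
      convert h3 using 1
      funext g
      simp
    have h4 : (fun g => β g - β 1) ∈ W V (0 + 1) n := by
      refine Submodule.subset_span ⟨n, 0, le_rfl, _, h1, by simp, (fun _ => 1), hV.one, ?_⟩
      funext g
      simp
    have h5 : (β 1) • (fun _ => 1 : G → K) ∈ Submodule.span K
        {β : G → K | ∃ (d : Fin 0 → ℕ) (γ : Fin 0 → G → K),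
          (∀ i, γ i ∈ V (d i)) ∧ (∀ i, γ i 1 = 0) ∧ ∑ i, d i ≤ n ∧ β = fun g => ∏ i, γ i g} := by
      refine Submodule.smul_mem _ _ (Submodule.subset_span ⟨fun _ => 0, fun _ _ => 0,
        fun i => i.elim0, fun i => i.elim0, by simp, ?_⟩)
      funext g
      simp
    refine Submodule.mem_sup.2 ⟨_, h4, _, h5, ?_⟩
    funext g
    simp
  | succ j ih =>
    refine Submodule.span_le.2 ?_
    rintro β ⟨d, e, hde, γ, hγ, hγ1, δ, hδ, rfl⟩
    obtain ⟨δ1, h1, δ2, h2, rfl⟩ := Submodule.mem_sup.1 (ih e hδ)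
    have h3 : (fun g => γ g * δ1 g) ∈ W V (j + 1 + 1) n :=
      Submodule.subset_span ⟨d, e, hde, γ, hγ, hγ1, δ1, h1, rfl⟩
    have h4 : (fun g => γ g * δ2 g) ∈ Submodule.span K
        {β : G → K | ∃ (d : Fin (j + 1) → ℕ) (γ : Fin (j + 1) → G → K),
          (∀ i, γ i ∈ V (d i)) ∧ (∀ i, γ i 1 = 0) ∧ ∑ i, d i ≤ n ∧
            β = fun g => ∏ i, γ i g} := by
      clear hδ
      induction h2 using Submodule.span_induction with
      | mem x hx =>
        obtain ⟨d', γ', h5, h6, h7, rfl⟩ := hx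
        refine Submodule.subset_span ⟨Fin.cons d d', Fin.cons γ γ', ?_, ?_, ?_, ?_⟩
        · intro i
          refine Fin.cases ?_ (fun i => ?_) i
          · simpa using hγ
          · simpa using h5 i
        · intro i
          refine Fin.cases ?_ (fun i => ?_) i
          · simpa using hγ1
          · simpa using h6 i
        · rw [Fin.sum_univ_succ]
          simp only [Fin.cons_zero, Fin.cons_succ]
          omega
        · funext g
          rw [Fin.prod_univ_succ]
          simp only [Fin.cons_zero, Fin.cons_succ]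
      | zero =>
        have : (fun g => γ g * (0 : G → K) g) = 0 := by funext g; simp
        rw [this]
        exact Submodule.zero_mem _
      | add x y _ _ hx hy =>
        have : (fun g => γ g * (x + y) g) = (fun g => γ g * x g) + fun g => γ g * y g := by
          funext g; simp [mul_add]
        rw [this]
        exact Submodule.add_mem _ hx hy
      | smul c x _ hx =>
        have : (fun g => γ g * (c • x) g) = c • fun g => γ g * x g := by
          funext g; simp [mul_left_comm]
        rw [this]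
        exact Submodule.smul_mem _ _ hx
    refine Submodule.mem_sup.2 ⟨_, h3, _, h4, ?_⟩
    funext g
    simp [mul_add]

private theorem prod_mem_V (hV : IsFilt V) (m : ℕ) (d : Fin m → ℕ) (γ : Fin m → G → K)
    (h : ∀ i, γ i ∈ V (d i)) : (fun g => ∏ i, γ i g) ∈ V (∑ i, d i) := by
  induction m with
  | zero => simpa using hV.one
  | succ m ih =>
    have h1 := hV.mul (d 0) (∑ i : Fin m, d i.succ) (γ 0) (fun g => ∏ i : Fin m, γ i.succ g)
      (h 0) (ih (fun i => d i.succ) (fun i => γ i.succ) fun i => h i.succ)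
    rw [Fin.sum_univ_succ]
    have h2 : (fun g => ∏ i, γ i g) = fun g => γ 0 g * ∏ i : Fin m, γ i.succ g := by
      funext g
      rw [Fin.prod_univ_succ]
    rw [h2]
    exact h1

/-- If `a ≠ 0` on `V na` and `a = 0` on `V n` for `n < na`, there are `m` and a product of `m`
functions vanishing at `1` of total degree exactly `na` on which `a` is non-zero, while `a` kills
`W (m+1) na`. Take the largest `m ≤ na` with `a ≠ 0` on `W m na` (`W_eq_bot`), then `W_decomp`;
the degree cannot be smaller than `na` since the product lies in `V (∑ d)`. -/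
theorem exists_symbol (hV : IsFilt V) (a : (G → K) →ₗ[K] K) (na : ℕ)
    (ha : ∀ n < na, ∀ β ∈ V n, a β = 0) (hne : ∃ β ∈ V na, a β ≠ 0) :
    ∃ m, (∀ β ∈ W V (m + 1) na, a β = 0) ∧ ∃ (d : Fin m → ℕ) (γ : Fin m → G → K),
      (∀ i, γ i ∈ V (d i)) ∧ (∀ i, γ i 1 = 0) ∧ ∑ i, d i = na ∧
      a (fun g => ∏ i, γ i g) ≠ 0 := by
  classical
  have hex : ∃ m, ∀ β ∈ W V m na, a β = 0 := by
    refine ⟨na + 1, fun β hβ => ?_⟩
    rw [W_eq_bot hV (na + 1) na (Nat.lt_succ_self na), Submodule.mem_bot] at hβ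
    rw [hβ, map_zero]
  obtain ⟨m', hm'⟩ : ∃ m', m' = Nat.find hex := ⟨_, rfl⟩
  have hs := Nat.find_spec hex
  rw [← hm'] at hs
  cases m' with
  | zero =>
    obtain ⟨β, hβ, h1⟩ := hne
    exact absurd (hs β hβ) h1
  | succ m =>
    have hmin : ¬ ∀ β ∈ W V m na, a β = 0 := Nat.find_min hex (by omega)
    refine ⟨m, hs, ?_⟩
    by_contra hcon
    push Not at hcon
    refine hmin fun β hβ => ?_
    obtain ⟨β1, h1, β2, h2, rfl⟩ := Submodule.mem_sup.1 (W_decomp hV m na hβ)
    rw [map_add, hs β1 h1, zero_add]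
    have h3 : Submodule.span K {β : G → K | ∃ (d : Fin m → ℕ) (γ : Fin m → G → K),
      (∀ i, γ i ∈ V (d i)) ∧ (∀ i, γ i 1 = 0) ∧ ∑ i, d i ≤ na ∧ β = fun g => ∏ i, γ i g} ≤
        LinearMap.ker a := by
      refine Submodule.span_le.2 ?_
      rintro β ⟨d, γ, h4, h5, h6, rfl⟩
      rw [SetLike.mem_coe, LinearMap.mem_ker]
      rcases h6.lt_or_eq with h7 | h7
      · exact ha _ h7 _ (prod_mem_V hV m d γ h4)
      · exact hcon d γ h4 h5 h7
    exact LinearMap.mem_ker.1 (h3 h2)

end Pool.Agent.Helper34.FHS.Dom
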