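import Mathlib

/-!
# DM6: the symmetric product of two non-zero finitely supported functions on multisets is non-zero
-/

namespace Pool.Agent.Helper34.FHS.Dom

/-- `E` is a finite type, `α` is supported on multisets of cardinality `m` (finitely many), `β` on
multisets of cardinality `n`. Then the convolution over `Multiset.antidiagonal` is non-zero
somewhere (characteristic `0`). Proof: choose by `UniqueAdd` / `UniqueSums` (instance for
`E →₀ ℕ`, transported by `Multiset.toFinsupp`; or choose lexicographically maximal elements for the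
ordered monoid `Lex (E →₀ ℕ)`) multisets `s₀`, `t₀` in the supports such that `s + t = s₀ + t₀`
with `s`, `t` in the supports forces `s = s₀`, `t = t₀`. For `u = s₀ + t₀` only the pair
`(s₀, t₀)` contributes, with multiplicity `count (s₀, t₀) (antidiagonal u) > 0`
(`Multiset.mem_antidiagonal`), so the sum is a positive integer times `α s₀ * β t₀ ≠ 0`. -/
theorem exists_antidiagonal_ne {E : Type*} [Finite E] {K : Type*} [Field K] [CharZero K]
    (α β : Multiset E → K) (m n : ℕ) (hα : ∀ s, α s ≠ 0 → Multiset.card s = m)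
    (hβ : ∀ s, β s ≠ 0 → Multiset.card s = n) (ha : ∃ s, α s ≠ 0) (hb : ∃ s, β s ≠ 0) :
    ∃ u : Multiset E, (u.antidiagonal.map fun p => α p.1 * β p.2).sum ≠ 0 := by
  classical
  have hU : UniqueSums (Multiset E) := Multiset.toFinsupp.uniqueSums_iff.mpr inferInstance
  have hfin : ∀ k : ℕ, {s : Multiset E | Multiset.card s = k}.Finite := by
    intro k
    have : Fintype E := Fintype.ofFinite E
    have h0 : Finite (Sym E k) := inferInstance
    have h1 : (Set.range fun x : Sym E k => (x : Multiset E)).Finite := Set.finite_range _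
    refine h1.subset ?_
    intro s hs
    exact ⟨⟨s, hs⟩, rfl⟩
  have hfa : {s | α s ≠ 0}.Finite := (hfin m).subset fun s hs => hα s hs
  have hfb : {s | β s ≠ 0}.Finite := (hfin n).subset fun s hs => hβ s hs
  have hAe : hfa.toFinset.Nonempty := by
    obtain ⟨s, hs⟩ := ha
    exact ⟨s, hfa.mem_toFinset.mpr hs⟩
  have hBe : hfb.toFinset.Nonempty := by
    obtain ⟨s, hs⟩ := hb
    exact ⟨s, hfb.mem_toFinset.mpr hs⟩
  obtain ⟨s₀, hs₀, t₀, ht₀, huniq⟩ := hU.uniqueAdd_of_nonempty hAe hBe
  have hs0 : α s₀ ≠ 0 := hfa.mem_toFinset.mp hs₀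
  have ht0 : β t₀ ≠ 0 := hfb.mem_toFinset.mp ht₀
  refine ⟨s₀ + t₀, ?_⟩
  have key : ∀ p ∈ (s₀ + t₀).antidiagonal, p ≠ (s₀, t₀) → α p.1 * β p.2 = 0 := by
    intro p hp hne
    by_contra hcon
    have h1 : α p.1 ≠ 0 := left_ne_zero_of_mul hcon
    have h2 : β p.2 ≠ 0 := right_ne_zero_of_mul hcon
    have h3 := huniq (hfa.mem_toFinset.mpr h1) (hfb.mem_toFinset.mpr h2)
      (Multiset.mem_antidiagonal.mp hp)
    exact hne (Prod.ext h3.1 h3.2)
  have hsum : ((s₀ + t₀).antidiagonal.map fun p => α p.1 * β p.2).sum =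
      (((s₀ + t₀).antidiagonal.count (s₀, t₀) : ℕ) : K) * (α s₀ * β t₀) := by
    rw [Finset.sum_multiset_map_count]
    rw [Finset.sum_eq_single (s₀, t₀)]
    · rw [nsmul_eq_mul]
    · intro p hp hne
      rw [key p (Multiset.mem_toFinset.mp hp) hne, smul_zero]
    · intro h
      have h4 : (s₀, t₀) ∉ (s₀ + t₀).antidiagonal := fun h5 => h (Multiset.mem_toFinset.mpr h5)
      rw [Multiset.count_eq_zero_of_notMem h4, zero_smul]
  rw [hsum]
  have hmem : (s₀, t₀) ∈ (s₀ + t₀).antidiagonal := Multiset.mem_antidiagonal.mpr rfl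
  have hpos : (s₀ + t₀).antidiagonal.count (s₀, t₀) ≠ 0 := (Multiset.count_pos.mpr hmem).ne'
  exact mul_ne_zero (Nat.cast_ne_zero.mpr hpos) (mul_ne_zero hs0 ht0)

end Pool.Agent.Helper34.FHS.Dom
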