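import Mathlib
import Pool.Agent.Helper34.FHS.DomDefs
import Pool.Agent.Helper34.FHS.St.DM4
import Pool.Agent.Helper34.FHS.St.DM5
import Pool.Agent.Helper34.FHS.St.DM6

/-!
# DM7: the domain theorem for filtered function algebras
-/

namespace Pool.Agent.Helper34.FHS.Dom

variable {G : Type*} [Monoid G] {K : Type*} [Field K] {V : ℕ → Submodule K (G → K)}

/-- Let `na ≤ m`, `nb ≤ n` be the least indices with `a ≠ 0` on `V na`, `b ≠ 0` on `V nb`, and
take `ma, d, γ` and `mb, d', γ'` from `exists_symbol`. Put `E = Fin ma ⊕ Fin mb`, with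
`Sum.elim γ γ'` and `Sum.elim d d'`, and
`α s = if card s = ma ∧ (s.map d).sum = na then a (∏_{e ∈ s} γ e) else 0`, `β` in the same way.
They are non-zero at the multisets of all `Sum.inl i`, all `Sum.inr i`. DM6 gives `u` with
`∑_{antidiagonal u} α β ≠ 0`; then some pair contributes, so `card u = ma + mb`,
`(u.map d).sum = na + nb`. In `conv_prod` for this `u` the pairs with
`card p.1 ≠ ma` or `(p.1.map d).sum ≠ na` contribute `0` (if the degree of `p.1` is `< na` then
`a = 0` on it, if it is `> na` then the degree of `p.2` is `< nb`; for degree `na`, if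
`card p.1 > ma` then `a` kills it by `prod_mem_W` and `W_anti`, if `card p.1 < ma` then
`card p.2 > mb`). So the value of `conv_prod` is `∑ α β ≠ 0` and the function
`∏_{e ∈ u} γ e` is in `V (na + nb) ≤ V (m + n)`. -/
theorem dom [CharZero K] (hV : IsFilt V) (a b : (G → K) →ₗ[K] K) (m n : ℕ)
    (ha : ∃ β ∈ V m, a β ≠ 0) (hb : ∃ β ∈ V n, b β ≠ 0) :
    ∃ β ∈ V (m + n), a (fun g => b fun h => β (g * h)) ≠ 0 := by
  classical
  have hexa : ∃ na, ∃ β ∈ V na, a β ≠ 0 := ⟨m, ha⟩
  have hexb : ∃ nb, ∃ β ∈ V nb, b β ≠ 0 := ⟨n, hb⟩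
  obtain ⟨na, hna, hna_le, hna_min⟩ : ∃ na, (∃ β ∈ V na, a β ≠ 0) ∧ na ≤ m ∧
      ∀ k < na, ∀ β ∈ V k, a β = 0 := by
    refine ⟨Nat.find hexa, Nat.find_spec hexa, Nat.find_min' hexa ha, fun k hk β hβ => ?_⟩
    by_contra h
    exact Nat.find_min hexa hk ⟨β, hβ, h⟩
  obtain ⟨nb, hnb, hnb_le, hnb_min⟩ : ∃ nb, (∃ β ∈ V nb, b β ≠ 0) ∧ nb ≤ n ∧
      ∀ k < nb, ∀ β ∈ V k, b β = 0 := by
    refine ⟨Nat.find hexb, Nat.find_spec hexb, Nat.find_min' hexb hb, fun k hk β hβ => ?_⟩
    by_contra h
    exact Nat.find_min hexb hk ⟨β, hβ, h⟩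
  obtain ⟨ma, hWa, da, γa, hγa, hγa1, hda, hane⟩ := exists_symbol hV a na hna_min hna
  obtain ⟨mb, hWb, db, γb, hγb, hγb1, hdb, hbne⟩ := exists_symbol hV b nb hnb_min hnb
  set γ : Fin ma ⊕ Fin mb → G → K := Sum.elim γa γb with hγdef
  set d : Fin ma ⊕ Fin mb → ℕ := Sum.elim da db with hddef
  have hγ : ∀ e, γ e ∈ V (d e) := by
    rintro (e | e)
    · exact hγa e
    · exact hγb e
  have h1 : ∀ e, γ e 1 = 0 := by
    rintro (e | e)
    · exact hγa1 e
    · exact hγb1 e
  let A : Multiset (Fin ma ⊕ Fin mb) → K := fun s => a (fun g => (s.map fun e => γ e g).prod)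
  let B : Multiset (Fin ma ⊕ Fin mb) → K := fun s => b (fun g => (s.map fun e => γ e g).prod)
  let α : Multiset (Fin ma ⊕ Fin mb) → K := fun s =>
    if Multiset.card s = ma ∧ (s.map d).sum = na then A s else 0
  let β : Multiset (Fin ma ⊕ Fin mb) → K := fun s =>
    if Multiset.card s = mb ∧ (s.map d).sum = nb then B s else 0
  have hα : ∀ s, α s ≠ 0 → Multiset.card s = ma ∧ (s.map d).sum = na := by
    intro s hs
    by_contra h
    exact hs (if_neg h)
  have hβ : ∀ s, β s ≠ 0 → Multiset.card s = mb ∧ (s.map d).sum = nb := by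
    intro s hs
    by_contra h
    exact hs (if_neg h)
  have hae : ∃ s, α s ≠ 0 := by
    refine ⟨(Finset.univ : Finset (Fin ma)).val.map Sum.inl, ?_⟩
    have hc : Multiset.card ((Finset.univ : Finset (Fin ma)).val.map
        (Sum.inl : Fin ma → Fin ma ⊕ Fin mb)) = ma := by
      rw [Multiset.card_map, Finset.card_val, Finset.card_univ, Fintype.card_fin]
    have hs : (((Finset.univ : Finset (Fin ma)).val.map
        (Sum.inl : Fin ma → Fin ma ⊕ Fin mb)).map d).sum = na := by
      rw [Multiset.map_map]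
      exact hda
    have hp : (fun g => ((((Finset.univ : Finset (Fin ma)).val.map
        (Sum.inl : Fin ma → Fin ma ⊕ Fin mb)).map fun e => γ e g).prod)) =
        fun g => ∏ i, γa i g := by
      funext g
      rw [Multiset.map_map]
      rfl
    show (if _ then _ else _) ≠ (0 : K)
    rw [if_pos ⟨hc, hs⟩]
    show a _ ≠ 0
    rw [hp]
    exact hane
  have hbe : ∃ s, β s ≠ 0 := by
    refine ⟨(Finset.univ : Finset (Fin mb)).val.map Sum.inr, ?_⟩
    have hc : Multiset.card ((Finset.univ : Finset (Fin mb)).val.map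
        (Sum.inr : Fin mb → Fin ma ⊕ Fin mb)) = mb := by
      rw [Multiset.card_map, Finset.card_val, Finset.card_univ, Fintype.card_fin]
    have hs : (((Finset.univ : Finset (Fin mb)).val.map
        (Sum.inr : Fin mb → Fin ma ⊕ Fin mb)).map d).sum = nb := by
      rw [Multiset.map_map]
      exact hdb
    have hp : (fun g => ((((Finset.univ : Finset (Fin mb)).val.map
        (Sum.inr : Fin mb → Fin ma ⊕ Fin mb)).map fun e => γ e g).prod)) =
        fun g => ∏ i, γb i g := by
      funext g
      rw [Multiset.map_map]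
      rfl
    show (if _ then _ else _) ≠ (0 : K)
    rw [if_pos ⟨hc, hs⟩]
    show b _ ≠ 0
    rw [hp]
    exact hbne
  obtain ⟨u, hu⟩ := exists_antidiagonal_ne α β ma mb (fun s hs => (hα s hs).1)
    (fun s hs => (hβ s hs).1) hae hbe
  obtain ⟨p, hp, hpne⟩ : ∃ p ∈ u.antidiagonal, α p.1 * β p.2 ≠ 0 := by
    by_contra hcon
    push Not at hcon
    apply hu
    rw [Multiset.map_congr rfl hcon]
    simp
  have hp1 := hα p.1 (left_ne_zero_of_mul hpne)
  have hp2 := hβ p.2 (right_ne_zero_of_mul hpne)
  have hpu : p.1 + p.2 = u := Multiset.mem_antidiagonal.1 hp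
  have hcu : Multiset.card u = ma + mb := by
    rw [← hpu, Multiset.card_add, hp1.1, hp2.1]
  have hdu : (u.map d).sum = na + nb := by
    rw [← hpu, Multiset.map_add, Multiset.sum_add, hp1.2, hp2.2]
  have hconv := conv_prod γ d hV hγ h1 a b na nb ma mb hna_min hnb_min hWa hWb u hcu hdu.le
  refine ⟨fun g => (u.map fun e => γ e g).prod, ?_, ?_⟩
  · have h2 := prod_mem_W γ d hV hγ h1 u
    have h3 : (fun g => (u.map fun e => γ e g).prod) ∈ W V 0 (u.map d).sum :=
      W_anti hV (Nat.zero_le _) _ h2
    have h4 : (fun g => (u.map fun e => γ e g).prod) ∈ V (u.map d).sum := h3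
    refine hV.mono ?_ h4
    rw [hdu]
    exact Nat.add_le_add hna_le hnb_le
  · rw [hconv]
    have key : ∀ q ∈ u.antidiagonal, (a (fun g => (q.1.map fun e => γ e g).prod) *
        b (fun g => (q.2.map fun e => γ e g).prod)) = α q.1 * β q.2 := by
      intro q hq
      have hqu : q.1 + q.2 = u := Multiset.mem_antidiagonal.1 hq
      have hcq : Multiset.card q.1 + Multiset.card q.2 = ma + mb := by
        rw [← Multiset.card_add, hqu, hcu]
      have hdq : (q.1.map d).sum + (q.2.map d).sum = na + nb := by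
        rw [← Multiset.sum_add, ← Multiset.map_add, hqu, hdu]
      have hW1 := prod_mem_W γ d hV hγ h1 q.1
      have hW2 := prod_mem_W γ d hV hγ h1 q.2
      have hA0 : (¬ (Multiset.card q.1 = ma ∧ (q.1.map d).sum = na)) → α q.1 = 0 :=
        fun h => if_neg h
      have hB0 : (¬ (Multiset.card q.2 = mb ∧ (q.2.map d).sum = nb)) → β q.2 = 0 :=
        fun h => if_neg h
      rcases lt_trichotomy (q.1.map d).sum na with hlt | heq | hgt
      · have hz : a (fun g => (q.1.map fun e => γ e g).prod) = 0 := by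
          apply hna_min _ hlt
          exact W_anti hV (Nat.zero_le _) _ hW1
        rw [hz, hA0 (by omega), zero_mul, zero_mul]
      · have heq2 : (q.2.map d).sum = nb := by omega
        rcases lt_trichotomy (Multiset.card q.1) ma with hclt | hceq | hcgt
        · have hz : b (fun g => (q.2.map fun e => γ e g).prod) = 0 := by
            apply hWb
            have : mb + 1 ≤ Multiset.card q.2 := by omega
            have h5 := W_anti hV this _ hW2
            rw [heq2] at h5
            exact h5
          rw [hz, hA0 (by omega), mul_zero, zero_mul]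
        · have hceq2 : Multiset.card q.2 = mb := by omega
          have e1 : α q.1 = a (fun g => (q.1.map fun e => γ e g).prod) := if_pos ⟨hceq, heq⟩
          have e2 : β q.2 = b (fun g => (q.2.map fun e => γ e g).prod) := if_pos ⟨hceq2, heq2⟩
          rw [e1, e2]
        · have hz : a (fun g => (q.1.map fun e => γ e g).prod) = 0 := by
            apply hWa
            have h5 := W_anti hV (show ma + 1 ≤ Multiset.card q.1 by omega) _ hW1
            rw [heq] at h5
            exact h5
          rw [hz, hA0 (by omega), zero_mul, zero_mul]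
      · have hz : b (fun g => (q.2.map fun e => γ e g).prod) = 0 := by
          apply hnb_min (q.2.map d).sum (by omega)
          exact W_anti hV (Nat.zero_le _) _ hW2
        rw [hz, hB0 (by omega), mul_zero, mul_zero]
    rw [Multiset.map_congr rfl key]
    exact hu

end Pool.Agent.Helper34.FHS.Dom
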