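import Mathlib
import Pool.Agent.Helper34.FHS.Top

/-!
# IB1: the ideal `Icl f`
-/

namespace Pool.Agent.Helper34.FHS

open Finsupp

universe u v

variable {X : Type u} {K : Type v} [CommRing K] {f : NS X K}

private theorem pr_word_mul_mul {u : CC X K} (hu : u ∈ Bsub f) (α : List X) (b : NS X K) :
    pr (NS.word α * f * b) u = 0 := by
  rw [← pr_pfx]
  have h : pfx (NS.word α * f) u = 0 := by
    ext β
    rw [← pr_word, pr_pfx, Finsupp.zero_apply]
    exact hu α β
  rw [h, map_zero]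

/-- For fixed `b`, `a ↦ pr (a * f * b) u = pr a (sfx (f * b) u)` is determined by the values
`pr (word α * f * b) u = (sfx (f * b) u) α` (`pr_word`); so it is enough to treat `a = word α`.
For `a = word α` use `pfx (word α * f)` in the same way. -/
theorem pr_mul_mul_eq_zero {u : CC X K} (hu : u ∈ Bsub f) (a b : NS X K) :
    pr (a * f * b) u = 0 := by
  rw [mul_assoc, ← pr_sfx]
  have h : sfx (f * b) u = 0 := by
    ext α
    rw [← pr_word, pr_sfx, ← mul_assoc, Finsupp.zero_apply]
    exact pr_word_mul_mul hu α b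
  rw [h, map_zero]

theorem sfx_mem_Bsub {u : CC X K} (hu : u ∈ Bsub f) (b : NS X K) : sfx b u ∈ Bsub f := by
  intro α β
  rw [pr_sfx, mul_assoc]
  exact pr_mul_mul_eq_zero hu _ _

theorem pfx_mem_Bsub {u : CC X K} (hu : u ∈ Bsub f) (a : NS X K) : pfx a u ∈ Bsub f := by
  intro α β
  rw [pr_pfx, ← mul_assoc, ← mul_assoc]
  exact pr_mul_mul_eq_zero hu _ _

theorem self_mem_Icl : f ∈ Icl f := by
  intro u hu
  have h := pr_mul_mul_eq_zero hu 1 1
  rwa [one_mul, mul_one] at h

theorem Icl_mul_left {a : NS X K} (ha : a ∈ Icl f) (b : NS X K) : b * a ∈ Icl f := by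
  intro u hu
  rw [← pr_pfx]
  exact ha _ (pfx_mem_Bsub hu b)

theorem Icl_mul_right {a : NS X K} (ha : a ∈ Icl f) (b : NS X K) : a * b ∈ Icl f := by
  intro u hu
  rw [← pr_sfx]
  exact ha _ (sfx_mem_Bsub hu b)

/-- `pr (word α * f * word β) (single [] 1) = (word α * f * word β) [] = 0`. -/
theorem single_nil_mem_Bsub (hf : f [] = 0) : (single [] 1 : CC X K) ∈ Bsub f := by
  intro α β
  rw [pr_single, NS.mul_nil, NS.mul_nil, hf, mul_zero, zero_mul, mul_zero]

theorem Icl_nil (hf : f [] = 0) {a : NS X K} (ha : a ∈ Icl f) : a [] = 0 := by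
  have h := ha _ (single_nil_mem_Bsub hf)
  rwa [pr_single, one_mul] at h

end Pool.Agent.Helper34.FHS
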