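import Mathlib
import Pool.Agent.Helper34.FHS.Top
import Pool.Agent.Helper34.FHS.St.IB1

/-!
# IB3: invariance under the relator, in terms of the Magnus homomorphism
-/

namespace Pool.Agent.Helper34.FHS

open Finsupp

universe u v w

variable {X : Type u} {K : Type v} {F : Type w} [CommRing K] [TopologicalSpace K]
  [IsTopologicalRing K] [T2Space K] [Group F] [TopologicalSpace F] [IsTopologicalGroup F]
  {ι : X → F} {M : F →* NS X K}

/-- Induction on the word: `word (z :: α) = word α * letter z`, `letter z = M (ι z) - 1`, and the
span of the range of `M` is closed under multiplication and contains `1`. -/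
theorem word_mem_span (hM : IsMagnus ι M) (α : List X) :
    (NS.word α : NS X K) ∈ Submodule.span K (Set.range M) := by
  have hmul : ∀ a b : NS X K, a ∈ Submodule.span K (Set.range M) →
      b ∈ Submodule.span K (Set.range M) → a * b ∈ Submodule.span K (Set.range M) := by
    intro a b ha hb
    induction ha using Submodule.span_induction with
    | mem x hx =>
      obtain ⟨g, rfl⟩ := hx
      induction hb using Submodule.span_induction with
      | mem y hy =>
        obtain ⟨h, rfl⟩ := hy
        rw [← map_mul]
        exact Submodule.subset_span ⟨g * h, rfl⟩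
      | zero => rw [mul_zero]; exact Submodule.zero_mem _
      | add y z _ _ hy hz => rw [mul_add]; exact Submodule.add_mem _ hy hz
      | smul c y _ hy =>
        have hc : M g * (c • y) = c • (M g * y) := NS.mul_smul' c _ _
        rw [hc]; exact Submodule.smul_mem _ c hy
    | zero => rw [zero_mul]; exact Submodule.zero_mem _
    | add y z _ _ hy hz => rw [add_mul]; exact Submodule.add_mem _ hy hz
    | smul c y _ hy =>
      have hc : (c • y) * b = c • (y * b) := NS.smul_mul' c _ _
      rw [hc]; exact Submodule.smul_mem _ c hy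
  have hone : (1 : NS X K) ∈ Submodule.span K (Set.range M) :=
    Submodule.subset_span ⟨1, map_one M⟩
  induction α with
  | nil => rw [NS.word_nil]; exact hone
  | cons z α ih =>
    rw [NS.word_cons]
    refine hmul _ _ ih ?_
    have hz : (NS.letter z : NS X K) = M (ι z) - 1 := by
      rw [hM.gen z]; abel
    rw [hz]
    exact Submodule.sub_mem _ (Submodule.subset_span ⟨ι z, rfl⟩) hone

/-- `u α = pr (word α) u` (`pr_word`) and `word_mem_span`. -/
theorem eq_zero_of_pr_M (hM : IsMagnus ι M) {u : CC X K} (h : ∀ g, pr (M g) u = 0) : u = 0 := by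
  have key : ∀ a : NS X K, a ∈ Submodule.span K (Set.range M) → pr a u = 0 := by
    intro a ha
    induction ha using Submodule.span_induction with
    | mem x hx => obtain ⟨g, rfl⟩ := hx; exact h g
    | zero => exact pr_zero u
    | add y z _ _ hy hz => rw [pr_add, hy, hz, add_zero]
    | smul c y _ hy => rw [pr_smul, hy, mul_zero]
  ext w
  rw [← pr_word, key _ (word_mem_span hM w)]
  rfl

/-- (→) by `pr_mul_mul_eq_zero` for `a = M g`, `b = M h`. (←) `pr (a * (M r - 1) * b) u` is linear
in `a` and in `b` and vanishes for `a = M g`, `b = M h`, hence for words by `word_mem_span`. -/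
theorem mem_Bsub_iff (hM : IsMagnus ι M) (r : F) (u : CC X K) :
    u ∈ Bsub (M r - 1) ↔ ∀ g h, pr (M (g * r * h)) u = pr (M (g * h)) u := by
  have hexp : ∀ g h : F, M g * (M r - 1) * M h = M (g * r * h) - M (g * h) := by
    intro g h
    rw [mul_sub, mul_one, sub_mul, ← map_mul, ← map_mul, ← map_mul]
  constructor
  · intro hu g h
    have h1 := pr_mul_mul_eq_zero hu (M g) (M h)
    rw [hexp, pr_sub] at h1
    exact sub_eq_zero.1 h1
  · intro hu
    rw [mem_Bsub]
    have key : ∀ a : NS X K, a ∈ Submodule.span K (Set.range M) → ∀ b : NS X K,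
        b ∈ Submodule.span K (Set.range M) → pr (a * (M r - 1) * b) u = 0 := by
      intro a ha b hb
      induction ha using Submodule.span_induction with
      | mem x hx =>
        obtain ⟨g, rfl⟩ := hx
        induction hb using Submodule.span_induction with
        | mem y hy =>
          obtain ⟨h, rfl⟩ := hy
          rw [hexp, pr_sub, hu g h, sub_self]
        | zero => rw [mul_zero, pr_zero]
        | add y z _ _ hy hz => rw [mul_add, pr_add, hy, hz, add_zero]
        | smul c y _ hy =>
          have hc : M g * (M r - 1) * (c • y) = c • (M g * (M r - 1) * y) :=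
            NS.mul_smul' c _ _
          rw [hc, pr_smul, hy, mul_zero]
      | zero => rw [zero_mul, zero_mul, pr_zero]
      | add y z _ _ hy hz => rw [add_mul, add_mul, pr_add, hy, hz, add_zero]
      | smul c y _ hy =>
        have hc : (c • y) * (M r - 1) * b = c • (y * (M r - 1) * b) := by
          have h1 : (c • y) * (M r - 1) = c • (y * (M r - 1)) := NS.smul_mul' c _ _
          rw [h1]
          exact NS.smul_mul' c _ _
        rw [hc, pr_smul, hy, mul_zero]
    intro α β
    exact key _ (word_mem_span hM α) _ (word_mem_span hM β)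

/-- The set of `g` with `M g - 1 ∈ Icl (M r - 1)` is a closed (`NS.continuous_pr`) normal subgroup
containing `r`: `M (g h) - 1 = (M g - 1) * M h + (M h - 1)`, `M g⁻¹ - 1 = -(M g - 1) * M g⁻¹`,
`M (h g h⁻¹) - 1 = M h * (M g - 1) * M h⁻¹`. -/
theorem sub_one_mem_Icl (hM : IsMagnus ι M) {r g : F}
    (hg : g ∈ (Subgroup.normalClosure {r}).topologicalClosure) : M g - 1 ∈ Icl (M r - 1) := by
  have hclosed : IsClosed {x : F | M x - 1 ∈ Icl (M r - 1)} := by
    have heq : {x : F | M x - 1 ∈ Icl (M r - 1)} =
        ⋂ u ∈ Bsub (M r - 1), {x : F | pr (M x - 1) u = 0} := by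
      ext x
      simp only [Set.mem_setOf_eq, Set.mem_iInter, mem_Icl]
    rw [heq]
    refine isClosed_biInter fun u _ => ?_
    refine isClosed_eq ?_ continuous_const
    simp only [pr_sub]
    exact ((NS.continuous_pr u).comp hM.cont).sub continuous_const
  have hsub : ∀ x ∈ Subgroup.normalClosure {r}, M x - 1 ∈ Icl (M r - 1) := by
    intro x hx
    rw [Subgroup.normalClosure] at hx
    induction hx using Subgroup.closure_induction with
    | mem y hy =>
      rw [Group.mem_conjugatesOfSet_iff] at hy
      obtain ⟨a, ha, hay⟩ := hy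
      rw [Set.mem_singleton_iff] at ha
      subst ha
      obtain ⟨c, hc⟩ := isConj_iff.1 hay
      have h1 : M y - 1 = M c * (M a - 1) * M c⁻¹ := by
        have h2 : (1 : NS X K) = M c * M c⁻¹ := by
          rw [← map_mul, mul_inv_cancel, map_one]
        rw [← hc, mul_sub, sub_mul, mul_one, ← h2, map_mul, map_mul]
      rw [h1]
      exact Icl_mul_right (Icl_mul_left self_mem_Icl _) _
    | one => rw [map_one, sub_self]; exact Submodule.zero_mem _
    | mul y z _ _ hy hz =>
      have h1 : M (y * z) - 1 = (M y - 1) * M z + (M z - 1) := by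
        rw [map_mul, sub_mul, one_mul]; abel
      rw [h1]
      exact Submodule.add_mem _ (Icl_mul_right hy _) hz
    | inv y _ hy =>
      have h1 : M y⁻¹ - 1 = -((M y - 1) * M y⁻¹) := by
        rw [sub_mul, one_mul, ← map_mul, mul_inv_cancel, map_one]; abel
      rw [h1]
      exact Submodule.neg_mem _ (Icl_mul_right hy _)
  have hg' : g ∈ closure ((Subgroup.normalClosure {r} : Subgroup F) : Set F) := by
    rw [← Subgroup.topologicalClosure_coe]
    exact hg
  exact closure_minimal (fun x hx => hsub x hx) hclosed hg'

/-- The two continuous homomorphisms `g ↦ M (π g)` and `g ↦ kill x (M g)` agree on `ι X`, which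
generates a dense subgroup. (`fun g => kill x (M g)` is continuous coefficientwise.) -/
theorem M_map_eq_kill (hM : IsMagnus ι M) {x : X} {π : F →* F} (hπ : Continuous π)
    (hx : π (ι x) = 1) (hy : ∀ y, y ≠ x → π (ι y) = ι y) (g : F) :
    M (π g) = NS.kill x (M g) := by
  have hc1 : Continuous fun g => M (π g) := hM.cont.comp hπ
  have hc2 : Continuous fun g => NS.kill x (M g) := by
    rw [NS.continuous_iff]
    intro w
    by_cases hw : x ∈ w
    · simp only [NS.kill_of_mem hw]
      exact continuous_const
    · simp only [NS.kill_of_notMem hw]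
      exact (NS.continuous_apply w).comp hM.cont
  have hagree : ∀ g ∈ Subgroup.closure (Set.range ι), M (π g) = NS.kill x (M g) := by
    intro g hg
    induction hg using Subgroup.closure_induction with
    | mem y hy' =>
      obtain ⟨z, rfl⟩ := hy'
      by_cases hz : z = x
      · subst hz
        rw [hx, map_one, hM.gen, map_add, map_one, NS.kill_letter_self, add_zero]
      · rw [hy z hz, hM.gen, map_add, map_one, NS.kill_letter_ne (Ne.symm hz)]
    | one => rw [map_one, map_one, map_one]
    | mul y z _ _ h1 h2 => rw [map_mul, map_mul, map_mul, map_mul, h1, h2]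
    | inv y _ h1 =>
      have e1 : M (π y⁻¹) * M (π y) = 1 := by
        rw [← map_mul, ← map_mul, inv_mul_cancel, map_one, map_one]
      have e2 : NS.kill x (M y⁻¹) * M (π y) = 1 := by
        rw [h1, ← map_mul, ← map_mul, inv_mul_cancel, map_one, map_one]
      have e3 : M (π y) * M (π y⁻¹) = 1 := by
        rw [← map_mul, ← map_mul, mul_inv_cancel, map_one, map_one]
      calc M (π y⁻¹) = (NS.kill x (M y⁻¹) * M (π y)) * M (π y⁻¹) := by rw [e2, one_mul]
        _ = NS.kill x (M y⁻¹) := by rw [mul_assoc, e3, mul_one]
  have := Continuous.ext_on hM.dense hc1 hc2 (fun g hg => hagree g hg)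
  exact congrFun this g

/-- For `s` in the closed subgroup generated by `ι y`, `y ≠ x`, `π s = s`, so `M s = kill x (M s)`
is supported on words without the letter `x`. -/
theorem M_apply_eq_zero (hM : IsMagnus ι M) {x : X} {π : F →* F} (hπ : Continuous π)
    (hx : π (ι x) = 1) (hy : ∀ y, y ≠ x → π (ι y) = ι y) [T2Space F] {s : F}
    (hs : s ∈ (Subgroup.closure (ι '' {y | y ≠ x})).topologicalClosure) {w : List X}
    (hw : x ∈ w) : M s w = 0 := by
  have hfix : ∀ g ∈ Subgroup.closure (ι '' {y | y ≠ x}), π g = g := by
    intro g hg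
    induction hg using Subgroup.closure_induction with
    | mem y hy' =>
      obtain ⟨z, hz, rfl⟩ := hy'
      exact hy z hz
    | one => exact map_one π
    | mul y z _ _ h1 h2 => rw [map_mul, h1, h2]
    | inv y _ h1 => rw [map_inv, h1]
  have hclosed : IsClosed {g : F | π g = g} := isClosed_eq hπ continuous_id
  have hs' : s ∈ closure ((Subgroup.closure (ι '' {y | y ≠ x}) : Subgroup F) : Set F) := by
    rw [← Subgroup.topologicalClosure_coe]
    exact hs
  have hπs : π s = s := closure_minimal (fun g hg => hfix g hg) hclosed hs'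
  have h1 := M_map_eq_kill hM hπ hx hy s
  rw [hπs] at h1
  rw [h1]
  exact NS.kill_of_mem hw _

end Pool.Agent.Helper34.FHS
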