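import Mathlib
import Pool.Agent.Helper34.FHS.Top

/-!
# IB4: products of Magnus coefficients are Magnus coefficients
-/

namespace Pool.Agent.Helper34.FHS

open Finsupp

universe u v w

variable {X : Type u} {K : Type v} {F : Type w} [CommRing K] [TopologicalSpace K]
  [IsTopologicalRing K] [T2Space K] [Group F] [TopologicalSpace F] [IsTopologicalGroup F]
  {ι : X → F} {M : F →* NS X K}

/-- A continuous function `δ : F → K` with `δ (g * ι z) = δ g` for all `g`, `z` is constant: the set
of `h` with `δ (g * h) = δ g` for all `g` is a closed subgroup containing `ι X`. -/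
theorem const_of_invariant (hM : IsMagnus ι M) (δ : F → K) (hδ : Continuous δ)
    (h : ∀ g z, δ (g * ι z) = δ g) (g : F) : δ g = δ 1 := by
  let H : Subgroup F :=
    { carrier := {x | ∀ g, δ (g * x) = δ g}
      mul_mem' := by
        intro a b ha hb g
        rw [← mul_assoc, hb, ha]
      one_mem' := by
        intro g
        rw [mul_one]
      inv_mem' := by
        intro a ha g
        have := ha (g * a⁻¹)
        rw [inv_mul_cancel_right] at this
        exact this.symm }
  have h1 : Subgroup.closure (Set.range ι) ≤ H := by
    rw [Subgroup.closure_le]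
    rintro _ ⟨z, rfl⟩ g
    exact h g z
  have h2 : IsClosed (H : Set F) := by
    have h3 : (H : Set F) = ⋂ g, {x | δ (g * x) = δ g} := by
      ext x
      simp only [Set.mem_iInter, Set.mem_ofPred_eq]
      rfl
    rw [h3]
    exact isClosed_iInter fun g =>
      isClosed_eq (hδ.comp (continuous_const.mul continuous_id)) continuous_const
  have h4 : closure (Subgroup.closure (Set.range ι) : Set F) ⊆ H := closure_minimal h1 h2
  rw [hM.dense.closure_eq] at h4
  have h5 : ∀ g', δ (g' * g) = δ g' := h4 (Set.mem_univ g)
  have h6 := h5 1
  rwa [one_mul] at h6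

omit [IsTopologicalRing K] [T2Space K] [IsTopologicalGroup F] in
private theorem M_mul_gen (hM : IsMagnus ι M) (g : F) (z : X) :
    M (g * ι z) = M g + M g * NS.letter z := by
  rw [map_mul, hM.gen, mul_add, mul_one]

/-- `M (g * ι z) = M g + M g * letter z`, so `pr (M (g * ι z)) (consL z' u)` is
`pr (M g) (consL z' u) + (if z = z' then pr (M g) u else 0)` (`pr_consL`, `dl_mul_letter_self`). -/
theorem pr_M_mul_consL_self (hM : IsMagnus ι M) (g : F) (z : X) (u : CC X K) :
    pr (M (g * ι z)) (consL z u) = pr (M g) (consL z u) + pr (M g) u := by
  rw [M_mul_gen hM, pr_consL, NS.dl_add, NS.dl_mul_letter_self, pr_add, pr_consL]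

theorem pr_M_mul_consL_ne (hM : IsMagnus ι M) (g : F) {z z' : X} (h : z ≠ z') (u : CC X K) :
    pr (M (g * ι z)) (consL z' u) = pr (M g) (consL z' u) := by
  rw [M_mul_gen hM, pr_consL, NS.dl_add, NS.dl_mul_letter_ne _ h.symm, add_zero, pr_consL]

private theorem consL_mem_Cle {K : Type v} [CommRing K] {n : ℕ} {u : CC X K} (hu : u ∈ Cle X K n)
    (z : X) : consL z u ∈ Cle X K (n + 1) := by
  rw [mem_Cle] at hu ⊢
  intro w hw
  rw [← pr_word, pr_consL]
  cases w with
  | nil => simp at hw
  | cons z' w =>
    by_cases h : z = z'
    · subst h
      rw [NS.dl_word_cons_self, pr_word]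
      apply hu
      simpa using hw
    · rw [NS.dl_word_cons_ne h, pr_zero]

omit [TopologicalSpace K] [IsTopologicalRing K] [T2Space K] in
private theorem pr_one_consL (z : X) (u : CC X K) : pr (1 : NS X K) (consL z u) = 0 := by
  rw [pr_consL, NS.dl_one, pr_zero]

private theorem single_mem_Cle {K : Type v} [CommRing K] (α : List X) (c : K) {n : ℕ}
    (h : α.length ≤ n) : (single α c : CC X K) ∈ Cle X K n :=
  Finsupp.single_mem_supported K c h

/-- Strong induction on `α.length + β.length`. If `α = []` take `single β 1` (`M g [] = 1`), if
`β = []` take `single α 1`. For `x :: α'`, `y :: β'` let `w₁, w₂, w₃` be the elements for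
`(α', y :: β')`, `(x :: α', β')`, `(α', β')` and take
`w = consL x w₁ + consL y w₂ + (if x = y then consL x w₃ else 0)`.
Both `g ↦ M g (x :: α') * M g (y :: β')` and `g ↦ pr (M g) w` are continuous, vanish at `1`
(`M 1 = 1`), and have the same increments under `g ↦ g * ι z` (the two lemmas above with
`u = single α' 1`, ...); apply `const_of_invariant` to the difference. -/
theorem exists_mul_word (hM : IsMagnus ι M) (α β : List X) :
    ∃ w ∈ Cle X K (α.length + β.length), ∀ g, pr (M g) w = M g α * M g β := by
  classical
  induction α generalizing β with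
  | nil =>
    refine ⟨single β 1, single_mem_Cle _ _ (by simp), fun g => ?_⟩
    rw [pr_single, hM.nil]
  | cons x α iha =>
    induction β with
    | nil =>
      refine ⟨single (x :: α) 1, single_mem_Cle _ _ (by simp), fun g => ?_⟩
      rw [pr_single, hM.nil, mul_comm]
    | cons y β ihb =>
      obtain ⟨w₁, hw₁, h₁⟩ := iha (y :: β)
      obtain ⟨w₂, hw₂, h₂⟩ := ihb
      obtain ⟨w₃, hw₃, h₃⟩ := iha β
      have hx : ∀ g z, M (g * ι z) (x :: α) = M g (x :: α) + if z = x then M g α else 0 := by
        intro g z
        have e1 := pr_single (M (g * ι z)) (x :: α) 1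
        have e2 := pr_single (M g) (x :: α) 1
        rw [one_mul, ← consL_single] at e1 e2
        rw [← e1, ← e2]
        by_cases h : z = x
        · subst h
          rw [if_pos rfl, pr_M_mul_consL_self hM, pr_single (M g) α, one_mul]
        · rw [if_neg h, pr_M_mul_consL_ne hM g h, add_zero]
      have hy : ∀ g z, M (g * ι z) (y :: β) = M g (y :: β) + if z = y then M g β else 0 := by
        intro g z
        have e1 := pr_single (M (g * ι z)) (y :: β) 1
        have e2 := pr_single (M g) (y :: β) 1
        rw [one_mul, ← consL_single] at e1 e2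
        rw [← e1, ← e2]
        by_cases h : z = y
        · subst h
          rw [if_pos rfl, pr_M_mul_consL_self hM, pr_single (M g) β, one_mul]
        · rw [if_neg h, pr_M_mul_consL_ne hM g h, add_zero]
      have hc : ∀ (z' : X) (u : CC X K) g z, pr (M (g * ι z)) (consL z' u) =
          pr (M g) (consL z' u) + if z = z' then pr (M g) u else 0 := by
        intro z' u g z
        by_cases h : z = z'
        · subst h
          rw [if_pos rfl, pr_M_mul_consL_self hM]
        · rw [if_neg h, pr_M_mul_consL_ne hM g h, add_zero]
      refine ⟨consL x w₁ + consL y w₂ + (if x = y then consL x w₃ else 0), ?_, fun g => ?_⟩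
      · refine Submodule.add_mem _ (Submodule.add_mem _ ?_ ?_) ?_
        · refine Cle_mono ?_ (consL_mem_Cle hw₁ x)
          simp only [List.length_cons]; omega
        · refine Cle_mono ?_ (consL_mem_Cle hw₂ y)
          simp only [List.length_cons]; omega
        · split_ifs
          · refine Cle_mono ?_ (consL_mem_Cle hw₃ x)
            simp only [List.length_cons]; omega
          · exact Submodule.zero_mem _
      · have key := const_of_invariant hM
          (fun g => pr (M g) (consL x w₁ + consL y w₂ + (if x = y then consL x w₃ else 0)) -
            M g (x :: α) * M g (y :: β)) ?_ ?_ g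
        · simp only [map_one, NS.one_cons, mul_zero, sub_zero, map_add, pr_one_consL, zero_add]
            at key
          have e0 : pr (1 : NS X K) (if x = y then consL x w₃ else 0) = 0 := by
            split_ifs
            · exact pr_one_consL _ _
            · simp
          rw [e0] at key
          rw [map_add, map_add]
          exact sub_eq_zero.mp key
        · exact ((NS.continuous_pr _).comp hM.cont).sub
            (((NS.continuous_apply _).comp hM.cont).mul ((NS.continuous_apply _).comp hM.cont))
        · intro g z
          rw [map_add, map_add, map_add, map_add, hc, hc, hx, hy, h₁, h₂]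
          by_cases hxy : x = y
          · subst hxy
            rw [if_pos rfl, hc, h₃]
            by_cases hz : z = x
            · simp only [if_pos hz]; ring
            · simp only [if_neg hz]; ring
          · rw [if_neg hxy, map_zero, map_zero]
            by_cases hz : z = x
            · have hz' : z ≠ y := fun h => hxy (hz.symm.trans h)
              simp only [if_pos hz, if_neg hz']; ring
            · by_cases hz' : z = y
              · simp only [if_neg hz, if_pos hz']; ring
              · simp only [if_neg hz, if_neg hz']; ring

/-- By bilinearity from `exists_mul_word` (`u` and `v` are finite combinations of words of length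
`≤ m`, `≤ n`; `Cle_mono`). -/
theorem exists_mul (hM : IsMagnus ι M) {m n : ℕ} {u v : CC X K} (hu : u ∈ Cle X K m)
    (hv : v ∈ Cle X K n) : ∃ w ∈ Cle X K (m + n), ∀ g, pr (M g) w = pr (M g) u * pr (M g) v := by
  choose W hW hW' using exists_mul_word (K := K) hM
  refine ⟨u.sum fun α c => v.sum fun β d => (c * d) • W α β, ?_, fun g => ?_⟩
  · refine Submodule.sum_mem _ fun α hα => Submodule.sum_mem _ fun β hβ => ?_
    refine Submodule.smul_mem _ _ (Cle_mono ?_ (hW α β))
    have h1 : α.length ≤ m := by
      by_contra hcon
      exact (Finsupp.mem_support_iff.mp hα) (mem_Cle.mp hu α (by omega))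
    have h2 : β.length ≤ n := by
      by_contra hcon
      exact (Finsupp.mem_support_iff.mp hβ) (mem_Cle.mp hv β (by omega))
    omega
  · rw [pr_eq_sum (M g) u, pr_eq_sum (M g) v]
    simp only [Finsupp.sum, map_sum, map_smul, hW', smul_eq_mul]
    rw [Finset.sum_mul_sum]
    refine Finset.sum_congr rfl fun α _ => Finset.sum_congr rfl fun β _ => ?_
    ring

end Pool.Agent.Helper34.FHS
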