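import Mathlib

/-!
# FT: tensors compatible with two filtrations
-/

namespace Pool.Agent.Helper34.FHS

private theorem ft_key {K E : Type*} [Field K] [AddCommGroup E] [Module K E]
    [FiniteDimensional K E] (A B : Submodule K E) (hAB : A ≤ B) :
    ∃ d : ℕ, ∃ p : Fin d → E, ∃ l : Fin d → Module.Dual K E, (∀ k, p k ∈ B) ∧
      (∀ k, ∀ e ∈ A, l k e = 0) ∧
      ∀ f : Module.Dual K E, (∀ e ∈ A, f e = 0) → ∀ e ∈ B, f e = ∑ k, f (p k) * l k e := by
  obtain ⟨C, hC⟩ := A.exists_isCompl
  let C' : Submodule K E := C ⊓ B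
  let c := Module.finBasis K C'
  let π : E →ₗ[K] E := C.subtype ∘ₗ C.projectionOnto A hC.symm
  have hπA : ∀ e ∈ A, π e = 0 := by
    intro e he
    have : C.projectionOnto A hC.symm e = 0 :=
      (Submodule.projectionOnto_apply_eq_zero_iff hC.symm).2 he
    show ((C.projectionOnto A hC.symm e : C) : E) = 0
    rw [this]; rfl
  have hπC : ∀ e ∈ C, π e = e := by
    intro e he
    have := Submodule.projectionOnto_apply_left hC.symm ⟨e, he⟩
    show ((C.projectionOnto A hC.symm e : C) : E) = e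
    rw [this]
  have hg : ∀ k, ∃ g : E →ₗ[K] K, g ∘ₗ C'.subtype = c.coord k := fun k =>
    LinearMap.exists_extend (c.coord k)
  choose g hg using hg
  refine ⟨_, fun k => (c k : E), fun k => (g k) ∘ₗ π, ?_, ?_, ?_⟩
  · intro k
    exact (Submodule.mem_inf.mp (c k).2).2
  · intro k e he
    show g k (π e) = 0
    rw [hπA e he, map_zero]
  · intro f hf e he
    obtain ⟨e1, he1, e2, he2, rfl⟩ := Submodule.mem_sup.mp
      (show e ∈ A ⊔ C by rw [hC.sup_eq_top]; trivial)
    have he2' : e2 ∈ C' := Submodule.mem_inf.mpr ⟨he2, by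
      have : e2 = (e1 + e2) - e1 := by abel
      rw [this]; exact B.sub_mem he (hAB he1)⟩
    have h1 : f (e1 + e2) = f e2 := by rw [map_add, hf e1 he1, zero_add]
    have h2 : ∀ k, (g k) (π (e1 + e2)) = c.coord k ⟨e2, he2'⟩ := by
      intro k
      rw [map_add, hπA e1 he1, zero_add, hπC e2 he2, ← hg k]
      rfl
    rw [h1]
    have h3 : (⟨e2, he2'⟩ : C') = ∑ k, c.repr ⟨e2, he2'⟩ k • c k := (c.sum_repr _).symm
    have h4 : e2 = ∑ k, c.repr ⟨e2, he2'⟩ k • (c k : E) := by
      have := congrArg C'.subtype h3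
      rw [map_sum] at this
      simp only [map_smul] at this
      exact this
    conv_lhs => rw [h4]
    rw [map_sum]
    refine Finset.sum_congr rfl fun k _ => ?_
    rw [map_smul, smul_eq_mul, mul_comm]
    show f (c k : E) * c.repr ⟨e2, he2'⟩ k = f (c k : E) * (g k) (π (e1 + e2))
    rw [h2]
    rfl

/-- `Φ : E* → W` is a tensor in `E ⊗ W`; if it is compatible with the filtrations it is a sum of
tensors `p ⊗ q`, `p ∈ Ef i`, `q ∈ Wf j`, `i + j ≤ n`.
Proof. Claim for `m ≤ n`, by induction on `m` (generalizing `Φ`): if moreover `Φ l = 0` for all `l`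
vanishing on `Ef m` (and `h` holds for `i < m`), then the conclusion holds; the case `m = n` is the
theorem (`Ef n = ⊤`).
`m = 0`: take a basis `p_k` of `Ef 0` and functionals `l_k` on `E` with `l_k (p_j) = δ_kj`; for every
`l`, `l - ∑ l (p_k) l_k` vanishes on `Ef 0`, so `Φ l = ∑ l (p_k) Φ (l_k)` with `Φ (l_k) ∈ Wf n`.
`m + 1`: let `C` be a complement of `Ef m` in `Ef (m+1)` with basis `p_k`, and `l_k` functionals
vanishing on `Ef m` with `l_k (p_j) = δ_kj`; `q_k = Φ (l_k) ∈ Wf (n - (m+1))` by `h`. Put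
`Φ' = Φ - ∑ ev(p_k) ⊗ q_k`. If `l` vanishes on `Ef m` then `l - ∑ l (p_k) l_k` vanishes on
`Ef (m+1)`, so `Φ' l = 0`; for `i < m` and `l` vanishing on `Ef i`,
`Φ' l ∈ Wf (n - (i+1)) + Wf (n - (m+1)) ≤ Wf (n - (i+1))`. Apply the induction hypothesis to `Φ'`.
-/
theorem ft {K E W : Type*} [Field K] [AddCommGroup E] [Module K E] [FiniteDimensional K E]
    [AddCommGroup W] [Module K W] (n : ℕ) (Ef : ℕ → Submodule K E) (Wf : ℕ → Submodule K W)
    (hE : Monotone Ef) (hW : Monotone Wf) (htop : Ef n = ⊤) (Φ : Module.Dual K E →ₗ[K] W)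
    (h0 : ∀ l, Φ l ∈ Wf n)
    (h : ∀ i < n, ∀ l : Module.Dual K E, (∀ e ∈ Ef i, l e = 0) → Φ l ∈ Wf (n - (i + 1))) :
    Φ ∈ Submodule.span K {T : Module.Dual K E →ₗ[K] W | ∃ i j, i + j ≤ n ∧ ∃ p ∈ Ef i,
      ∃ q ∈ Wf j, T = (Module.Dual.eval K E p).smulRight q} := by
  set S := {T : Module.Dual K E →ₗ[K] W | ∃ i j, i + j ≤ n ∧ ∃ p ∈ Ef i,
      ∃ q ∈ Wf j, T = (Module.Dual.eval K E p).smulRight q} with hS
  have claim : ∀ m, m ≤ n → ∀ Φ : Module.Dual K E →ₗ[K] W, (∀ l, Φ l ∈ Wf n) →
      (∀ i < m, ∀ l : Module.Dual K E, (∀ e ∈ Ef i, l e = 0) → Φ l ∈ Wf (n - (i + 1))) →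
      (∀ l : Module.Dual K E, (∀ e ∈ Ef m, l e = 0) → Φ l = 0) → Φ ∈ Submodule.span K S := by
    intro m
    induction m with
    | zero =>
      intro _ Φ h0 _ hv
      obtain ⟨d, p, l, hp, _, hf⟩ := ft_key (⊥ : Submodule K E) (Ef 0) bot_le
      have hΦ : Φ = ∑ k, (Module.Dual.eval K E (p k)).smulRight (Φ (l k)) := by
        ext f
        have h1 : Φ (f - ∑ k, f (p k) • l k) = 0 := by
          apply hv
          intro e he
          have := hf f (by intro e he; rw [(Submodule.mem_bot K).mp he, map_zero]) e he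
          rw [LinearMap.sub_apply, this, LinearMap.sum_apply]
          simp only [LinearMap.smul_apply, smul_eq_mul, sub_self]
        rw [map_sub, sub_eq_zero, map_sum] at h1
        rw [h1, LinearMap.sum_apply]
        refine Finset.sum_congr rfl fun k _ => ?_
        rw [map_smul, LinearMap.smulRight_apply, Module.Dual.eval_apply]
      rw [hΦ]
      refine Submodule.sum_mem _ fun k _ => Submodule.subset_span ?_
      exact ⟨0, n, by omega, p k, hp k, Φ (l k), h0 _, rfl⟩
    | succ m ih =>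
      intro hm Φ h0 h hv
      obtain ⟨d, p, l, hp, hl, hf⟩ := ft_key (Ef m) (Ef (m + 1)) (hE (Nat.le_succ m))
      have hq : ∀ k, Φ (l k) ∈ Wf (n - (m + 1)) := fun k => h m (Nat.lt_succ_self m) (l k) (hl k)
      set Ψ : Module.Dual K E →ₗ[K] W :=
        ∑ k, (Module.Dual.eval K E (p k)).smulRight (Φ (l k)) with hΨ
      have hΨapp : ∀ f : Module.Dual K E, Ψ f = ∑ k, f (p k) • Φ (l k) := by
        intro f
        rw [hΨ, LinearMap.sum_apply]
        refine Finset.sum_congr rfl fun k _ => ?_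
        rw [LinearMap.smulRight_apply, Module.Dual.eval_apply]
      have hΨW : ∀ f, Ψ f ∈ Wf (n - (m + 1)) := by
        intro f
        rw [hΨapp]
        exact Submodule.sum_mem _ fun k _ => Submodule.smul_mem _ _ (hq k)
      have hΨS : Ψ ∈ Submodule.span K S := by
        rw [hΨ]
        refine Submodule.sum_mem _ fun k _ => Submodule.subset_span ?_
        exact ⟨m + 1, n - (m + 1), by omega, p k, hp k, Φ (l k), hq k, rfl⟩
      have h' : Φ - Ψ ∈ Submodule.span K S := by
        apply ih (by omega)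
        · intro f
          rw [LinearMap.sub_apply]
          exact Submodule.sub_mem _ (h0 f) (hW (by omega) (hΨW f))
        · intro i hi f hfi
          rw [LinearMap.sub_apply]
          exact Submodule.sub_mem _ (h i (by omega) f hfi) (hW (by omega) (hΨW f))
        · intro f hfm
          have h1 : Φ (f - ∑ k, f (p k) • l k) = 0 := by
            apply hv
            intro e he
            have := hf f hfm e he
            rw [LinearMap.sub_apply, this, LinearMap.sum_apply]
            simp only [LinearMap.smul_apply, smul_eq_mul, sub_self]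
          rw [map_sub, map_sum] at h1
          rw [LinearMap.sub_apply, hΨapp, ← h1]
          congr 1
          refine Finset.sum_congr rfl fun k _ => ?_
          rw [map_smul]
      have := Submodule.add_mem _ h' hΨS
      rwa [sub_add_cancel] at this
  refine claim n le_rfl Φ h0 h ?_
  intro l hl
  have : l = 0 := by
    ext e
    exact hl e (by rw [htop]; trivial)
  rw [this, map_zero]

end Pool.Agent.Helper34.FHS
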