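import Mathlib
import Pool.Agent.Helper34.FHS.Top
import Pool.Agent.Helper34.FHS.St.IB1
import Pool.Agent.Helper34.FHS.St.FT

/-!
# IB5: the filtered coproduct of `Bsub f`
-/

namespace Pool.Agent.Helper34.FHS

open Finsupp

universe u v

variable {X : Type u} {K : Type v} [Field K] {f : NS X K}

theorem ib5_proj {K V : Type*} [Field K] [AddCommGroup V] [Module K V] (E : Submodule K V) :
    ∃ ρ : V →ₗ[K] E, ∀ e : E, ρ e = e := by
  obtain ⟨ρ, hρ⟩ := LinearMap.exists_leftInverse_of_injective E.subtype (Submodule.ker_subtype E)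
  exact ⟨ρ, fun e => LinearMap.congr_fun hρ e⟩

theorem ib5_sfx_apply (b : NS X K) (u : CC X K) (w : List X) :
    sfx b u w = pr (NS.word w * b) u := by
  rw [← pr_word, pr_sfx]

/-- Contraction at the end with a word `γ` lowers the length by the length of `γ`. -/
theorem sfx_word_mem_Cle {n : ℕ} {u : CC X K} (hu : u ∈ Cle X K n) (γ : List X) :
    sfx (NS.word γ : NS X K) u ∈ Cle X K (n - γ.length) := by
  rw [mem_Cle] at hu ⊢
  intro w hw
  rw [ib5_sfx_apply, ← NS.word_append, pr_word]
  apply hu
  rw [List.length_append]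
  omega

theorem ib5_sfxW_mem (w : List X) (b : NS X K) :
    sfxW w b ∈ Finsupp.supported K K {γ : List X | γ ∈ w.tails} := by
  induction w generalizing b with
  | nil =>
    rw [sfxW]
    apply Finsupp.single_mem_supported
    simp
  | cons z w ih =>
    rw [sfxW]
    refine Submodule.add_mem _ ?_ ?_
    · apply Finsupp.single_mem_supported
      simp
    · refine Finsupp.supported_mono ?_ (ih (NS.dl z b))
      intro γ hγ
      show γ ∈ (z :: w).tails
      rw [List.tails_cons]
      exact List.mem_cons_of_mem _ hγ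

theorem ib5_sfx_mem_of {N : Submodule K (CC X K)} (b : NS X K) {u : CC X K}
    (h : ∀ w ∈ u.support, sfxW w b ∈ N) : sfx b u ∈ N := by
  rw [sfx, Finsupp.linearCombination_apply]
  exact Submodule.sum_mem _ fun w hw => N.smul_mem _ (h w hw)

theorem ib5_pfx_mem_of {N : Submodule K (CC X K)} (a : NS X K) {u : CC X K}
    (h : ∀ w ∈ u.support, pfxW a w ∈ N) : pfx a u ∈ N := by
  rw [pfx, Finsupp.linearCombination_apply]
  exact Submodule.sum_mem _ fun w hw => N.smul_mem _ (h w hw)

theorem ib5_length_le {n : ℕ} {u : CC X K} (hu : u ∈ Cle X K n) {w : List X}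
    (hw : w ∈ u.support) : w.length ≤ n := by
  by_contra h
  exact Finsupp.mem_support_iff.1 hw (mem_Cle.1 hu w (by omega))

theorem sfx_mem_Cle {n : ℕ} {u : CC X K} (hu : u ∈ Cle X K n) (b : NS X K) :
    sfx b u ∈ Cle X K n := by
  apply ib5_sfx_mem_of
  intro w hw
  refine Finsupp.supported_mono ?_ (ib5_sfxW_mem w b)
  intro γ hγ
  have h1 : γ <:+ w := (List.mem_tails _ _).1 hγ
  exact le_trans h1.length_le (ib5_length_le hu hw)

theorem ib5_pfxW_mem (a : NS X K) (w : List X) : pfxW a w ∈ Cle X K w.length := by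
  induction w with
  | nil =>
    rw [pfxW]
    apply Finsupp.single_mem_supported
    simp
  | cons z w ih =>
    rw [pfxW]
    refine Submodule.add_mem _ ?_ ?_
    · apply Finsupp.single_mem_supported
      simp
    · have key : Cle X K w.length ≤ (Cle X K (z :: w).length).comap (consL z) := by
        intro v hv
        rw [Submodule.mem_comap]
        have : v = v.sum fun a c => Finsupp.single a c := (Finsupp.sum_single v).symm
        rw [this, Finsupp.sum, map_sum]
        refine Submodule.sum_mem _ fun y hy => ?_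
        rw [consL_single]
        apply Finsupp.single_mem_supported
        have := ib5_length_le hv hy
        show (z :: y).length ≤ (z :: w).length
        simp only [List.length_cons]
        omega
      exact key ih

theorem pfx_mem_Cle {n : ℕ} {u : CC X K} (hu : u ∈ Cle X K n) (a : NS X K) :
    pfx a u ∈ Cle X K n := by
  apply ib5_pfx_mem_of
  intro w hw
  exact Cle_mono (ib5_length_le hu hw) (ib5_pfxW_mem a w)

/-- Paper 3.2: for `u ∈ Bsub f` of degree `≤ n` the function `(a, b) ↦ pr (a * b) u` is a sum of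
`pr a p * pr b q` with `p, q ∈ Bsub f` of degrees `i`, `j`, `i + j ≤ n`. It is stated for arbitrary
families `A i`, `B j` of power series (to be used with the Magnus homomorphism).
Proof. Let `S` be the finite set of letters occurring in `u` and `E` the finite-dimensional
subspace of `w ∈ Bsub f ⊓ Cle n` supported on words with letters in `S` (finitely many words of
length `≤ n`), `Ef i = E ⊓ Cle i` (as submodules of `E`), `Wf j = Bsub f ⊓ Cle j`. Choose a linear
projection `ρ : CC X K → E` (`Submodule.exists_isCompl` or `LinearMap.exists_leftInverse_of_injective`)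
and put `Φ l = pfx (ofDual (l ∘ ρ)) u`, so that
`pr b (Φ l) = pr (ofDual (l ∘ ρ) * b) u = pr (ofDual (l ∘ ρ)) (sfx b u) = l (ρ (sfx b u))` and
`sfx b u ∈ E` for all `b` (`sfx_mem_Bsub`; letters in `S`). If `l` vanishes on `Ef i`, `i < n`, then
the coefficient of `Φ l` at a word `γ` with `γ.length > n - (i+1)` is
`pr (word γ) (Φ l) = l (sfx (word γ) u) = 0` as `sfx (word γ) u ∈ Cle (n - γ.length) ≤ Cle i`. So `ft`
applies, `Φ` is in the span of the `l ↦ l p • q`. For a power series `a` let `l_a` be the restriction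
of `pr a` to `E`: `pr (a * b) u = pr a (sfx b u) = l_a (sfx b u) = pr b (Φ l_a)`. Apply the linear
map `T ↦ (x ↦ pr (B x.2) (T l_{A x.1}))` to the membership of `Φ` in the span. -/
theorem comul_mem_span {ΓA ΓB : Type*} (A : ΓA → NS X K) (B : ΓB → NS X K) {n : ℕ}
    {u : CC X K} (hu : u ∈ Bsub f) (hn : u ∈ Cle X K n) :
    (fun x : ΓA × ΓB => pr (A x.1 * B x.2) u) ∈ Submodule.span K {Ψ : ΓA × ΓB → K |
      ∃ i j, i + j ≤ n ∧ ∃ p ∈ Bsub f ⊓ Cle X K i, ∃ q ∈ Bsub f ⊓ Cle X K j,
        Ψ = fun x => pr (A x.1) p * pr (B x.2) q} := by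
  classical
  set T : Set (List X) := ⋃ w ∈ u.support, {γ : List X | γ ∈ w.tails} with hT
  have hTfin : T.Finite := by
    apply Set.Finite.biUnion (Finset.finite_toSet _)
    intro w _
    exact List.finite_toSet _
  set E : Submodule K (CC X K) := (Bsub f ⊓ Cle X K n) ⊓ Finsupp.supported K K T with hEdef
  have hEsfx : ∀ b : NS X K, sfx b u ∈ E := by
    intro b
    refine ⟨⟨sfx_mem_Bsub hu b, sfx_mem_Cle hn b⟩, ?_⟩
    apply ib5_sfx_mem_of
    intro w hw
    refine Finsupp.supported_mono ?_ (ib5_sfxW_mem w b)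
    intro γ hγ
    exact Set.mem_biUnion hw hγ
  have : Finite T := hTfin
  have : FiniteDimensional K (Finsupp.supported K K T) :=
    (Finsupp.supportedEquivFinsupp (M := K) (R := K) T).symm.finiteDimensional
  have : FiniteDimensional K E :=
    Submodule.finiteDimensional_of_le (S₂ := Finsupp.supported K K T) inf_le_right
  obtain ⟨ρ, hρ'⟩ := ib5_proj E
  have hpr : ∀ (l : Module.Dual K E) (b : NS X K),
      pr b (pfx (ofDual (l ∘ₗ ρ)) u) = l ⟨sfx b u, hEsfx b⟩ := by
    intro l b
    rw [pr_pfx, ← pr_sfx, pr_ofDual, LinearMap.comp_apply]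
    congr 1
    exact hρ' ⟨sfx b u, hEsfx b⟩
  let Φ : Module.Dual K E →ₗ[K] CC X K :=
    { toFun := fun l => pfx (ofDual (l ∘ₗ ρ)) u
      map_add' := by
        intro l l'
        apply CC.eq_of_pr
        intro b
        rw [map_add, hpr, hpr, hpr, LinearMap.add_apply]
      map_smul' := by
        intro c l
        apply CC.eq_of_pr
        intro b
        rw [RingHom.id_apply, map_smul, hpr, hpr, LinearMap.smul_apply] }
  have hΦ : ∀ l b, pr b (Φ l) = l ⟨sfx b u, hEsfx b⟩ := hpr
  have hmem := ft (K := K) (E := E) (W := CC X K) n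
    (fun i => (Cle X K i).comap E.subtype) (fun j => Bsub f ⊓ Cle X K j)
    (fun i j hij => Submodule.comap_mono (Cle_mono hij))
    (fun i j hij => inf_le_inf le_rfl (Cle_mono hij))
    (by
      rw [eq_top_iff]
      intro e _
      exact e.2.1.2)
    Φ
    (fun l => ⟨pfx_mem_Bsub hu _, pfx_mem_Cle hn _⟩)
    (by
      intro i hi l hl
      refine ⟨pfx_mem_Bsub hu _, mem_Cle.2 ?_⟩
      intro γ hγ
      rw [← pr_word, hΦ]
      apply hl
      show sfx (NS.word γ : NS X K) u ∈ Cle X K i
      exact Cle_mono (by omega) (sfx_word_mem_Cle hn γ))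
  let L : (Module.Dual K E →ₗ[K] CC X K) →ₗ[K] (ΓA × ΓB → K) :=
    { toFun := fun T x => pr (B x.2) (T ((pr (A x.1)) ∘ₗ E.subtype))
      map_add' := by
        intro T T'
        funext x
        simp only [LinearMap.add_apply, map_add, Pi.add_apply]
      map_smul' := by
        intro c T
        funext x
        simp only [LinearMap.smul_apply, map_smul, Pi.smul_apply, RingHom.id_apply] }
  have hL : L Φ = fun x : ΓA × ΓB => pr (A x.1 * B x.2) u := by
    funext x
    show pr (B x.2) (Φ ((pr (A x.1)) ∘ₗ E.subtype)) = _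
    rw [hΦ, LinearMap.comp_apply, Submodule.subtype_apply, pr_sfx]
  rw [← hL]
  have key : Submodule.span K {T : Module.Dual K E →ₗ[K] CC X K | ∃ i j, i + j ≤ n ∧
      ∃ p ∈ (Cle X K i).comap E.subtype, ∃ q ∈ Bsub f ⊓ Cle X K j,
        T = (Module.Dual.eval K E p).smulRight q} ≤
      (Submodule.span K {Ψ : ΓA × ΓB → K |
      ∃ i j, i + j ≤ n ∧ ∃ p ∈ Bsub f ⊓ Cle X K i, ∃ q ∈ Bsub f ⊓ Cle X K j,
        Ψ = fun x => pr (A x.1) p * pr (B x.2) q}).comap L := by
    refine Submodule.span_le.2 ?_
    rintro T ⟨i, j, hij, p, hp, q, hq, rfl⟩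
    refine Submodule.subset_span ⟨i, j, hij, (p : CC X K), ⟨p.2.1.1, hp⟩, q, hq, ?_⟩
    funext x
    show pr (B x.2) (((Module.Dual.eval K E p).smulRight q) ((pr (A x.1)) ∘ₗ E.subtype)) = _
    rw [LinearMap.smulRight_apply, map_smul, Module.Dual.eval_apply, LinearMap.comp_apply,
      Submodule.subtype_apply, smul_eq_mul]
  exact key hmem

end Pool.Agent.Helper34.FHS
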