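import Mathlib
import Pool.Agent.Helper34.FHS.Top
import Pool.Agent.Helper34.FHS.DomDefs
import Pool.Agent.Helper34.FHS.St.IB1
import Pool.Agent.Helper34.FHS.St.IB3
import Pool.Agent.Helper34.FHS.St.IB4
import Pool.Agent.Helper34.FHS.St.IB5
import Pool.Agent.Helper34.FHS.St.DM7

/-!
# IB6: the closed ideal of a relator is completely prime in characteristic zero
-/

namespace Pool.Agent.Helper34.FHS

open Finsupp

universe u v w

variable {X : Type u} {K : Type v} {F : Type w} [Field K] [CharZero K] [TopologicalSpace K]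
  [IsTopologicalRing K] [T2Space K] [Group F] [TopologicalSpace F] [IsTopologicalGroup F]
  {ι : X → F} {M : F →* NS X K}

/-- the function on the group defined by a polynomial -/
private noncomputable def bet (M : F →* NS X K) : CC X K →ₗ[K] (F → K) :=
  LinearMap.pi fun g => pr (M g)

omit [CharZero K] [TopologicalSpace K] [IsTopologicalRing K] [T2Space K] [TopologicalSpace F]
  [IsTopologicalGroup F] in
private theorem bet_apply (M : F →* NS X K) (u : CC X K) (g : F) : bet M u g = pr (M g) u := rfl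

omit [CharZero K] [TopologicalSpace K] [IsTopologicalRing K] [T2Space K] in
private theorem exists_Cle (u : CC X K) : ∃ n, u ∈ Cle X K n := by
  refine ⟨u.support.sup List.length, ?_⟩
  rw [mem_Cle]
  intro w hw
  by_contra h
  have : w.length ≤ u.support.sup List.length :=
    Finset.le_sup (f := List.length) (Finsupp.mem_support_iff.2 h)
  omega

omit [CharZero K] in
private theorem isFilt_map (hM : IsMagnus ι M) (r : F) :
    Dom.IsFilt (fun i => (Bsub (M r - 1) ⊓ Cle X K i).map (bet M)) := by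
  constructor
  · intro i j hij
    exact Submodule.map_mono (inf_le_inf_left _ (Cle_mono hij))
  · rintro β ⟨u, ⟨_, hu⟩, rfl⟩
    refine ⟨u [], ?_⟩
    funext g
    have hs : u = single [] (u []) := by
      ext w
      cases w with
      | nil => simp
      | cons z w =>
        have h0 : u (z :: w) = 0 := (mem_Cle.1 hu) (z :: w) (by simp)
        rw [h0, Finsupp.single_apply, if_neg (by simp)]
    rw [bet_apply, hs, pr_single, hM.nil, mul_one]
    simp
  · refine ⟨single [] 1, ⟨single_nil_mem_Bsub ?_, ?_⟩, ?_⟩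
    · rw [NS.sub_apply, hM.nil, NS.one_nil, sub_self]
    · change single [] 1 ∈ Cle X K 0
      rw [mem_Cle]
      intro w hw
      rw [Finsupp.single_apply, if_neg]
      rintro rfl
      simp at hw
    · funext g
      rw [bet_apply, pr_single, hM.nil, mul_one]
  · rintro i j _ _ ⟨u, ⟨hu, hui⟩, rfl⟩ ⟨v, ⟨hv, hvj⟩, rfl⟩
    obtain ⟨w, hw, hwm⟩ := exists_mul hM hui hvj
    refine ⟨w, ⟨?_, hw⟩, ?_⟩
    · change w ∈ Bsub (M r - 1)
      rw [mem_Bsub_iff hM]
      intro g h
      rw [hwm, hwm, (mem_Bsub_iff hM r u).1 hu, (mem_Bsub_iff hM r v).1 hv]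
    · funext g
      exact hwm g
  · rintro n _ ⟨u, ⟨hu, hn⟩, rfl⟩
    have h1 := comul_mem_span (fun g => M g) (fun g => M g) hu hn
    have h2 : (fun x : F × F => bet M u (x.1 * x.2)) =
        fun x : F × F => pr (M x.1 * M x.2) u := by
      funext x
      rw [bet_apply, map_mul]
    rw [h2]
    refine Submodule.span_mono ?_ h1
    rintro Ψ ⟨i, j, hij, p, hp, q, hq, rfl⟩
    exact ⟨i, j, hij, bet M p, ⟨p, hp, rfl⟩, bet M q, ⟨q, hq, rfl⟩, rfl⟩

/-- Let `bet : CC X K →ₗ (F → K)`, `bet u g = pr (M g) u`, injective by `eq_zero_of_pr_M`, and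
`V i = (Bsub (M r - 1) ⊓ Cle i).map bet`. `V` is a filtration (`Dom.IsFilt`): constants: `u ∈ Cle 0`
is a multiple of `single [] 1` and `M g [] = 1`; products: `exists_mul`, and the product is in
`Bsub` by `mem_Bsub_iff`; coproduct: `comul_mem_span` for `A = B = M`, `M (g h) = M g * M h`.
Choose a left inverse `ρ` of `bet` (`LinearMap.exists_leftInverse_of_injective`) and put
`a' = pr a ∘ ρ`, `b' = pr b ∘ ρ`, functionals on `F → K`. If `a ∉ Icl`, `b ∉ Icl` there are
`u, v ∈ Bsub` with `pr a u ≠ 0`, `pr b v ≠ 0`, so `Dom.dom` gives `β = bet w`, `w ∈ Bsub`, with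
`a' (g ↦ b' (h ↦ bet w (g h))) ≠ 0`. But `h ↦ bet w (g h) = pr (M g * M h) w =
pr (M h) (pfx (M g) w)` is `bet (pfx (M g) w)`, `b'` of it is `pr b (pfx (M g) w) = pr (M g * b) w =
pr (M g) (sfx b w)`, so the value is `pr a (sfx b w) = pr (a * b) w`, hence `a * b ∉ Icl`. -/
theorem Icl_prime (hM : IsMagnus ι M) (r : F) {a b : NS X K} (h : a * b ∈ Icl (M r - 1)) :
    a ∈ Icl (M r - 1) ∨ b ∈ Icl (M r - 1) := by
  by_contra hcon
  push Not at hcon
  obtain ⟨ha, hb⟩ := hcon
  rw [mem_Icl] at ha hb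
  push Not at ha hb
  obtain ⟨u, hu, hua⟩ := ha
  obtain ⟨v, hv, hvb⟩ := hb
  obtain ⟨m, hum⟩ := exists_Cle u
  obtain ⟨n, hvn⟩ := exists_Cle v
  have hker : LinearMap.ker (bet M) = ⊥ := by
    rw [LinearMap.ker_eq_bot']
    intro w hw
    exact eq_zero_of_pr_M hM fun g => congrFun hw g
  obtain ⟨ρ, hρ⟩ := LinearMap.exists_leftInverse_of_injective (bet M) hker
  have hρ' : ∀ w, ρ (bet M w) = w := fun w => LinearMap.congr_fun hρ w
  obtain ⟨_, ⟨w, ⟨hwB, _⟩, rfl⟩, hne⟩ := Dom.dom (isFilt_map hM r) (pr a ∘ₗ ρ) (pr b ∘ₗ ρ) m n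
    ⟨bet M u, ⟨u, ⟨hu, hum⟩, rfl⟩, by rw [LinearMap.comp_apply, hρ']; exact hua⟩
    ⟨bet M v, ⟨v, ⟨hv, hvn⟩, rfl⟩, by rw [LinearMap.comp_apply, hρ']; exact hvb⟩
  apply hne
  have h1 : ∀ g, (fun h => bet M w (g * h)) = bet M (pfx (M g) w) := by
    intro g
    funext h
    rw [bet_apply, bet_apply, pr_pfx, map_mul]
  have h2 : (fun g => (pr b ∘ₗ ρ) fun h => bet M w (g * h)) = bet M (sfx b w) := by
    funext g
    rw [h1, LinearMap.comp_apply, hρ', pr_pfx, bet_apply, pr_sfx]
  rw [h2, LinearMap.comp_apply, hρ', pr_sfx]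
  exact (mem_Icl.1 h) w hwB

end Pool.Agent.Helper34.FHS
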