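import Mathlib
import Pool.Agent.Helper34.FHS.Top
import Pool.Agent.Helper34.FHS.St.IB1

/-!
# IB2: the decomposition `I = T f + I T⁺`
-/

namespace Pool.Agent.Helper34.FHS

open Finsupp

universe u v

variable {X : Type u} {K : Type v} [Field K] {f : NS X K}

/-- the polynomials `w` with `sfx (letter z) w ∈ Bsub f` for all `z` -/
private noncomputable def ib2BX (f : NS X K) : Submodule K (CC X K) where
  carrier := {w | ∀ z, sfx (NS.letter z) w ∈ Bsub f}
  add_mem' := by
    intro a b ha hb z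
    rw [map_add]
    exact (Bsub f).add_mem (ha z) (hb z)
  zero_mem' := by
    intro z
    rw [map_zero]
    exact (Bsub f).zero_mem
  smul_mem' := by
    intro c a ha z
    rw [map_smul]
    exact (Bsub f).smul_mem c (ha z)

private theorem ib2_mem {w : CC X K} : w ∈ ib2BX f ↔ ∀ z, sfx (NS.letter z) w ∈ Bsub f := Iff.rfl

private theorem ib2_ker {w : CC X K} (hw : w ∈ ib2BX f) (h0 : sfx f w = 0) : w ∈ Bsub f := by
  rw [mem_Bsub]
  intro α β
  cases β with
  | nil => rw [NS.word_nil, mul_one, ← pr_sfx, h0, map_zero]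
  | cons z β =>
    rw [NS.word_cons, ← mul_assoc, ← pr_sfx]
    exact mem_Bsub.1 (ib2_mem.1 hw z) α β

private theorem ib2_cons {u : CC X K} (hu : u ∈ Bsub f) (z : X) : consL z u ∈ ib2BX f := by
  rw [ib2_mem]
  intro z'
  by_cases h : z = z'
  · subst h
    have h1 : sfx (NS.letter z) (consL z u) = u := by
      apply CC.eq_of_pr
      intro a
      rw [pr_sfx, pr_consL, NS.dl_mul_letter_self]
    rw [h1]
    exact hu
  · have h1 : sfx (NS.letter z') (consL z u) = 0 := by
      apply CC.eq_of_pr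
      intro a
      rw [pr_sfx, pr_consL, NS.dl_mul_letter_ne _ h, pr_zero, map_zero]
    rw [h1]
    exact (Bsub f).zero_mem

private theorem ib2_ext {V W : Type*} [AddCommGroup V] [Module K V] [AddCommGroup W] [Module K W]
    (P : Submodule K V) (φ : V →ₗ[K] W) (s : V →ₗ[K] K) (h : ∀ w ∈ P, φ w = 0 → s w = 0) :
    ∃ l : W →ₗ[K] K, ∀ w ∈ P, l (φ w) = s w := by
  have hmem : s.domRestrict P ∈ (LinearMap.ker (φ.domRestrict P)).dualAnnihilator := by
    rw [Submodule.mem_dualAnnihilator]
    intro w hw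
    rw [LinearMap.mem_ker] at hw
    exact h w.1 w.2 hw
  rw [← LinearMap.range_dualMap_eq_dualAnnihilator_ker] at hmem
  obtain ⟨l, hl⟩ := hmem
  refine ⟨l, fun w hw => ?_⟩
  exact LinearMap.congr_fun hl ⟨w, hw⟩

/-- Paper 2.1. Let `BX : Submodule K (CC X K)` be the set of `w` with `w [] = 0` and
`sfx (letter z) w ∈ Bsub f` for all `z` (`pr a (sfx (letter z) w) = pr (a * letter z) w`).
(1) If `w ∈ BX` and `sfx f w = 0` then `w ∈ Bsub f`: for words `α`, `β`: if `β = z :: β'`
(`word (z :: β') = word β' * letter z`) then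
`pr (word α * f * word β' * letter z) w = pr (word α * f * word β') (sfx (letter z) w) = 0`;
if `β = []` then `pr (word α * f) w = pr (word α) (sfx f w) = 0`. Hence `pr s w = 0`.
(2) So the functional `pr s` on `BX` vanishes on the kernel of `sfx f` restricted to `BX`; hence
there is a functional `l` on `CC X K` with `l (sfx f w) = pr s w` for all `w ∈ BX`
(`LinearMap.range_dualMap_eq_dualAnnihilator_ker` for `(sfx f).domRestrict BX`, or
`LinearMap.exists_extend`). Put `v = ofDual l`, so `pr (v * f) w = pr s w` for `w ∈ BX`.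
(3) For `u ∈ Bsub f` and `z : X`, `consL z u ∈ BX` (`sfx (letter z') (consL z u)` is `u` if
`z' = z` and `0` otherwise, e.g. by `CC.eq_of_pr` and `pr_consL`, `dl_mul_letter_self`), so
`pr (dl z s) u = pr s (consL z u) = pr (v * f) (consL z u) = pr (dl z (v * f)) u =
pr (v * dl z f) u` (`NS.dl_mul_eq_of_nil`). -/
theorem exists_decomp (hf : f [] = 0) {s : NS X K} (hs : s ∈ Icl f) :
    ∃ v : NS X K, ∀ z, NS.dl z s - v * NS.dl z f ∈ Icl f := by
  obtain ⟨l, hl'⟩ := ib2_ext (ib2BX f) (sfx f) (pr s)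
    (fun w hw h0 => mem_Icl.1 hs w (ib2_ker hw h0))
  refine ⟨ofDual l, fun z => ?_⟩
  rw [mem_Icl]
  intro u hu
  have h2 := hl' (consL z u) (ib2_cons hu z)
  rw [← pr_ofDual, pr_sfx, pr_consL, pr_consL, NS.dl_mul_eq_of_nil _ hf] at h2
  rw [pr_sub, h2, sub_self]

end Pool.Agent.Helper34.FHS
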