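import Mathlib
import Pool.Agent.Helper34.FHS.Top
import Pool.Agent.Helper34.FHS.St.IB1
import Pool.Agent.Helper34.FHS.St.IB2

/-!
# IB7: an element of the ideal without the letter `x` forces `dl x f` into the ideal
-/

namespace Pool.Agent.Helper34.FHS

universe u v

variable {X : Type u} {K : Type v} [Field K] {f : NS X K}

/-- Paper 4. Choose `s` (non-zero, in `Icl f`, vanishing on words containing `x`) such that the
least length of a word `w` with `s w ≠ 0` is minimal. `s [] = 0` (`Icl_nil`), so the shortest `w` is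
`y :: w'`, `y ≠ x`; `dl y s ≠ 0` vanishes on words containing `x` and has a shorter word, so
`dl y s ∉ Icl f`. Take `v` from `exists_decomp`; since `dl x s = 0`, `v * dl x f ∈ Icl f`. If
`v ∈ Icl f` then `v * dl y f ∈ Icl f`, so `dl y s ∈ Icl f`, a contradiction. -/
theorem dl_mem_Icl (hf : f [] = 0) (hp : ∀ a b : NS X K, a * b ∈ Icl f → a ∈ Icl f ∨ b ∈ Icl f)
    (x : X) {s : NS X K} (hs : s ∈ Icl f) (h0 : s ≠ 0) (hx : ∀ w, x ∈ w → s w = 0) :
    NS.dl x f ∈ Icl f := by
  classical
  have hex : ∃ n : ℕ, ∃ s ∈ Icl f, (∀ w, x ∈ w → s w = 0) ∧ ∃ w, w.length = n ∧ s w ≠ 0 := by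
    obtain ⟨w, hw⟩ : ∃ w, s w ≠ 0 := by
      by_contra hcon
      push Not at hcon
      exact h0 (NS.ext' fun w => by rw [hcon w, NS.zero_apply])
    exact ⟨w.length, s, hs, hx, w, rfl, hw⟩
  obtain ⟨s, hs, hx, w, hwn, hw⟩ := Nat.find_spec hex
  have hmin := fun m (hm : m < Nat.find hex) => Nat.find_min hex hm
  cases w with
  | nil => exact absurd (Icl_nil hf hs) hw
  | cons y w =>
    have hy : NS.dl y s ∉ Icl f := by
      intro hcon
      refine hmin w.length (by rw [← hwn, List.length_cons]; omega)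
        ⟨NS.dl y s, hcon, fun w' hw' => hx _ (List.mem_cons_of_mem y hw'), w, rfl, hw⟩
    obtain ⟨v, hv⟩ := exists_decomp hf hs
    have hxs : NS.dl x s = 0 := NS.ext' fun w' => by
      rw [NS.dl_apply, NS.zero_apply]
      exact hx _ List.mem_cons_self
    have h1 : v * NS.dl x f ∈ Icl f := by
      have h2 := hv x
      rw [hxs, zero_sub] at h2
      have h3 := (Icl f).neg_mem h2
      rwa [neg_neg] at h3
    rcases hp _ _ h1 with h2 | h2
    · exfalso
      apply hy
      have h3 := (Icl f).add_mem (hv y) (Icl_mul_right h2 (NS.dl y f))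
      rwa [sub_add_cancel] at h3
    · exact h2

end Pool.Agent.Helper34.FHS
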