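import Mathlib
import Pool.Agent.Helper34.FHS.Defs

/-!
# PB1: the universal property of free pro-p groups with respect to pro-p groups
-/

namespace Pool.Agent.Helper34.FHS

universe u v w

variable {p : ℕ} {X : Type u} {F : Type v} [Group F] [TopologicalSpace F] [IsTopologicalGroup F]
  {ι : X → F}

/-- Finite `p`-groups in any universe: transport the group structure to `Fin (Nat.card P)`
(`Finite.equivFin`, `Equiv.group`). -/
theorem IsFreeProP.lift_finite (hF : IsFreeProP p ι) {P : Type w} [Group P] [Finite P]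
    (hP : ∃ k : ℕ, Nat.card P = p ^ k) (φ : X → P) (hφ : {x | φ x ≠ 1}.Finite) :
    ∃ θ : F →* P, IsOpen (θ.ker : Set F) ∧ ∀ x, θ (ι x) = φ x := by
  have hs : Small.{0} P := Countable.toSmall P
  have hfin : Finite (Shrink.{0} P) := Finite.of_equiv P (equivShrink P)
  obtain ⟨k, hk⟩ := hP
  obtain ⟨θ, hθ, hx⟩ := hF.lift (Shrink.{0} P)
    ⟨k, by rw [← hk]; exact Nat.card_congr (equivShrink P).symm⟩
    (fun x => equivShrink P (φ x)) (by
      refine hφ.subset ?_
      intro x hx h
      apply hx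
      have h1 : (equivShrink P).symm (equivShrink P (φ x)) = φ x := by simp
      apply (equivShrink P).symm.injective
      rw [h1, h, equivShrink_symm_one])
  let e : Shrink.{0} P ≃* P := Shrink.mulEquiv
  refine ⟨e.toMonoidHom.comp θ, ?_, ?_⟩
  · have h1 : (e.toMonoidHom.comp θ).ker = θ.ker := by
      ext g
      rw [MonoidHom.mem_ker, MonoidHom.mem_ker, MonoidHom.comp_apply]
      exact map_eq_one_iff e e.injective
    rw [h1]
    exact hθ
  · intro x
    show e (θ (ι x)) = φ x
    rw [hx]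
    exact (equivShrink P).symm_apply_apply (φ x)

/-- Two homomorphisms with open kernels which agree on `ι X` are equal: the subgroup where they
agree contains the intersection of the kernels, so it is open, hence closed, and it contains
`ι X`. -/
theorem IsFreeProP.hom_ext (hF : IsFreeProP p ι) {P : Type w} [Group P] {θ θ' : F →* P}
    (h1 : IsOpen (θ.ker : Set F)) (h2 : IsOpen (θ'.ker : Set F)) (h : ∀ x, θ (ι x) = θ' (ι x)) :
    θ = θ' := by
  have hopen : IsOpen ((θ.ker ⊓ θ'.ker : Subgroup F) : Set F) := h1.inter h2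
  have hle : θ.ker ⊓ θ'.ker ≤ MonoidHom.eqLocus θ θ' := by
    intro g hg
    show θ g = θ' g
    rw [MonoidHom.mem_ker.1 hg.1, MonoidHom.mem_ker.1 hg.2]
  have hE : IsOpen ((MonoidHom.eqLocus θ θ' : Subgroup F) : Set F) :=
    Subgroup.isOpen_mono hle hopen
  have hEc : IsClosed ((MonoidHom.eqLocus θ θ' : Subgroup F) : Set F) :=
    Subgroup.isClosed_of_isOpen _ hE
  have hcl : Subgroup.closure (Set.range ι) ≤ MonoidHom.eqLocus θ θ' := by
    rw [Subgroup.closure_le]
    rintro _ ⟨x, rfl⟩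
    exact h x
  ext g
  have hg : g ∈ closure (Subgroup.closure (Set.range ι) : Set F) := hF.dense g
  have h3 := hEc.closure_subset_iff.2 (show (Subgroup.closure (Set.range ι) : Set F) ⊆
    (MonoidHom.eqLocus θ θ' : Subgroup F) from hcl) hg
  exact h3

/-- Universal property for pro-p groups. For an open normal subgroup `V` of `P` the quotient `P ⧸ V`
is a finite `p`-group; let `θ_V : F →* P ⧸ V` with open kernel and `θ_V (ι x) = φ x` (lift_finite).
For `g : F` let `C_V g = {a : P | (a : P ⧸ V) = θ_V g}`, a non-empty closed set. For `V, V'` the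
composites of `θ_{V ⊓ V'}` with the projections are `θ_V`, `θ_{V'}` (`hom_ext`), so
`C_{V ⊓ V'} g ⊆ C_V g ∩ C_{V'} g`. By compactness the intersection of all `C_V g` is non-empty, and
it has only one element (the open normal subgroups of the profinite group `P` intersect in `1`:
`ProfiniteGrp.exist_openNormalSubgroup_sub_open_nhds_of_one` or the like). Let `θ g` be this element;
`θ` is a homomorphism, `(θ g : P ⧸ V) = θ_V g`, so `θ⁻¹ V = ker θ_V` is open and `θ` is
continuous. -/
theorem IsFreeProP.lift_proP (hF : IsFreeProP p ι) {P : Type w} [Group P] [TopologicalSpace P]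
    [IsTopologicalGroup P] [CompactSpace P] [T2Space P] [TotallyDisconnectedSpace P]
    (hP : ∀ V : Subgroup P, V.Normal → IsOpen (V : Set P) → ∃ k : ℕ, V.index = p ^ k)
    (φ : X → P) (hφ : ∀ V : Subgroup P, V.Normal → IsOpen (V : Set P) → {x | φ x ∉ V}.Finite) :
    ∃ θ : F →* P, Continuous θ ∧ ∀ x, θ (ι x) = φ x := by
  -- the finite levels, written as relations `R V g a` saying that `a` maps to `θ_V g`
  have hlev : ∀ (V : Subgroup P) (_ : V.Normal), IsOpen (V : Set P) →
      ∃ R : F → Set P, (∀ g, (R g).Nonempty) ∧ (∀ g, IsClosed (R g)) ∧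
        (∀ g a b, a ∈ R g → b ∈ R g → a⁻¹ * b ∈ V) ∧
        (∀ g a v, a ∈ R g → v ∈ V → a * v ∈ R g) ∧
        (∀ g h a b, a ∈ R g → b ∈ R h → a * b ∈ R (g * h)) ∧
        (∀ x, φ x ∈ R (ι x)) ∧
        (∀ W : Subgroup P, V ≤ W → ∀ (_ : W.Normal), IsOpen (W : Set P) → ∀ θ : F →* P ⧸ W,
          IsOpen (θ.ker : Set F) → (∀ x, θ (ι x) = (φ x : P ⧸ W)) → ∀ g, ∀ a ∈ R g,
            (a : P ⧸ W) = θ g) ∧
        ∃ θ : F →* P ⧸ V, IsOpen (θ.ker : Set F) ∧ (∀ x, θ (ι x) = (φ x : P ⧸ V)) ∧
          ∀ g a, a ∈ R g ↔ (a : P ⧸ V) = θ g := by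
    intro V hVn hVo
    have hfin : Finite (P ⧸ V) := Subgroup.quotient_finite_of_isOpen V hVo
    obtain ⟨k, hk⟩ := hP V hVn hVo
    obtain ⟨θ, hθo, hθ⟩ := hF.lift_finite (P := P ⧸ V) ⟨k, hk⟩ (fun x => (φ x : P ⧸ V)) (by
      refine (hφ V hVn hVo).subset ?_
      intro x hx h
      exact hx ((QuotientGroup.eq_one_iff (φ x)).2 h))
    refine ⟨fun g => {a | (a : P ⧸ V) = θ g}, ?_, ?_, ?_, ?_, ?_, ?_, ?_, θ, hθo, hθ, fun _ _ => Iff.rfl⟩
    · intro g
      exact QuotientGroup.mk_surjective (θ g)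
    · intro g
      have hd : DiscreteTopology (P ⧸ V) := QuotientGroup.discreteTopology hVo
      have h1 : IsClosed ({θ g} : Set (P ⧸ V)) := isClosed_discrete _
      exact h1.preimage QuotientGroup.continuous_mk
    · intro g a b ha hb
      rw [← QuotientGroup.eq]
      exact ha.trans hb.symm
    · intro g a v ha hv
      show ((a * v : P) : P ⧸ V) = θ g
      rw [← ha, QuotientGroup.mk_mul_of_mem _ hv]
    · intro g h a b ha hb
      show ((a * b : P) : P ⧸ V) = θ (g * h)
      rw [map_mul, ← ha, ← hb]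
      rfl
    · intro x
      exact (hθ x).symm
    · intro W hVW hWn hWo θ' hθ'o hθ' g a ha
      have hcomp : (QuotientGroup.map V W (MonoidHom.id P) hVW).comp θ = θ' := by
        apply hF.hom_ext _ hθ'o
        · intro x
          rw [MonoidHom.comp_apply, hθ, hθ']
          rfl
        · refine Subgroup.isOpen_mono (H₁ := θ.ker) ?_ hθo
          intro g hg
          rw [MonoidHom.mem_ker, MonoidHom.comp_apply, MonoidHom.mem_ker.1 hg, map_one]
      rw [← hcomp, MonoidHom.comp_apply, ← ha]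
      rfl
  choose! R hR1 hR2 hR3 hR4 hR5 hR6 hR7 hR8 using hlev
  -- monotonicity
  have hmono : ∀ V W : Subgroup P, V.Normal → IsOpen (V : Set P) → W.Normal →
      IsOpen (W : Set P) → V ≤ W → ∀ g, R V g ⊆ R W g := by
    intro V W hVn hVo hWn hWo hVW g a ha
    obtain ⟨θ, h1, h2, h3⟩ := hR8 W hWn hWo
    rw [h3]
    exact hR7 V hVn hVo W hVW hWn hWo θ h1 h2 g a ha
  -- compactness
  have hex : ∀ g, ∃ a, ∀ V : Subgroup P, V.Normal → IsOpen (V : Set P) → a ∈ R V g := by
    intro g
    let I := {V : Subgroup P // V.Normal ∧ IsOpen (V : Set P)}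
    have hne : Nonempty I := ⟨⟨⊤, inferInstance, isOpen_univ⟩⟩
    have h1 : (⋂ V : I, R V.1 g).Nonempty := by
      apply IsCompact.nonempty_iInter_of_directed_nonempty_isCompact_isClosed
      · intro V W
        have hn : (V.1 ⊓ W.1).Normal := by
          have := V.2.1
          have := W.2.1
          infer_instance
        have ho : IsOpen ((V.1 ⊓ W.1 : Subgroup P) : Set P) := V.2.2.inter W.2.2
        exact ⟨⟨V.1 ⊓ W.1, hn, ho⟩, hmono _ _ hn ho V.2.1 V.2.2 inf_le_left g,
          hmono _ _ hn ho W.2.1 W.2.2 inf_le_right g⟩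
      · intro V
        exact hR1 V.1 V.2.1 V.2.2 g
      · intro V
        exact (hR2 V.1 V.2.1 V.2.2 g).isCompact
      · intro V
        exact hR2 V.1 V.2.1 V.2.2 g
    obtain ⟨a, ha⟩ := h1
    rw [Set.mem_iInter] at ha
    exact ⟨a, fun V hn ho => ha ⟨V, hn, ho⟩⟩
  choose f hf using hex
  have huniq : ∀ g a b, (∀ V : Subgroup P, V.Normal → IsOpen (V : Set P) → a ∈ R V g) →
      (∀ V : Subgroup P, V.Normal → IsOpen (V : Set P) → b ∈ R V g) → a = b := by
    intro g a b ha hb
    by_contra hne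
    have h1 : (1 : P) ∈ ({a⁻¹ * b}ᶜ : Set P) := by
      intro h
      apply hne
      have h2 : (1 : P) = a⁻¹ * b := h
      rw [← mul_one a, h2, mul_inv_cancel_left]
    obtain ⟨H, hH⟩ := ProfiniteGrp.exist_openNormalSubgroup_sub_open_nhds_of_one
      (isOpen_compl_singleton (x := a⁻¹ * b)) h1
    have h3 : a⁻¹ * b ∈ (H.toOpenSubgroup.toSubgroup : Subgroup P) :=
      hR3 _ H.isNormal' H.isOpen' g a b (ha _ H.isNormal' H.isOpen') (hb _ H.isNormal' H.isOpen')
    exact hH h3 rfl
  let θ : F →* P := MonoidHom.mk' f (by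
    intro g h
    apply huniq (g * h) _ _ (hf (g * h))
    intro V hn ho
    exact hR5 V hn ho g h _ _ (hf g V hn ho) (hf h V hn ho))
  refine ⟨θ, ?_, ?_⟩
  · apply continuous_of_continuousAt_one θ
    rw [ContinuousAt, map_one]
    intro U hU
    obtain ⟨U', hU'1, hU'2, hU'3⟩ := mem_nhds_iff.1 hU
    obtain ⟨H, hH⟩ := ProfiniteGrp.exist_openNormalSubgroup_sub_open_nhds_of_one hU'2 hU'3
    obtain ⟨θV, h1, h2, h3⟩ := hR8 _ H.isNormal' H.isOpen'
    have h4 : (θV.ker : Set F) ∈ nhds (1 : F) := h1.mem_nhds (one_mem θV.ker)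
    rw [Filter.mem_map]
    refine Filter.mem_of_superset h4 ?_
    intro g hg
    apply hU'1
    apply hH
    have h5 := (h3 g (f g)).1 (hf g _ H.isNormal' H.isOpen')
    rw [MonoidHom.mem_ker.1 hg] at h5
    exact (QuotientGroup.eq_one_iff (f g)).1 h5
  · intro x
    apply huniq (ι x) _ _ (hf (ι x))
    intro V hn ho
    exact hR6 V hn ho x

end Pool.Agent.Helper34.FHS
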