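import Mathlib
import Pool.Agent.Helper34.FHS.UG

/-!
# TB1: the group `UG X ℤ_[p]` is pro-p
-/

namespace Pool.Agent.Helper34.FHS

universe u

variable {X : Type u} {p : ℕ} [Fact p.Prime]

/-- The basic open neighbourhoods of `1`: an open set containing `1` contains all `a` with
`a w - 1 w ∈ p^m ℤ_p` for `w` in a finite set of words (product topology; the ideals `p^m ℤ_p` are a
basis of neighbourhoods of `0` in `ℤ_[p]`). -/
theorem UG.exists_basic {U : Set (UG X ℤ_[p])} (hU : IsOpen U) (h1 : (1 : UG X ℤ_[p]) ∈ U) :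
    ∃ (s : Finset (List X)) (m : ℕ), ∀ a : UG X ℤ_[p],
      (∀ w ∈ s, (p : ℤ_[p]) ^ m ∣ a.val w - (1 : NS X ℤ_[p]) w) → a ∈ U := by
  obtain ⟨T, hT, hTU⟩ : ∃ T : Set (NS X ℤ_[p]), IsOpen T ∧ UG.val ⁻¹' T = U :=
    isOpen_induced_iff.1 hU
  obtain ⟨V, hV, hVT⟩ : ∃ V : Set (List X → ℤ_[p]), IsOpen V ∧ NS.coeff ⁻¹' V = T :=
    isOpen_induced_iff.1 hT
  have hVU : (fun a : UG X ℤ_[p] => a.val.coeff) ⁻¹' V = U := by
    rw [← hTU, ← hVT]
    rfl
  have h1V : ((1 : UG X ℤ_[p]).val.coeff) ∈ V := by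
    rw [← hVU] at h1
    exact h1
  obtain ⟨s, u, hsu, hsub⟩ := isOpen_pi_iff.1 hV _ h1V
  have hball : ∀ w : List X, ∃ m : ℕ, w ∈ s → ∀ x : ℤ_[p],
      (p : ℤ_[p]) ^ m ∣ x - (1 : NS X ℤ_[p]) w → x ∈ u w := by
    intro w
    by_cases hw : w ∈ s
    · obtain ⟨ε, hε, hb⟩ := Metric.isOpen_iff.1 (hsu w hw).1 _ (hsu w hw).2
      obtain ⟨m, hm⟩ := PadicInt.exists_pow_neg_lt p hε
      refine ⟨m, fun _ x hx => hb ?_⟩
      rw [Metric.mem_ball, dist_eq_norm]
      refine lt_of_le_of_lt ?_ hm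
      have h3 : x - (1 : NS X ℤ_[p]) w ∈ (Ideal.span {(p : ℤ_[p]) ^ m} : Ideal ℤ_[p]) :=
        Ideal.mem_span_singleton.2 hx
      exact (PadicInt.norm_le_pow_iff_mem_span_pow _ m).2 h3
    · exact ⟨0, fun h => absurd h hw⟩
  choose m hm using hball
  refine ⟨s, s.sup m, fun a ha => ?_⟩
  rw [← hVU]
  apply hsub
  intro w hw
  refine hm w hw _ ?_
  exact (pow_dvd_pow _ (Finset.le_sup (f := m) hw)).trans (ha w hw)

/-- powers of a series without constant term vanish on short words -/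
private theorem pow_short {K : Type*} [CommRing K] (b : NS X K) (hb : b [] = 0) (i : ℕ) :
    ∀ w : List X, w.length < i → (b ^ i) w = 0 := by
  induction i with
  | zero => intro w hw; omega
  | succ i ih =>
    intro w hw
    rw [pow_succ', NS.mul_apply_sum]
    apply Finset.sum_eq_zero
    intro k hk
    rw [Finset.mem_range] at hk
    by_cases h : k < i
    · rw [ih (w.take k) (by rw [List.length_take]; omega), mul_zero]
    · have h2 : w.drop k = [] := by
        apply List.drop_eq_nil_of_le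
        omega
      rw [h2, hb, zero_mul]

/-- divisibility of binomial coefficients -/
private theorem dvd_choose (m n i : ℕ) (hi : i ≠ 0) (hin : i ≤ n) :
    p ^ m ∣ (p ^ (m + n)).choose i := by
  have hp : p.Prime := Fact.out
  obtain ⟨e, i', hi', he⟩ := Nat.exists_eq_pow_mul_and_not_dvd hi p hp.ne_one
  have hen : e ≤ n := by
    have h1 : e < p ^ e := Nat.lt_pow_self hp.one_lt
    have h2 : p ^ e ≤ i := Nat.le_of_dvd (Nat.pos_of_ne_zero hi) (he ▸ Dvd.intro _ rfl)
    omega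
  obtain ⟨k, rfl⟩ : ∃ k, i = k + 1 := ⟨i - 1, by omega⟩
  obtain ⟨N, hN⟩ : ∃ N, p ^ (m + n) = N + 1 :=
    ⟨p ^ (m + n) - 1, by have := pow_pos hp.pos (m + n); omega⟩
  have h3 : (k + 1) * (p ^ (m + n)).choose (k + 1) = p ^ (m + n) * N.choose k := by
    rw [hN, mul_comm (k + 1)]
    exact (Nat.add_one_mul_choose_eq N k).symm
  have h4 : p ^ (m + n) ∣ p ^ e * (i' * (p ^ (m + n)).choose (k + 1)) := by
    rw [← mul_assoc, ← he, h3]
    exact Dvd.intro _ rfl
  have h5 : p ^ (m + n) = p ^ e * p ^ (m + n - e) := by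
    rw [← pow_add]
    congr 1
    omega
  rw [h5] at h4
  have h6 : p ^ (m + n - e) ∣ i' * (p ^ e * p ^ (m + n - e)).choose (k + 1) :=
    Nat.dvd_of_mul_dvd_mul_left (pow_pos hp.pos _) h4
  rw [← h5] at h6
  have h7 : p ^ (m + n - e) ∣ (p ^ (m + n)).choose (k + 1) := by
    refine Nat.Coprime.dvd_of_dvd_mul_left ?_ h6
    exact Nat.Coprime.pow_left _ ((Nat.Prime.coprime_iff_not_dvd hp).2 hi')
  exact (pow_dvd_pow p (by omega)).trans h7

private theorem coeff_sum' {K : Type*} [CommRing K] {ι : Type*} (s : Finset ι)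
    (f : ι → NS X K) (w : List X) : (∑ i ∈ s, f i : NS X K) w = ∑ i ∈ s, (f i) w := by
  have h := congrFun (map_sum (NS.coeffHom : NS X K →+ (List X → K)) f s) w
  rw [Finset.sum_apply] at h
  exact h

private theorem pow_near (a : UG X ℤ_[p]) (m n : ℕ) (w : List X) (hw : w.length ≤ n) :
    (p : ℤ_[p]) ^ m ∣ (a ^ (p ^ (m + n))).val w - (1 : NS X ℤ_[p]) w := by
  have h0 : (a ^ (p ^ (m + n))).val = a.val ^ (p ^ (m + n)) := map_pow UG.valHom a _
  set b : NS X ℤ_[p] := a.val - 1 with hb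
  have hb0 : b [] = 0 := by
    rw [hb, NS.sub_apply, a.val_nil, NS.one_nil, sub_self]
  have hab : a.val = b + 1 := by rw [hb, sub_add_cancel]
  rw [h0, hab, (Commute.one_right b).add_pow, coeff_sum', Finset.sum_range_succ']
  have h1 : (b ^ 0 * 1 ^ (p ^ (m + n) - 0) * (((p ^ (m + n)).choose 0 : ℕ) : NS X ℤ_[p]) :
      NS X ℤ_[p]) w = (1 : NS X ℤ_[p]) w := by
    rw [pow_zero, one_pow, Nat.choose_zero_right, Nat.cast_one, mul_one, mul_one]
  rw [h1, add_sub_cancel_right]
  apply Finset.dvd_sum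
  intro i _
  rw [one_pow, mul_one, ← nsmul_eq_mul']
  have h2 : ((p ^ (m + n)).choose (i + 1) • b ^ (i + 1) : NS X ℤ_[p]) w =
      (p ^ (m + n)).choose (i + 1) • (b ^ (i + 1)) w := rfl
  rw [h2]
  by_cases h : w.length < i + 1
  · rw [pow_short b hb0 (i + 1) w h, smul_zero]
    exact dvd_zero _
  · rw [nsmul_eq_mul]
    refine Dvd.dvd.mul_right ?_ _
    have h3 : p ^ m ∣ (p ^ (m + n)).choose (i + 1) := dvd_choose m n (i + 1) (by omega) (by omega)
    have h4 := Nat.cast_dvd_cast (α := ℤ_[p]) h3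
    rw [Nat.cast_pow] at h4
    exact h4

/-- Every element has a `p`-power in `U`: `a^(p^j) = ∑ i, choose (p^j) i • (a - 1)^i`
(`Commute.add_pow`), `(a-1)^i` vanishes on words of length `< i`, and for `1 ≤ i ≤ n` the binomial
coefficient `choose (p^j) i` is divisible by `p^(j - v_p(i))`. So `U` has finite index (compactness)
and the quotient is a finite `p`-group. -/
theorem UG.index_eq (U : Subgroup (UG X ℤ_[p])) (hn : U.Normal) (hU : IsOpen (U : Set (UG X ℤ_[p]))) :
    ∃ k : ℕ, U.index = p ^ k := by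
  have hfin : Finite (UG X ℤ_[p] ⧸ U) := Subgroup.quotient_finite_of_isOpen U hU
  have hp : IsPGroup p (UG X ℤ_[p] ⧸ U) := by
    intro g
    obtain ⟨a, rfl⟩ := QuotientGroup.mk_surjective g
    obtain ⟨s, m, hsm⟩ := UG.exists_basic hU U.one_mem
    refine ⟨m + s.sup List.length, ?_⟩
    rw [← QuotientGroup.mk_pow, QuotientGroup.eq_one_iff]
    apply hsm
    intro w hw
    exact pow_near a m _ w (Finset.le_sup (f := List.length) hw)
  rw [Subgroup.index_eq_card]
  exact IsPGroup.iff_card.1 hp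

/-- the element `1 + z` -/
noncomputable def UG.one_add_letter (K : Type*) [CommRing K] (z : X) : UG X K :=
  ⟨1 + NS.letter z, by simp⟩

/-- `1 + z` is in a given open subgroup for almost all letters `z` (`exists_basic`). -/
theorem UG.finite_letters (U : Subgroup (UG X ℤ_[p])) (hU : IsOpen (U : Set (UG X ℤ_[p]))) :
    {z : X | UG.one_add_letter ℤ_[p] z ∉ U}.Finite := by
  obtain ⟨s, m, hsm⟩ := UG.exists_basic hU U.one_mem
  have hinj : Function.Injective (fun z : X => [z]) := by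
    intro z z' h
    exact (List.cons.inj h).1
  refine Set.Finite.subset (Set.Finite.preimage hinj.injOn s.finite_toSet) ?_
  intro z hz
  by_contra hzs
  apply hz
  apply hsm
  intro w hw
  have hne : w ≠ [z] := by
    rintro rfl
    exact hzs hw
  have h1 : (UG.one_add_letter ℤ_[p] z).val w - (1 : NS X ℤ_[p]) w = (NS.letter z : NS X ℤ_[p]) w := by
    change (1 + NS.letter z : NS X ℤ_[p]) w - (1 : NS X ℤ_[p]) w = _
    rw [NS.add_apply, add_sub_cancel_left]
  rw [h1, NS.letter, NS.word_ne hne]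
  exact dvd_zero _

end Pool.Agent.Helper34.FHS
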