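import Mathlib
import Pool.Agent.Helper34.FHS.Top
import Pool.Agent.Helper34.FHS.Defs
import Pool.Agent.Helper34.FHS.UG
import Pool.Agent.Helper34.FHS.St.TB1
import Pool.Agent.Helper34.FHS.St.PB1

/-!
# PB2: the retraction `π` and the Magnus homomorphism exist
-/

namespace Pool.Agent.Helper34.FHS

universe u v w

variable {p : ℕ} {X : Type u} {F : Type v} [Group F] [TopologicalSpace F] [IsTopologicalGroup F]
  {ι : X → F}

/-- `lift_proP` with `P = F`, `φ x = 1`, `φ y = ι y`. -/
theorem IsFreeProP.exists_retract (hF : IsFreeProP p ι) [CompactSpace F] [T2Space F]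
    [TotallyDisconnectedSpace F] (x : X) :
    ∃ π : F →* F, Continuous π ∧ π (ι x) = 1 ∧ ∀ y, y ≠ x → π (ι y) = ι y := by
  classical
  obtain ⟨θ, hθ, h⟩ := hF.lift_proP (P := F) hF.proP (fun y => if y = x then 1 else ι y) (by
    intro V hn hV
    refine (hF.converges V hn hV).subset ?_
    intro y hy
    have hy' : (if y = x then (1 : F) else ι y) ∉ V := hy
    show ι y ∉ V
    by_cases hyx : y = x
    · rw [if_pos hyx] at hy'
      exact absurd V.one_mem hy'
    · rwa [if_neg hyx] at hy')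
  refine ⟨θ, hθ, ?_, ?_⟩
  · rw [h x, if_pos rfl]
  · intro y hy
    rw [h y, if_neg hy]

/-- `lift_proP` with `P = UG X ℤ_[p]`, `φ z = 1 + z` (TB1), composed with `UG.valHom`. -/
theorem IsFreeProP.exists_magnus (hF : IsFreeProP p ι) [Fact p.Prime] :
    ∃ M : F →* NS X ℤ_[p], IsMagnus ι M := by
  obtain ⟨θ, hθ, h⟩ := hF.lift_proP (P := UG X ℤ_[p]) (fun V hn hV => UG.index_eq V hn hV)
    (fun z => UG.one_add_letter ℤ_[p] z) (fun V _ hV => UG.finite_letters V hV)
  refine ⟨UG.valHom.comp θ, hF.dense, ?_, ?_, ?_⟩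
  · exact UG.continuous_val.comp hθ
  · intro g
    exact (θ g).val_nil
  · intro z
    show (θ (ι z)).val = 1 + NS.letter z
    rw [h z]
    rfl

/-- Change of coefficients. -/
theorem IsMagnus.map {K L : Type*} [CommRing K] [TopologicalSpace K] [CommRing L]
    [TopologicalSpace L] {M : F →* NS X K} (hM : IsMagnus ι M) (φ : K →+* L) (hφ : Continuous φ) :
    IsMagnus ι ((NS.map (X := X) φ : NS X K →* NS X L).comp M) := by
  refine ⟨hM.dense, ?_, ?_, ?_⟩
  · rw [NS.continuous_iff]
    intro w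
    exact hφ.comp ((NS.continuous_apply w).comp hM.cont)
  · intro g
    show NS.map φ (M g) [] = 1
    rw [NS.map_apply, hM.nil, map_one]
  · intro z
    show NS.map φ (M (ι z)) = 1 + NS.letter z
    rw [hM.gen, map_add, map_one, NS.map_letter]

end Pool.Agent.Helper34.FHS
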