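import Mathlib

/-!
# PB3: a finite p-group acts unipotently in characteristic p
-/

namespace Pool.Agent.Helper34.FHS

private def pb3A {p : ℕ} {P : Type*} [Group P] {W : Type*} [AddCommGroup W]
    [Module (ZMod p) W] (ρ : P →* Module.End (ZMod p) W) : ℕ → Submodule (ZMod p) W
  | 0 => ⊥
  | i + 1 => ⨅ g : P, (pb3A ρ i).comap (ρ g - 1)

private theorem pb3A_succ {p : ℕ} {P : Type*} [Group P] {W : Type*} [AddCommGroup W]
    [Module (ZMod p) W] (ρ : P →* Module.End (ZMod p) W) (i : ℕ) (w : W) :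
    w ∈ pb3A ρ (i + 1) ↔ ∀ g, ρ g w - w ∈ pb3A ρ i := by
  simp [pb3A, Submodule.mem_iInf]

private theorem pb3A_le {p : ℕ} {P : Type*} [Group P] {W : Type*} [AddCommGroup W]
    [Module (ZMod p) W] (ρ : P →* Module.End (ZMod p) W) (i : ℕ) :
    pb3A ρ i ≤ pb3A ρ (i + 1) := by
  induction i with
  | zero => exact bot_le
  | succ i ih =>
    intro w hw
    rw [pb3A_succ] at hw ⊢
    intro g
    exact ih (hw g)

private theorem pb3A_stable {p : ℕ} {P : Type*} [Group P] {W : Type*} [AddCommGroup W]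
    [Module (ZMod p) W] (ρ : P →* Module.End (ZMod p) W) (i : ℕ) (g : P) :
    pb3A ρ i ≤ (pb3A ρ i).comap (ρ g) := by
  intro w hw
  rw [Submodule.mem_comap]
  have h := (pb3A_succ ρ i w).1 (pb3A_le ρ i hw) g
  have := (pb3A ρ i).add_mem h hw
  rwa [sub_add_cancel] at this

private theorem pb3A_lt {p : ℕ} [Fact p.Prime] {P : Type*} [Group P] [Finite P]
    (hP : IsPGroup p P) {W : Type*} [AddCommGroup W] [Module (ZMod p) W] [Finite W]
    (ρ : P →* Module.End (ZMod p) W) (i : ℕ) (hi : pb3A ρ i ≠ ⊤) :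
    pb3A ρ i < pb3A ρ (i + 1) := by
  have hnt : Nontrivial (W ⧸ pb3A ρ i) := Submodule.Quotient.nontrivial_iff.2 hi
  have : Finite (W ⧸ pb3A ρ i) := Quotient.finite _
  let act : MulAction P (W ⧸ pb3A ρ i) :=
    { smul := fun g q => (pb3A ρ i).mapQ (pb3A ρ i) (ρ g) (pb3A_stable ρ i g) q
      one_smul := by
        intro q
        obtain ⟨w, rfl⟩ := Submodule.Quotient.mk_surjective _ q
        change (pb3A ρ i).mapQ (pb3A ρ i) (ρ 1) (pb3A_stable ρ i 1) (Submodule.Quotient.mk w) = _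
        rw [Submodule.mapQ_apply, map_one]
        rfl
      mul_smul := by
        intro g h q
        obtain ⟨w, rfl⟩ := Submodule.Quotient.mk_surjective _ q
        change (pb3A ρ i).mapQ (pb3A ρ i) (ρ (g * h)) (pb3A_stable ρ i (g * h))
          (Submodule.Quotient.mk w) = (pb3A ρ i).mapQ (pb3A ρ i) (ρ g) (pb3A_stable ρ i g)
            ((pb3A ρ i).mapQ (pb3A ρ i) (ρ h) (pb3A_stable ρ i h) (Submodule.Quotient.mk w))
        rw [Submodule.mapQ_apply, Submodule.mapQ_apply, Submodule.mapQ_apply, map_mul]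
        rfl }
  have hsm : ∀ (g : P) (w : W), act.smul g (Submodule.Quotient.mk w) =
      (Submodule.Quotient.mk (ρ g w) : W ⧸ pb3A ρ i) := fun g w => by
    change (pb3A ρ i).mapQ (pb3A ρ i) (ρ g) (pb3A_stable ρ i g) (Submodule.Quotient.mk w) = _
    rw [Submodule.mapQ_apply]
  have hcard : p ∣ Nat.card (W ⧸ pb3A ρ i) := by
    have : Module.Finite (ZMod p) (W ⧸ pb3A ρ i) := Module.Finite.of_finite
    rw [Module.natCard_eq_pow_finrank (K := ZMod p), Nat.card_zmod]
    exact dvd_pow_self _ (Module.finrank_pos).ne'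
  have h0 : (0 : W ⧸ pb3A ρ i) ∈ MulAction.fixedPoints P (W ⧸ pb3A ρ i) := by
    intro g
    change act.smul g (Submodule.Quotient.mk (0 : W)) = _
    rw [hsm, map_zero]
    rfl
  obtain ⟨b, hb, hb0⟩ := hP.exists_fixed_point_of_prime_dvd_card_of_fixed_point _ hcard h0
  obtain ⟨w, rfl⟩ := Submodule.Quotient.mk_surjective _ b
  refine lt_of_le_of_ne (pb3A_le ρ i) ?_
  intro heq
  apply hb0
  symm
  rw [Submodule.Quotient.mk_eq_zero, heq, pb3A_succ]
  intro g
  have h1 : act.smul g (Submodule.Quotient.mk w) = Submodule.Quotient.mk w := hb g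
  rw [hsm] at h1
  exact (Submodule.Quotient.eq _).1 h1

/-- Let `A 0 = ⊥`, `A (i+1) = {w | ∀ g, ρ g w - w ∈ A i}` (an increasing chain of `P`-stable
submodules). If `A i ≠ ⊤` then `P` acts on the non-trivial finite `p`-group `W ⧸ A i` and has a
non-zero fixed vector (`IsPGroup.card_modEq_card_fixedPoints`: the number of fixed points is
divisible by `p`), so `A i < A (i+1)`. As `W` is finite `A m = ⊤` for some `m`; put
`Wf i = A (m - i)`. -/
theorem exists_filtration {p : ℕ} [Fact p.Prime] {P : Type*} [Group P] [Finite P]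
    (hP : IsPGroup p P) {W : Type*} [AddCommGroup W] [Module (ZMod p) W] [Finite W]
    (ρ : P →* Module.End (ZMod p) W) :
    ∃ (m : ℕ) (Wf : ℕ → Submodule (ZMod p) W), Antitone Wf ∧ Wf 0 = ⊤ ∧ Wf m = ⊥ ∧
      ∀ i g w, w ∈ Wf i → ρ g w - w ∈ Wf (i + 1) := by
  have hmono : Monotone (pb3A ρ) := monotone_nat_of_le_succ (pb3A_le ρ)
  have hex : ∃ m, pb3A ρ m = ⊤ := by
    by_contra hcon
    push Not at hcon
    have hst : StrictMono (pb3A ρ) := strictMono_nat_of_lt_succ (fun i => pb3A_lt hP ρ i (hcon i))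
    have : Finite (Submodule (ZMod p) W) := inferInstance
    exact not_injective_infinite_finite _ hst.injective
  obtain ⟨m, hm⟩ := hex
  refine ⟨m, fun i => pb3A ρ (m - i), ?_, ?_, ?_, ?_⟩
  · intro i j hij
    exact hmono (Nat.sub_le_sub_left hij m)
  · simpa using hm
  · simp [pb3A]
  · intro i g w hw
    simp only at hw ⊢
    rcases Nat.lt_or_ge i m with h | h
    · have e : m - i = (m - (i + 1)) + 1 := by omega
      rw [e, pb3A_succ] at hw
      exact hw g
    · have e : m - i = 0 := by omega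
      rw [e] at hw
      have hw0 : w = 0 := by simpa [pb3A] using hw
      rw [hw0, map_zero, sub_zero]
      exact Submodule.zero_mem _

end Pool.Agent.Helper34.FHS
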