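import Mathlib
import Pool.Agent.Helper34.FHS.Pair

/-!
# UB1: power series act on modules on which the letters act nilpotently
-/

namespace Pool.Agent.Helper34.FHS

open Finsupp

section act

variable {X L W : Type*} [CommRing L] [AddCommGroup W] [Module L W]

/-- truncated action of a power series -/
private noncomputable def actk (N : X → Module.End L W) (S : Finset X) :
    ℕ → NS X L → Module.End L W
  | 0, _ => 0
  | k + 1, a => (a []) • (1 : Module.End L W) + ∑ z ∈ S, (actk N S k (NS.dl z a)) * N z

private theorem actk_succ (N : X → Module.End L W) (S : Finset X) (k : ℕ) (a : NS X L) (w : W) :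
    actk N S (k + 1) a w = a [] • w + ∑ z ∈ S, actk N S k (NS.dl z a) (N z w) := by
  simp [actk, LinearMap.sum_apply]

private theorem actk_zero (N : X → Module.End L W) (S : Finset X) (a : NS X L) (w : W) :
    actk N S 0 a w = 0 := rfl

private theorem actk_add (N : X → Module.End L W) (S : Finset X) (k : ℕ) (a b : NS X L) (w : W) :
    actk N S k (a + b) w = actk N S k a w + actk N S k b w := by
  induction k generalizing a b w with
  | zero => simp [actk_zero]
  | succ k ih =>
    rw [actk_succ, actk_succ, actk_succ, NS.add_apply, add_smul]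
    simp only [NS.dl_add, ih, Finset.sum_add_distrib]
    abel

private theorem actk_smul (N : X → Module.End L W) (S : Finset X) (k : ℕ) (c : L) (a : NS X L)
    (w : W) : actk N S k (c • a) w = c • actk N S k a w := by
  induction k generalizing a w with
  | zero => simp [actk_zero]
  | succ k ih =>
    rw [actk_succ, actk_succ, NS.smul_apply, smul_add, smul_smul, Finset.smul_sum]
    simp only [NS.dl_smul, ih]

private theorem actk_stab (N : X → Module.End L W) (S : Finset X) (m : ℕ)
    (Wf : ℕ → Submodule L W) (hanti : Antitone Wf) (hm : Wf m = ⊥)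
    (hN : ∀ i z w, w ∈ Wf i → N z w ∈ Wf (i + 1)) (k l i : ℕ) (a : NS X L) (w : W)
    (hw : w ∈ Wf i) (hk : m ≤ i + k) (hl : m ≤ i + l) :
    actk N S k a w = actk N S l a w := by
  have hz : m ≤ i → w = 0 := by
    intro h
    have := hanti h hw
    rw [hm] at this
    simpa using this
  induction k generalizing l i a w with
  | zero => rw [hz (by simpa using hk)]; simp
  | succ k ih =>
    cases l with
    | zero => rw [hz (by simpa using hl)]; simp
    | succ l =>
      rw [actk_succ, actk_succ]
      congr 1
      apply Finset.sum_congr rfl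
      intro z _
      refine ih l (i + 1) (NS.dl z a) (N z w) (hN i z w hw) (by omega) (by omega) ?_
      intro h
      have := hanti h (hN i z w hw)
      rw [hm] at this
      simpa using this

end act

/-- Proof. For `k : ℕ` define `act k : NS X L → W → W` by `act 0 a w = 0`,
`act (k+1) a w = a [] • w + ∑ z ∈ S, act k (dl z a) (N z w)`. It is linear in `w` and in `a`. For
`w ∈ Wf i` and `k, l ≥ m - i`: `act k a w = act l a w` (induction on `m - i`; if `m ≤ i` then
`w = 0`). Put `Θ a w = act m a w`. Then for all `w`:
`Θ a w = a [] • w + ∑ z ∈ S, Θ (dl z a) (N z w)` (as `N z w ∈ Wf 1`, `act m = act (m-1)` on it; if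
`m = 0` then `W = 0`). Multiplicativity `Θ (a * b) w = Θ a (Θ b w)` for `w ∈ Wf i` by induction on
`m - i`, using `dl z (a * b) = b [] • dl z a + a * dl z b`:
`Θ (a b) w = a[] b[] w + ∑ b[] Θ (dl z a) (N z w) + ∑ Θ (a * dl z b) (N z w)`
`= b[] Θ a w + ∑ Θ a (Θ (dl z b) (N z w)) = Θ a (Θ b w)`.
`Θ (letter z) = N z` for `z ∈ S` from `dl_letter_self`, `dl_letter_ne`; for `z ∉ S` both are `0`.
The last property: for `w ∈ Wf i` by induction on `m - i`:
`l (Θ a w) = a [] * l w + ∑ l (Θ (dl z a) (N z w)) = pr a (single [] (l w) + ∑ consL z (u_z))`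
(`pr_consL`). -/
theorem exists_act {X L W : Type*} [CommRing L] [AddCommGroup W] [Module L W]
    (N : X → Module.End L W) (S : Finset X) (hS : ∀ z, z ∉ S → N z = 0) (m : ℕ)
    (Wf : ℕ → Submodule L W) (hanti : Antitone Wf) (h0 : Wf 0 = ⊤) (hm : Wf m = ⊥)
    (hN : ∀ i z w, w ∈ Wf i → N z w ∈ Wf (i + 1)) :
    ∃ Θ : NS X L →+* Module.End L W,
      (∀ a w, Θ a w = a [] • w + ∑ z ∈ S, Θ (NS.dl z a) (N z w)) ∧
      (∀ z, Θ (NS.letter z) = N z) ∧
      (∀ (c : L) (a : NS X L), Θ (c • a) = c • Θ a) ∧
      (∀ (l : Module.Dual L W) (w : W), ∃ u : CC X L, ∀ a, l (Θ a w) = pr a u) :=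
  by
  have hzero : ∀ i, m ≤ i → ∀ w ∈ Wf i, w = 0 := by
    intro i h w hw
    have := hanti h hw
    rw [hm] at this
    simpa using this
  have hrec : ∀ (a : NS X L) (w : W), actk N S m a w =
      a [] • w + ∑ z ∈ S, actk N S m (NS.dl z a) (N z w) := by
    intro a w
    rw [← actk_succ]
    exact actk_stab N S m Wf hanti hm hN m (m + 1) 0 a w (by rw [h0]; trivial) (by omega) (by omega)
  have hzeroA : ∀ w, actk N S m (0 : NS X L) w = 0 := by
    intro w
    have := actk_smul N S m (0 : L) (0 : NS X L) w
    rwa [zero_smul, zero_smul] at this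
  have hone : ∀ w, actk N S m (1 : NS X L) w = w := by
    intro w
    rw [hrec]
    simp [hzeroA]
  have hmul : ∀ (k i : ℕ), m ≤ i + k → ∀ (a b : NS X L) (w : W), w ∈ Wf i →
      actk N S m (a * b) w = actk N S m a (actk N S m b w) := by
    intro k
    induction k with
    | zero =>
      intro i hi a b w hw
      rw [hzero i (by simpa using hi) w hw]
      simp
    | succ k ih =>
      intro i hi a b w hw
      rw [hrec (a * b) w, hrec b w, map_add, map_smul, map_sum, hrec a w, NS.mul_nil, smul_add,
        smul_smul, mul_comm (b []) (a []), add_assoc, Finset.smul_sum, ← Finset.sum_add_distrib]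
      congr 1
      apply Finset.sum_congr rfl
      intro z _
      rw [NS.dl_mul, actk_add, actk_smul, ih (i + 1) (by omega) a (NS.dl z b) (N z w)
        (hN i z w hw)]
  refine ⟨{ toFun := fun a => actk N S m a
            map_one' := by ext w; exact hone w
            map_zero' := by ext w; exact hzeroA w
            map_add' := by intro a b; ext w; exact actk_add N S m a b w
            map_mul' := by
              intro a b; ext w
              exact hmul m 0 (by omega) a b w (by rw [h0]; trivial) }, ?_, ?_, ?_, ?_⟩
  · intro a w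
    exact hrec a w
  · intro z
    ext w
    change actk N S m (NS.letter z) w = N z w
    rw [hrec, NS.letter_nil, zero_smul, zero_add]
    by_cases hz : z ∈ S
    · rw [Finset.sum_eq_single z]
      · rw [NS.dl_letter_self, hone]
      · intro z' _ hne
        rw [NS.dl_letter_ne hne, hzeroA]
      · intro h; exact absurd hz h
    · rw [hS z hz]
      apply Finset.sum_eq_zero
      intro z' hz'
      have hne : z' ≠ z := fun h => hz (h ▸ hz')
      rw [NS.dl_letter_ne hne, hzeroA]
  · intro c a
    ext w
    exact actk_smul N S m c a w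
  · intro l w
    change ∃ u : CC X L, ∀ a, l (actk N S m a w) = pr a u
    have key : ∀ (k i : ℕ), m ≤ i + k → ∀ w ∈ Wf i, ∃ u : CC X L, ∀ a,
        l (actk N S m a w) = pr a u := by
      intro k
      induction k with
      | zero =>
        intro i hi w hw
        refine ⟨0, fun a => ?_⟩
        rw [hzero i (by simpa using hi) w hw]
        simp
      | succ k ih =>
        intro i hi w hw
        choose u hu using fun z => ih (i + 1) (by omega) (N z w) (hN i z w hw)
        refine ⟨single [] (l w) + ∑ z ∈ S, consL z (u z), fun a => ?_⟩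
        rw [hrec, map_add, map_smul, map_sum, map_add, map_sum, pr_single, smul_eq_mul,
          mul_comm (a [])]
        congr 1
        apply Finset.sum_congr rfl
        intro z _
        rw [hu, pr_consL]
    exact key m 0 (by omega) w (by rw [h0]; trivial)

end Pool.Agent.Helper34.FHS
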