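import Mathlib
import Pool.Agent.Helper34.FHS.Top
import Pool.Agent.Helper34.FHS.Defs
import Pool.Agent.Helper34.FHS.St.PB2
import Pool.Agent.Helper34.FHS.St.PB3
import Pool.Agent.Helper34.FHS.St.UB1

/-!
# PB4: the Magnus homomorphism modulo p detects all finite quotients
-/

namespace Pool.Agent.Helper34.FHS

universe u v w

variable {p : ℕ} [Fact p.Prime] {X : Type u} {F : Type v} [Group F] [TopologicalSpace F]
  [IsTopologicalGroup F] {ι : X → F}

section reg

variable {Q : Type*} [Group Q] {K : Type*} [CommRing K]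

/-- The right regular representation on functions. -/
def pb4Reg (K : Type*) [CommRing K] (Q : Type*) [Group Q] : Q →* Module.End K (Q → K) where
  toFun g :=
    { toFun := fun f q => f (q * g)
      map_add' := fun _ _ => rfl
      map_smul' := fun _ _ => rfl }
  map_one' := by
    ext f q
    simp
  map_mul' g h := by
    apply LinearMap.ext
    intro f
    funext q
    show f (q * (g * h)) = f (q * g * h)
    rw [mul_assoc]

theorem pb4Reg_apply (g : Q) (f : Q → K) (q : Q) : pb4Reg K Q g f q = f (q * g) := rfl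

theorem pb4Reg_eq_one [Nontrivial K] {g : Q} (h : pb4Reg K Q g = 1) : g = 1 := by
  classical
  have h1 : pb4Reg K Q g (Pi.single 1 1) 1 = (Pi.single 1 1 : Q → K) 1 := by
    rw [h]
    rfl
  rw [pb4Reg_apply, one_mul, Pi.single_eq_same] at h1
  by_contra hg
  rw [Pi.single_eq_of_ne hg] at h1
  exact zero_ne_one h1

end reg

/-- Every open normal subgroup `U` of a free pro-p group is detected by a ring homomorphism from
`NS X (ZMod p)` to the endomorphisms of a finite module which vanishes on long words.
Take `W = (F ⧸ U) →₀ ZMod p` or `F ⧸ U → ZMod p`, `ρ : F ⧸ U →* Module.End (ZMod p) W` the regular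
representation (faithful), the filtration of `exists_filtration` (`hF.proP U` gives
`IsPGroup p (F ⧸ U)`; `F ⧸ U` is finite by compactness), `N z = ρ (ι z) - 1`, `S` the finite set of
`z` with `ι z ∉ U` (`hF.converges`), and `exists_act`. Then `Θ (M g) = ρ g` for all `g : F`: both are
homomorphisms, they agree on `ι X` and the set where they agree is closed: for all `w : W`
and functionals `l` the two functions `g ↦ l (Θ (M g) w) = pr (M g) u` (continuous into the discrete
space `ZMod p`) and `g ↦ l (ρ g w)` (locally constant) are continuous. -/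
theorem exists_detect (hF : IsFreeProP p ι) [CompactSpace F] {M : F →* NS X (ZMod p)}
    (hM : IsMagnus ι M) (U : Subgroup F) [hn : U.Normal]
    (hU : IsOpen (U : Set F)) :
    ∃ (W : Type v) (_ : AddCommGroup W) (_ : Module (ZMod p) W)
      (Θ : NS X (ZMod p) →+* Module.End (ZMod p) W),
      (∀ g : F, Θ (M g) = 1 ↔ g ∈ U) ∧ (∀ (c : ZMod p) (a : NS X (ZMod p)), Θ (c • a) = c • Θ a) ∧
      (∀ (l : Module.Dual (ZMod p) W) (w : W), ∃ u : CC X (ZMod p), ∀ a, l (Θ a w) = pr a u) := by
  classical
  obtain ⟨k, hk⟩ := hF.proP U hn hU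
  have hp : p.Prime := Fact.out
  have hcard : Nat.card (F ⧸ U) = p ^ k := hk
  have hfin : Finite (F ⧸ U) := Nat.finite_of_card_ne_zero (by
    rw [hcard]
    exact pow_ne_zero _ hp.ne_zero)
  have hPG : IsPGroup p (F ⧸ U) := IsPGroup.of_card hcard
  have hpne : NeZero p := ⟨hp.ne_zero⟩
  have hfinW : Finite ((F ⧸ U) → ZMod p) := inferInstance
  let ρ : (F ⧸ U) →* Module.End (ZMod p) ((F ⧸ U) → ZMod p) := pb4Reg (ZMod p) (F ⧸ U)
  obtain ⟨m, Wf, hanti, h0, hm, hWf⟩ := exists_filtration hPG ρ
  let S : Finset X := (hF.converges U hn hU).toFinset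
  obtain ⟨Θ, -, hlet, hsmul, hpair⟩ := exists_act
    (fun z => ρ (QuotientGroup.mk (ι z)) - 1) S (by
      intro z hz
      have hz' : ι z ∈ U := by
        by_contra hc
        exact hz ((hF.converges U hn hU).mem_toFinset.2 hc)
      have : (QuotientGroup.mk (ι z) : F ⧸ U) = 1 := (QuotientGroup.eq_one_iff _).2 hz'
      show ρ (QuotientGroup.mk (ι z)) - 1 = 0
      rw [this, map_one, sub_self]) m Wf hanti h0 hm (by
      intro i z w hw
      exact hWf i (QuotientGroup.mk (ι z)) w hw)
  have hdisc : DiscreteTopology (F ⧸ U) := QuotientGroup.discreteTopology hU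
  have hgen : ∀ z, Θ (M (ι z)) = ρ (QuotientGroup.mk (ι z)) := by
    intro z
    rw [hM.gen, map_add, map_one, hlet]
    abel
  -- the set where the two homomorphisms agree
  let A : Subgroup F :=
    { carrier := {g | Θ (M g) = ρ (QuotientGroup.mk g)}
      mul_mem' := by
        intro a b ha hb
        show Θ (M (a * b)) = ρ (QuotientGroup.mk (a * b))
        rw [map_mul, map_mul, QuotientGroup.mk_mul, map_mul, ha, hb]
      one_mem' := by
        show Θ (M 1) = ρ (QuotientGroup.mk 1)
        rw [map_one, map_one, QuotientGroup.mk_one, map_one]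
      inv_mem' := by
        intro a ha
        show Θ (M a⁻¹) = ρ (QuotientGroup.mk a⁻¹)
        have ha' : Θ (M a) = ρ (QuotientGroup.mk a) := ha
        have h1 : Θ (M a⁻¹) * ρ (QuotientGroup.mk a) = 1 := by
          rw [← ha', ← map_mul, ← map_mul, inv_mul_cancel, map_one, map_one]
        have h2 : ρ (QuotientGroup.mk a) * ρ (QuotientGroup.mk a⁻¹) = 1 := by
          rw [← map_mul, ← QuotientGroup.mk_mul, mul_inv_cancel, QuotientGroup.mk_one, map_one]
        calc Θ (M a⁻¹) = Θ (M a⁻¹) * (ρ (QuotientGroup.mk a) * ρ (QuotientGroup.mk a⁻¹)) := by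
              rw [h2, mul_one]
          _ = ρ (QuotientGroup.mk a⁻¹) := by rw [← mul_assoc, h1, one_mul] }
  have hAclosed : IsClosed (A : Set F) := by
    have hset : (A : Set F) = ⋂ (w : (F ⧸ U) → ZMod p) (q : F ⧸ U),
        {g : F | (Θ (M g) w) q = (ρ (QuotientGroup.mk g) w) q} := by
      ext g
      simp only [Set.mem_iInter]
      constructor
      · intro hg w q
        have hg' : Θ (M g) = ρ (QuotientGroup.mk g) := hg
        show (Θ (M g) w) q = (ρ (QuotientGroup.mk g) w) q
        rw [hg']
      · intro hg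
        show Θ (M g) = ρ (QuotientGroup.mk g)
        apply LinearMap.ext
        intro w
        funext q
        exact hg w q
    rw [hset]
    refine isClosed_iInter fun w => isClosed_iInter fun q => isClosed_eq ?_ ?_
    · obtain ⟨u, hu⟩ := hpair (LinearMap.proj q) w
      have : (fun g : F => (Θ (M g) w) q) = fun g => pr (M g) u := by
        funext g
        exact hu (M g)
      rw [this]
      exact (NS.continuous_pr u).comp hM.cont
    · have h1 : Continuous fun x : F ⧸ U => (ρ x w) q := continuous_of_discreteTopology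
      exact h1.comp QuotientGroup.continuous_mk
  have hall : ∀ g : F, Θ (M g) = ρ (QuotientGroup.mk g) := by
    intro g
    have h1 : Subgroup.closure (Set.range ι) ≤ A := by
      rw [Subgroup.closure_le]
      rintro _ ⟨z, rfl⟩
      exact hgen z
    have h2 : closure (Subgroup.closure (Set.range ι) : Set F) ⊆ (A : Set F) :=
      hAclosed.closure_subset_iff.2 h1
    rw [hF.dense.closure_eq] at h2
    exact h2 (Set.mem_univ g)
  refine ⟨(F ⧸ U) → ZMod p, inferInstance, inferInstance, Θ, ?_, hsmul, hpair⟩
  intro g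
  rw [hall g]
  constructor
  · intro h
    exact (QuotientGroup.eq_one_iff g).1 (pb4Reg_eq_one h)
  · intro h
    have : (QuotientGroup.mk g : F ⧸ U) = 1 := (QuotientGroup.eq_one_iff g).2 h
    rw [this, map_one]

theorem pb4_continuous_toZMod : Continuous (PadicInt.toZMod : ℤ_[p] →+* ZMod p) := by
  apply continuous_of_continuousAt_zero (PadicInt.toZMod : ℤ_[p] →+* ZMod p)
  rw [ContinuousAt, map_zero]
  have h : ∀ᶠ x : ℤ_[p] in nhds 0, PadicInt.toZMod x = (0 : ZMod p) := by
    filter_upwards [Metric.ball_mem_nhds (0 : ℤ_[p]) one_pos] with x hx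
    rw [mem_ball_zero_iff] at hx
    have : x ∈ RingHom.ker (PadicInt.toZMod : ℤ_[p] →+* ZMod p) := by
      rw [PadicInt.ker_toZMod, IsLocalRing.mem_maximalIdeal, PadicInt.mem_nonunits]
      exact hx
    exact this
  exact (Filter.tendsto_congr' h).2 tendsto_const_nhds

/-- If `M g = 1` then `g` is in all open normal subgroups (reduce modulo `p`: `IsMagnus.map` for
`PadicInt.toZMod`, continuous for the discrete topology on `ZMod p`), so `g = 1` (profinite). -/
theorem magnus_injective (hF : IsFreeProP p ι) [CompactSpace F] [T2Space F]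
    [TotallyDisconnectedSpace F] {M : F →* NS X ℤ_[p]} (hM : IsMagnus ι M) {g : F}
    (hg : M g = 1) : g = 1 := by
  have hM' : IsMagnus ι ((NS.map (X := X) (PadicInt.toZMod : ℤ_[p] →+* ZMod p) :
      NS X ℤ_[p] →* NS X (ZMod p)).comp M) := hM.map PadicInt.toZMod pb4_continuous_toZMod
  have hall : ∀ U : Subgroup F, U.Normal → IsOpen (U : Set F) → g ∈ U := by
    intro U hn hU
    obtain ⟨W, _, _, Θ, hΘ, -, -⟩ := exists_detect hF hM' U hU
    refine (hΘ g).1 ?_
    show Θ ((NS.map (X := X) (PadicInt.toZMod : ℤ_[p] →+* ZMod p)) (M g)) = 1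
    rw [hg, map_one, map_one]
  by_contra hne
  obtain ⟨H, hH⟩ := ProfiniteGrp.exist_openNormalSubgroup_sub_open_nhds_of_one
    (U := ({g}ᶜ : Set F)) isOpen_compl_singleton (by
      intro h1
      exact hne (Set.mem_singleton_iff.1 h1).symm)
  have h2 : g ∈ (H : Set F) := hall H.toSubgroup H.isNormal' H.isOpen'
  exact hH h2 rfl

end Pool.Agent.Helper34.FHS
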