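import Mathlib
import Pool.Agent.Helper34.FHS.Top
import Pool.Agent.Helper34.FHS.St.UB1

/-!
# UB2: the action of the closed ideal
-/

namespace Pool.Agent.Helper34.FHS

open Finsupp

/-- If `Θ a w ∉ C` there is a functional `l` on `W` vanishing on `C` with `l (Θ a w) ≠ 0`. Take `u`
with `l (Θ b w) = pr b u` for all `b`; then `u ∈ Bsub f`, so `pr a u = 0`, a contradiction. -/
theorem act_mem_of_mem_Icl {X K W : Type*} [Field K] [AddCommGroup W] [Module K W]
    (Θ : NS X K →+* Module.End K W)
    (hfin : ∀ (l : Module.Dual K W) (w : W), ∃ u : CC X K, ∀ a, l (Θ a w) = pr a u)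
    {f : NS X K} (w : W) (C : Submodule K W)
    (h : ∀ α β : List X, Θ (NS.word α * f * NS.word β) w ∈ C) {a : NS X K} (ha : a ∈ Icl f) :
    Θ a w ∈ C := by
  by_contra hn
  obtain ⟨l, hl, hC⟩ := Submodule.exists_le_ker_of_notMem hn
  obtain ⟨u, hu⟩ := hfin l w
  have hB : u ∈ Bsub f := by
    intro α β
    rw [← hu]
    exact hC (h α β)
  exact hl (by rw [hu]; exact ha u hB)

/-- matrices whose entries with `l - k < i - n` (`k` = row, `l` = column) vanish: everything for
`i = 0`, upper triangular for `i = n`, strictly upper triangular for `i = n + 1`, `0` for `i = 2 n` -/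
def matFil (K : Type*) [Field K] (n i : ℕ) : Submodule K (Matrix (Fin n) (Fin n) K) where
  carrier := {A | ∀ k l : Fin n, (l : ℕ) + n < (k : ℕ) + i → A k l = 0}
  add_mem' := by
    intro A B hA hB k l h
    rw [Matrix.add_apply, hA k l h, hB k l h, add_zero]
  zero_mem' := by intro k l _; rfl
  smul_mem' := by
    intro c A hA k l h
    rw [Matrix.smul_apply, hA k l h, smul_zero]

theorem matFil_anti (K : Type*) [Field K] (n : ℕ) : Antitone (matFil K n) := by
  intro i j hij A hA k l h
  exact hA k l (by omega)

theorem matFil_zero (K : Type*) [Field K] (n : ℕ) : matFil K n 0 = ⊤ := by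
  rw [eq_top_iff]
  intro A _ k l h
  have := k.2
  omega

theorem matFil_top (K : Type*) [Field K] (n : ℕ) : matFil K n (2 * n) = ⊥ := by
  rw [eq_bot_iff]
  intro A hA
  rw [Submodule.mem_bot]
  ext k l
  have := l.2
  exact hA k l (by omega)

/-- products with unitriangular matrices on both sides: `S A T - A` is one step deeper -/
theorem matFil_step {K : Type*} [Field K] {n i : ℕ} {S T A : Matrix (Fin n) (Fin n) K}
    (hS : ∀ i j, j < i → S i j = 0) (hS1 : ∀ i, S i i = 1) (hT : ∀ i j, j < i → T i j = 0)
    (hT1 : ∀ i, T i i = 1) (hA : A ∈ matFil K n i) : S * A * T - A ∈ matFil K n (i + 1) := by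
  intro k l h
  have h1 : (S * A * T) k l = A k l := by
    rw [Matrix.mul_apply, Finset.sum_eq_single l]
    · rw [hT1, mul_one, Matrix.mul_apply, Finset.sum_eq_single k]
      · rw [hS1, one_mul]
      · intro a _ hak
        rcases lt_or_gt_of_ne hak with hlt | hgt
        · rw [hS k a hlt, zero_mul]
        · have hgt' : (k : ℕ) < (a : ℕ) := hgt
          rw [hA a l (by omega), mul_zero]
      · intro hk; exact absurd (Finset.mem_univ k) hk
    · intro b _ hbl
      rcases lt_or_gt_of_ne hbl with hlt | hgt
      · have hlt' : (b : ℕ) < (l : ℕ) := hlt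
        have h0 : (S * A) k b = 0 := by
          rw [Matrix.mul_apply]
          apply Finset.sum_eq_zero
          intro a _
          rcases lt_or_ge a k with hak | hak
          · rw [hS k a hak, zero_mul]
          · have hak' : (k : ℕ) ≤ (a : ℕ) := hak
            rw [hA a b (by omega), mul_zero]
        rw [h0, zero_mul]
      · rw [hT b l hgt, mul_zero]
    · intro hl; exact absurd (Finset.mem_univ l) hl
  rw [Matrix.sub_apply, h1, sub_self]

/-- upper triangular times `matFil` is `matFil`; products: `matFil i * matFil j ≤ matFil (i+j-n)`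
in the two forms needed (upper triangular matrices are `matFil n`, strictly upper triangular ones
`matFil (n+1)`). -/
theorem matFil_mul {K : Type*} [Field K] {n i j : ℕ} {A B : Matrix (Fin n) (Fin n) K}
    (hA : A ∈ matFil K n (n + i)) (hB : B ∈ matFil K n (n + j)) :
    A * B ∈ matFil K n (n + (i + j)) := by
  intro k l h
  rw [Matrix.mul_apply]
  apply Finset.sum_eq_zero
  intro m _
  by_cases hm : (m : ℕ) < (k : ℕ) + i
  · rw [hA k m (by omega), zero_mul]
  · rw [hB m l (by omega), mul_zero]

end Pool.Agent.Helper34.FHS
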