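import Mathlib
import Pool.Agent.Helper34.FHS.Top
import Pool.Agent.Helper34.FHS.Defs
import Pool.Agent.Helper34.FHS.St.UB1
import Pool.Agent.Helper34.FHS.St.UB2

/-!
# UB3: the two-sided twisted action on matrices
-/

namespace Pool.Agent.Helper34.FHS

open Finsupp

universe u v w

variable {X : Type u} {K : Type v} {F : Type w} [Field K] [TopologicalSpace K]
  [IsTopologicalRing K] [T2Space K] [Group F] [TopologicalSpace F] [IsTopologicalGroup F]
  {ι : X → F} {M : F →* NS X K}

namespace UB3aux

section

variable {K : Type v} {F : Type w} [Field K] [Group F] {n : ℕ}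

theorem th_mul_inv (θ : F →* Matrix (Fin n) (Fin n) K) (g : F) : θ g * θ g⁻¹ = 1 := by
  rw [← map_mul, mul_inv_cancel, map_one]

/-- the twisted two-sided action -/
noncomputable def tw (π : F →* F) (θ : F →* Matrix (Fin n) (Fin n) K) :
    F →* Module.End K (Matrix (Fin n) (Fin n) K) where
  toFun g := (LinearMap.mulLeft K (θ g)).comp (LinearMap.mulRight K (θ (π g⁻¹)))
  map_one' := by
    apply LinearMap.ext
    intro A
    simp
  map_mul' g h := by
    apply LinearMap.ext
    intro A
    simp only [LinearMap.comp_apply, LinearMap.mulRight_apply, LinearMap.mulLeft_apply,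
      Module.End.mul_apply, mul_inv_rev, map_mul]
    simp only [Matrix.mul_assoc]

theorem tw_apply (π : F →* F) (θ : F →* Matrix (Fin n) (Fin n) K) (g : F)
    (A : Matrix (Fin n) (Fin n) K) : tw π θ g A = θ g * A * θ (π g⁻¹) := by
  show θ g * (A * θ (π g⁻¹)) = _
  rw [Matrix.mul_assoc]

end

end UB3aux

open UB3aux in
/-- The group `F` acts on matrices by `A ↦ θ g * A * θ (π g⁻¹)`; this extends to power series.
Proof. `N z A = θ (ι z) * A * θ (π (ι z)⁻¹) - A` and `exists_act` with the filtration `matFil K n`,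
`m = 2 n` (`matFil_step`), `S` the finite set of `z` with `θ (ι z) ≠ 1`, together with `x`
(for `z ∉ S` also `θ (π (ι z)⁻¹) = 1`, as `π (ι z) = ι z`). Then
`g ↦ Θ (M g)` and `g ↦ (A ↦ θ g * A * θ (π g⁻¹))` are homomorphisms `F →* Module.End K _` which
agree on `ι X` (`M (ι z) = 1 + letter z`); the set where they agree is a subgroup
(`MonoidHom.eqLocus`), closed since for every matrix `A` and functional `l` (an entry) both
`l (Θ (M g) A) = pr (M g) u` and `l (θ g * A * θ (π g⁻¹))` are continuous in `g`; so they agree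
everywhere. The last formula: in `Θ a 1 = a [] • 1 + ∑ z ∈ S, Θ (dl z a) (N z 1)` only `z = x`
contributes. -/
theorem exists_star (hM : IsMagnus ι M) {x : X} {π : F →* F} (hπ : Continuous π)
    (hx : π (ι x) = 1) (hy : ∀ y, y ≠ x → π (ι y) = ι y) {n : ℕ}
    (θ : F →* Matrix (Fin n) (Fin n) K) (hθ : IsUnip θ) (hfin : {z | θ (ι z) ≠ 1}.Finite) :
    ∃ Θ : NS X K →+* Module.End K (Matrix (Fin n) (Fin n) K),
      (∀ g A, Θ (M g) A = θ g * A * θ (π g⁻¹)) ∧
      (∀ (c : K) (a : NS X K), Θ (c • a) = c • Θ a) ∧
      (∀ (l : Module.Dual K (Matrix (Fin n) (Fin n) K)) (A : Matrix (Fin n) (Fin n) K),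
        ∃ u : CC X K, ∀ a, l (Θ a A) = pr a u) ∧
      (∀ a, Θ a 1 = a [] • 1 + Θ (NS.dl x a) (θ (ι x) - 1)) := by
  classical
  set N : X → Module.End K (Matrix (Fin n) (Fin n) K) := fun z => tw π θ (ι z) - 1 with hNdef
  have hNap : ∀ z A, N z A = θ (ι z) * A * θ (π (ι z)⁻¹) - A := by
    intro z A
    show tw π θ (ι z) A - A = _
    rw [tw_apply]
  set S : Finset X := insert x hfin.toFinset with hSdef
  have hS : ∀ z, z ∉ S → N z = 0 := by
    intro z hz
    rw [hSdef, Finset.mem_insert, not_or] at hz
    have h1 : θ (ι z) = 1 := by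
      by_contra h
      exact hz.2 (hfin.mem_toFinset.mpr h)
    have h2 : θ (π (ι z)⁻¹) = 1 := by
      rw [map_inv, hy z hz.1]
      have h3 := th_mul_inv θ (ι z)
      rw [h1, one_mul] at h3
      exact h3
    apply LinearMap.ext
    intro A
    rw [hNap, h1, h2, one_mul, mul_one, sub_self]
    rfl
  obtain ⟨Θ, h1, h2, h3, h4⟩ := exists_act (L := K) N S hS (2 * n) (matFil K n) (matFil_anti K n)
    (matFil_zero K n) (matFil_top K n) (by
      intro i z w hw
      rw [hNap]
      exact matFil_step (hθ.lower _) (hθ.diag _) (hθ.lower _) (hθ.diag _) hw)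
  refine ⟨Θ, ?_, h3, h4, ?_⟩
  · -- the two homomorphisms
    set Φ : F →* Module.End K (Matrix (Fin n) (Fin n) K) := (Θ : NS X K →* _).comp M with hΦ
    have hΦap : ∀ g, Φ g = Θ (M g) := fun g => rfl
    have hle : Subgroup.closure (Set.range ι) ≤ MonoidHom.eqLocus Φ (tw π θ) := by
      rw [Subgroup.closure_le]
      rintro _ ⟨z, rfl⟩
      show Φ (ι z) = tw π θ (ι z)
      rw [hΦap, hM.gen, map_add, map_one, h2, hNdef]
      simp
    have hcl : IsClosed ((MonoidHom.eqLocus Φ (tw π θ) : Subgroup F) : Set F) := by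
      have e : ((MonoidHom.eqLocus Φ (tw π θ) : Subgroup F) : Set F) =
          ⋂ (A : Matrix (Fin n) (Fin n) K), ⋂ (i : Fin n), ⋂ (j : Fin n),
            {g | (Θ (M g) A) i j = (θ g * A * θ (π g⁻¹)) i j} := by
        ext g
        simp only [Set.mem_iInter, Set.mem_ofPred_eq, SetLike.mem_coe]
        constructor
        · intro hg A i j
          have h5 : Φ g = tw π θ g := hg
          rw [hΦap] at h5
          rw [h5, tw_apply]
        · intro hg
          show Φ g = tw π θ g
          rw [hΦap]
          apply LinearMap.ext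
          intro A
          rw [tw_apply]
          exact Matrix.ext (hg A)
      rw [e]
      refine isClosed_iInter fun A => isClosed_iInter fun i => isClosed_iInter fun j => ?_
      apply isClosed_eq
      · obtain ⟨u, hu⟩ := h4 (Matrix.entryLinearMap K K i j) A
        have h6 : (fun g => (Θ (M g) A) i j) = fun g => pr (M g) u := by
          funext g
          rw [← hu]
          rfl
        rw [h6]
        exact (NS.continuous_pr u).comp hM.cont
      · exact ((hθ.cont.matrix_mul continuous_const).matrix_mul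
          (hθ.cont.comp (hπ.comp continuous_inv))).matrix_elem i j
    have hall : ∀ g, g ∈ MonoidHom.eqLocus Φ (tw π θ) := by
      intro g
      have h7 : closure (Subgroup.closure (Set.range ι) : Set F) ⊆
          ((MonoidHom.eqLocus Φ (tw π θ) : Subgroup F) : Set F) :=
        closure_minimal hle hcl
      exact h7 (hM.dense g)
    intro g A
    have h8 : Φ g = tw π θ g := hall g
    rw [← hΦap, h8, tw_apply]
  · intro a
    rw [h1]
    congr 1
    rw [Finset.sum_eq_single x]
    · rw [hNap, map_inv, hx, inv_one, map_one, mul_one, mul_one]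
    · intro z _ hz
      rw [hNap, map_inv, hy z hz, mul_one, th_mul_inv, sub_self, map_zero]
    · intro h
      exact absurd (Finset.mem_insert_self _ _) h

end Pool.Agent.Helper34.FHS
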