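import Mathlib
import Pool.Agent.Helper34.FHS.Top
import Pool.Agent.Helper34.FHS.Defs
import Pool.Agent.Helper34.FHS.St.UB2
import Pool.Agent.Helper34.FHS.St.UB3
import Pool.Agent.Helper34.FHS.St.IB3

/-!
# UB4: if `∂r/∂x` vanishes modulo the ideal of `r` then `r` and `π r` are rationally equivalent
-/

namespace Pool.Agent.Helper34.FHS

open Finsupp

universe u v w

variable {X : Type u} {K : Type v} {F : Type w} [Field K] [TopologicalSpace K]
  [IsTopologicalRing K] [T2Space K] [Group F] [TopologicalSpace F] [IsTopologicalGroup F]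
  {ι : X → F} {M : F →* NS X K}

namespace UB4aux

theorem matFil_stable {n i : ℕ} {θ : F →* Matrix (Fin n) (Fin n) K} (hθ : IsUnip θ) (g h : F)
    {A : Matrix (Fin n) (Fin n) K} (hA : A ∈ matFil K n (n + i)) :
    θ g * A * θ h ∈ matFil K n (n + i) := by
  have hu : ∀ g : F, θ g ∈ matFil K n (n + 0) := by
    intro g k l hkl
    exact hθ.lower g k l (by
      rw [Fin.lt_def]
      omega)
  have h1 := matFil_mul (hu g) hA
  have h2 := matFil_mul h1 (hu h)
  have e : n + (0 + i + 0) = n + i := by omega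
  rwa [e] at h2

theorem span_stable {n : ℕ} {Θ : NS X K →+* Module.End K (Matrix (Fin n) (Fin n) K)}
    (hsm : ∀ (c : K) (a : NS X K), Θ (c • a) = c • Θ a)
    {C : Submodule K (Matrix (Fin n) (Fin n) K)} (hC : ∀ g, ∀ A ∈ C, Θ (M g) A ∈ C)
    {a : NS X K} (ha : a ∈ Submodule.span K (Set.range M)) :
    ∀ A ∈ C, Θ a A ∈ C := by
  induction ha using Submodule.span_induction with
  | mem y hy =>
    obtain ⟨g, rfl⟩ := hy
    exact hC g
  | zero =>
    intro A _
    rw [map_zero]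
    exact C.zero_mem
  | add y z _ _ hy hz =>
    intro A hA
    rw [map_add]
    exact C.add_mem (hy A hA) (hz A hA)
  | smul c y _ hy =>
    intro A hA
    rw [hsm]
    exact C.smul_mem c (hy A hA)

/-- the nilpotency induction -/
theorem core (hM : IsMagnus ι M) {x : X} {π : F →* F} (r : F)
    (hr : NS.dl x (M r - 1) ∈ Icl (M r - 1)) {n : ℕ}
    (θ : F →* Matrix (Fin n) (Fin n) K) (hθ : IsUnip θ)
    (Θ : NS X K →+* Module.End K (Matrix (Fin n) (Fin n) K))
    (s1 : ∀ g A, Θ (M g) A = θ g * A * θ (π g⁻¹))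
    (s2 : ∀ (c : K) (a : NS X K), Θ (c • a) = c • Θ a)
    (s3 : ∀ (l : Module.Dual K (Matrix (Fin n) (Fin n) K)) (A : Matrix (Fin n) (Fin n) K),
        ∃ u : CC X K, ∀ a, l (Θ a A) = pr a u)
    (s4 : ∀ a, Θ a 1 = a [] • 1 + Θ (NS.dl x a) (θ (ι x) - 1))
    (W1 : Submodule K (Matrix (Fin n) (Fin n) K))
    (hW1 : ∀ g, ∀ A ∈ W1, θ g * A * θ (π g⁻¹) ∈ W1) (hx1 : θ (ι x) - 1 ∈ W1)
    (hact : ∀ j, θ r * θ (π r⁻¹) - 1 ∈ matFil K n (n + j) →
      ∀ A ∈ W1, θ r * A * θ (π r⁻¹) - A ∈ matFil K n (n + (j + 1))) :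
    θ r * θ (π r⁻¹) = 1 := by
  -- the formula for `c`
  have hf0 : (M r - 1 : NS X K) [] = 0 := by
    rw [NS.sub_apply, hM.nil, NS.one_nil, sub_self]
  have hact1 : ∀ A, Θ (M r - 1) A = θ r * A * θ (π r⁻¹) - A := by
    intro A
    rw [map_sub, map_one, LinearMap.sub_apply, s1]
    rfl
  have hc : θ r * θ (π r⁻¹) - 1 = Θ (NS.dl x (M r - 1)) (θ (ι x) - 1) := by
    have h1 := s4 (M r - 1)
    rw [hf0, zero_smul, zero_add, hact1, mul_one] at h1
    exact h1
  have hstab1 : ∀ g, ∀ A ∈ W1, Θ (M g) A ∈ W1 := by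
    intro g A hA
    rw [s1]
    exact hW1 g A hA
  have key : ∀ j, θ r * θ (π r⁻¹) - 1 ∈ matFil K n (n + j) := by
    intro j
    induction j with
    | zero =>
      have hu : ∀ g : F, θ g ∈ matFil K n (n + 0) := by
        intro g k l hkl
        exact hθ.lower g k l (by
          rw [Fin.lt_def]
          omega)
      refine Submodule.sub_mem _ ?_ ?_
      · exact matFil_mul (hu r) (hu (π r⁻¹))
      · have h1 := hu 1
        rwa [map_one] at h1
    | succ j ih =>
      rw [hc]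
      refine act_mem_of_mem_Icl Θ s3 (f := M r - 1) (θ (ι x) - 1) _ ?_ hr
      intro α β
      have hA' : Θ (NS.word β) (θ (ι x) - 1) ∈ W1 :=
        span_stable s2 hstab1 (word_mem_span hM β) _ hx1
      have hcA : Θ (M r - 1) (Θ (NS.word β) (θ (ι x) - 1)) ∈ matFil K n (n + (j + 1)) := by
        rw [hact1]
        exact hact j ih _ hA'
      have hstab2 : ∀ g, ∀ A ∈ matFil K n (n + (j + 1)), Θ (M g) A ∈ matFil K n (n + (j + 1)) := by
        intro g A hA
        rw [s1]
        exact matFil_stable hθ g _ hA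
      have h2 := span_stable s2 hstab2 (word_mem_span hM α) _ hcA
      rw [map_mul, map_mul, Module.End.mul_apply, Module.End.mul_apply]
      exact h2
  have hlast := key n
  have e : n + n = 2 * n := by omega
  rw [e, matFil_top, Submodule.mem_bot] at hlast
  exact sub_eq_zero.1 hlast

theorem sub_one_mem {n : ℕ} {θ : F →* Matrix (Fin n) (Fin n) K} (hθ : IsUnip θ) (g : F) :
    θ g - 1 ∈ matFil K n (n + 1) := by
  intro k l hkl
  rcases Nat.lt_or_ge (l : ℕ) (k : ℕ) with h | h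
  · rw [Matrix.sub_apply, hθ.lower g k l (Fin.lt_def.2 h), Matrix.one_apply_ne, sub_zero]
    intro h'
    rw [h'] at h
    exact lt_irrefl _ h
  · have h' : k = l := Fin.ext (by omega)
    rw [← h', Matrix.sub_apply, hθ.diag, Matrix.one_apply_eq, sub_self]

/-- `π` is idempotent -/
theorem idem (hM : IsMagnus ι M) {x : X} {π : F →* F} (hπ : Continuous π) [T2Space F]
    (hx : π (ι x) = 1) (hy : ∀ y, y ≠ x → π (ι y) = ι y) (g : F) : π (π g) = π g := by
  have hagree : ∀ g ∈ Subgroup.closure (Set.range ι), π (π g) = π g := by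
    intro g hg
    induction hg using Subgroup.closure_induction with
    | mem y hy' =>
      obtain ⟨z, rfl⟩ := hy'
      by_cases hz : z = x
      · rw [hz, hx, map_one]
      · rw [hy z hz, hy z hz]
    | one => rw [map_one, map_one]
    | mul y z _ _ h1 h2 => rw [map_mul, map_mul, h1, h2]
    | inv y _ h1 => rw [map_inv, map_inv, h1]
  exact congrFun (Continuous.ext_on hM.dense (hπ.comp hπ) hπ (fun g hg => hagree g hg)) g

end UB4aux

open UB4aux

/-- Paper 5 (ii). Let `c = θ r * θ (π r⁻¹) - 1`; by `exists_star`, for `f = M r - 1`,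
`c = Θ f 1 = Θ (dl x f) (θ (ι x) - 1)`. Let `M₁` be the span of the `θ k` with `π k = 1`, and
`M₁⁺ = M₁ ⊓ matFil K n (n+1)` (strictly upper triangular). Both are stable under
`Θ (M g) : A ↦ θ g * A * θ (π g⁻¹)` (`θ g θ k θ (π g⁻¹) = θ (g k π(g)⁻¹)` and `π (π g) = π g` by
density), hence under `Θ (word α)` (`word_mem_span`). For `A ∈ M₁`, `Θ f A = θ r * A * θ (π r⁻¹) - A
= c * A` since `θ (π r)` commutes with `A`. Show by induction on `j` that `c ∈ matFil K n (n + j)`:
`j = 0`: `c` is upper triangular. Step: for `A ∈ M₁⁺` and words `α, β`: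
`Θ (word α * f * word β) A = Θ (word α) (c * A')`, `A' = Θ (word β) A ∈ M₁⁺`, and `c * A'` is in
`matFil K n (n + (j + 1))`, which is stable under `Θ (word α)` (a combination of
`B ↦ θ g * B * θ (π g⁻¹)`). By `act_mem_of_mem_Icl` (`dl x f ∈ Icl f`) applied to
`A = θ (ι x) - 1 ∈ M₁⁺`: `c ∈ matFil K n (n + (j+1))`. For `j = n`: `c = 0` (`matFil_top`). So
`θ r * θ (π r⁻¹) = 1`. -/
theorem eq_of_commute (hM : IsMagnus ι M) {x : X} {π : F →* F} (hπ : Continuous π) [T2Space F]
    (hx : π (ι x) = 1) (hy : ∀ y, y ≠ x → π (ι y) = ι y) (r : F)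
    (hr : NS.dl x (M r - 1) ∈ Icl (M r - 1)) {n : ℕ}
    (θ : F →* Matrix (Fin n) (Fin n) K) (hθ : IsUnip θ) (hfin : {z | θ (ι z) ≠ 1}.Finite)
    (hc : ∀ k, π k = 1 → Commute (θ (π r)) (θ k)) : θ r = θ (π r) := by
  obtain ⟨Θ, s1, s2, s3, s4⟩ := exists_star hM hπ hx hy θ hθ hfin
  have hid := idem hM hπ hx hy
  have hTT : θ (π r) * θ (π r⁻¹) = 1 := by
    rw [← map_mul, ← map_mul, mul_inv_cancel, map_one, map_one]
  have hTT' : θ (π r⁻¹) * θ (π r) = 1 := by
    rw [← map_mul, ← map_mul, inv_mul_cancel, map_one, map_one]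
  -- commutation with `M₁`
  have hcomm : ∀ A ∈ Submodule.span K {A : Matrix (Fin n) (Fin n) K | ∃ k, π k = 1 ∧ A = θ k},
      A * θ (π r⁻¹) = θ (π r⁻¹) * A := by
    intro A hA
    have h1 : θ (π r) * A = A * θ (π r) := by
      induction hA using Submodule.span_induction with
      | mem y hy' =>
        obtain ⟨k, hk, rfl⟩ := hy'
        exact hc k hk
      | zero => rw [mul_zero, zero_mul]
      | add y z _ _ h1 h2 => rw [mul_add, add_mul, h1, h2]
      | smul c y _ h1 => rw [mul_smul_comm, smul_mul_assoc, h1]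
    calc A * θ (π r⁻¹) = θ (π r⁻¹) * θ (π r) * A * θ (π r⁻¹) := by rw [hTT', one_mul]
      _ = θ (π r⁻¹) * (θ (π r) * A) * θ (π r⁻¹) := by rw [mul_assoc (θ (π r⁻¹))]
      _ = θ (π r⁻¹) * (A * θ (π r)) * θ (π r⁻¹) := by rw [h1]
      _ = θ (π r⁻¹) * A * (θ (π r) * θ (π r⁻¹)) := by
        simp only [mul_assoc]
      _ = θ (π r⁻¹) * A := by rw [hTT, mul_one]
  have hmain : θ r * θ (π r⁻¹) = 1 := by
    refine core hM r hr θ hθ Θ s1 s2 s3 s4
      (Submodule.span K {A : Matrix (Fin n) (Fin n) K | ∃ k, π k = 1 ∧ A = θ k} ⊓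
        matFil K n (n + 1)) ?_ ?_ ?_
    · rintro g A ⟨hA1, hA2⟩
      refine ⟨?_, matFil_stable hθ g _ hA2⟩
      have hA1' : A ∈ Submodule.span K
          {A : Matrix (Fin n) (Fin n) K | ∃ k, π k = 1 ∧ A = θ k} := hA1
      show θ g * A * θ (π g⁻¹) ∈ Submodule.span K
          {A : Matrix (Fin n) (Fin n) K | ∃ k, π k = 1 ∧ A = θ k}
      clear hA1 hA2
      induction hA1' using Submodule.span_induction with
      | mem y hy' =>
        obtain ⟨k, hk, rfl⟩ := hy'
        refine Submodule.subset_span ⟨g * k * π g⁻¹, ?_, ?_⟩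
        · rw [map_mul, map_mul, hk, mul_one, hid, ← map_mul, mul_inv_cancel, map_one]
        · rw [map_mul, map_mul]
      | zero =>
        rw [mul_zero, zero_mul]
        exact Submodule.zero_mem _
      | add y z _ _ h1 h2 =>
        rw [mul_add, add_mul]
        exact Submodule.add_mem _ h1 h2
      | smul c y _ h1 =>
        rw [mul_smul_comm, smul_mul_assoc]
        exact Submodule.smul_mem _ c h1
    · refine ⟨?_, sub_one_mem hθ (ι x)⟩
      refine Submodule.sub_mem _ (Submodule.subset_span ⟨ι x, hx, rfl⟩)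
        (Submodule.subset_span ⟨1, map_one π, (map_one θ).symm⟩)
    · rintro j hj A ⟨hA1, hA2⟩
      have e : θ r * A * θ (π r⁻¹) - A = (θ r * θ (π r⁻¹) - 1) * A := by
        rw [mul_assoc, hcomm A hA1, sub_mul, one_mul, mul_assoc]
      rw [e]
      exact matFil_mul hj hA2
  calc θ r = θ r * (θ (π r⁻¹) * θ (π r)) := by rw [hTT', mul_one]
    _ = θ (π r) := by rw [← mul_assoc, hmain, one_mul]

/-- Paper 5 (i). (→) with `θ r = 1`: `c = θ (π r⁻¹) - 1`, `Θ f A = A * c` for all `A`, and the same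
induction (with all strictly upper triangular `A` instead of `M₁⁺`) shows `c = 0`.
(←) from `eq_of_commute`. -/
theorem eq_one_iff (hM : IsMagnus ι M) {x : X} {π : F →* F} (hπ : Continuous π) [T2Space F]
    (hx : π (ι x) = 1) (hy : ∀ y, y ≠ x → π (ι y) = ι y) (r : F)
    (hr : NS.dl x (M r - 1) ∈ Icl (M r - 1)) {n : ℕ}
    (θ : F →* Matrix (Fin n) (Fin n) K) (hθ : IsUnip θ) (hfin : {z | θ (ι z) ≠ 1}.Finite) :
    θ r = 1 ↔ θ (π r) = 1 := by
  constructor
  · intro h1
    obtain ⟨Θ, s1, s2, s3, s4⟩ := exists_star hM hπ hx hy θ hθ hfin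
    have hmain : θ r * θ (π r⁻¹) = 1 := by
      refine core hM r hr θ hθ Θ s1 s2 s3 s4 (matFil K n (n + 1)) ?_ (sub_one_mem hθ (ι x)) ?_
      · intro g A hA
        exact matFil_stable hθ g _ hA
      · intro j hj A hA
        have e : θ r * A * θ (π r⁻¹) - A = A * (θ r * θ (π r⁻¹) - 1) := by
          rw [h1, one_mul, one_mul, mul_sub, mul_one]
        rw [e, Nat.add_comm j 1]
        exact matFil_mul hA hj
    rw [h1, one_mul] at hmain
    have hTT : θ (π r) * θ (π r⁻¹) = 1 := by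
      rw [← map_mul, ← map_mul, mul_inv_cancel, map_one, map_one]
    rwa [hmain, mul_one] at hTT
  · intro h1
    rw [eq_of_commute hM hπ hx hy r hr θ hθ hfin (fun k _ => by
      rw [h1]
      exact Commute.one_left _), h1]

end Pool.Agent.Helper34.FHS
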