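import Mathlib
import Pool.Agent.Helper34.FHS.Defs
import Pool.Agent.Helper34.FHS.St.IB6
import Pool.Agent.Helper34.FHS.St.IB7
import Pool.Agent.Helper34.FHS.St.UB4
import Pool.Agent.Helper34.FHS.St.PB4

/-!
# FIN: the rational Freiheitssatz
-/

namespace Pool.Agent.Helper34.FHS

universe u v

/-- Theorem R. Let `M₀ : F →* NS X ℤ_[p]` be the Magnus homomorphism (`exists_magnus`) and `M` its
composition with `NS.map` of the inclusion `ℤ_[p] → ℚ_[p]` (`IsMagnus.map`, injective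
coefficientwise). If `X ∖ {x}` does not stay free there is `s ≠ 1` in
`sub ι {y | y ≠ x} ⊓ ncl r`; `M s - 1 ≠ 0` (`magnus_injective`), it is in `Icl (M r - 1)`
(`sub_one_mem_Icl`) and vanishes on words containing `x` (`M_apply_eq_zero`; for the empty word it
vanishes as well). By `dl_mem_Icl` and `Icl_prime`, `dl x (M r - 1) ∈ Icl (M r - 1)`; conclude by
`eq_one_iff` and `eq_of_commute`. -/
theorem rational_freiheitssatz {p : ℕ} [Fact p.Prime] {X : Type u} {F : Type v} [Group F]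
    [TopologicalSpace F] [IsTopologicalGroup F] [CompactSpace F] [T2Space F]
    [TotallyDisconnectedSpace F] {ι : X → F} (hF : IsFreeProP p ι) (r : F) (x : X) {π : F →* F}
    (hπ : Continuous π) (hx : π (ι x) = 1) (hy : ∀ y, y ≠ x → π (ι y) = ι y)
    (hns : ¬ StaysFree ι r x) {n : ℕ} (θ : F →* Matrix (Fin n) (Fin n) ℚ_[p]) (hθ : IsUnip θ)
    (hfin : {z | θ (ι z) ≠ 1}.Finite) :
    (θ r = 1 ↔ θ (π r) = 1) ∧
      ((∀ k, π k = 1 → Commute (θ (π r)) (θ k)) → θ r = θ (π r)) := by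
  obtain ⟨M₀, hM₀⟩ := hF.exists_magnus
  have hφ : Continuous (PadicInt.Coe.ringHom : ℤ_[p] →+* ℚ_[p]) := continuous_subtype_val
  have hM : IsMagnus ι ((NS.map (X := X) (PadicInt.Coe.ringHom : ℤ_[p] →+* ℚ_[p]) :
      NS X ℤ_[p] →* NS X ℚ_[p]).comp M₀) := hM₀.map PadicInt.Coe.ringHom hφ
  have hinj : ∀ g, ((NS.map (X := X) (PadicInt.Coe.ringHom : ℤ_[p] →+* ℚ_[p]) :
      NS X ℤ_[p] →* NS X ℚ_[p]).comp M₀) g = 1 → g = 1 := by
    intro g hg
    refine magnus_injective hF hM₀ (NS.ext' fun w => ?_)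
    have h1 : ((M₀ g w : ℤ_[p]) : ℚ_[p]) = (1 : NS X ℚ_[p]) w := by
      rw [← hg]
      rfl
    cases w with
    | nil =>
      rw [NS.one_nil] at h1 ⊢
      exact Subtype.ext (h1.trans PadicInt.coe_one.symm)
    | cons z w =>
      rw [NS.one_cons] at h1 ⊢
      exact Subtype.ext (h1.trans PadicInt.coe_zero.symm)
  generalize (NS.map (X := X) (PadicInt.Coe.ringHom : ℤ_[p] →+* ℚ_[p]) :
      NS X ℤ_[p] →* NS X ℚ_[p]).comp M₀ = M at hM hinj
  have hr : NS.dl x (M r - 1) ∈ Icl (M r - 1) := by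
    have hne : ∃ s ∈ sub ι {y | y ≠ x} ⊓ ncl r, s ≠ 1 := by
      by_contra hcon
      push Not at hcon
      exact hns ((Subgroup.eq_bot_iff_forall _).2 hcon)
    obtain ⟨s, hs, hs1⟩ := hne
    have hs' := Subgroup.mem_inf.1 hs
    refine dl_mem_Icl ?_ (fun a b h => Icl_prime hM r h) x (s := M s - 1)
      (sub_one_mem_Icl hM hs'.2) (fun h => hs1 (hinj s (sub_eq_zero.1 h))) ?_
    · rw [NS.sub_apply, hM.nil, NS.one_nil, sub_self]
    · intro w hw
      rw [NS.sub_apply, M_apply_eq_zero hM hπ hx hy hs'.1 hw]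
      cases w with
      | nil => simp at hw
      | cons z w => rw [NS.one_cons, sub_zero]
  exact ⟨eq_one_iff hM hπ hx hy r hr θ hθ hfin, eq_of_commute hM hπ hx hy r hr θ hθ hfin⟩

end Pool.Agent.Helper34.FHS
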